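import Mathlib

/-! # SLN / Aff: sets in affine space met by every line through one of their points in `k` points

Counting the pairs `(c, η)`, `c ≠ 0`, `η ≠ 0`, `x + c η ∈ D`, gives `(q - 1)(|D| - 1) = (|U| - 1)(k - 1)`
in every subspace `U` (coset). In a three-dimensional space the planes parallel to a given one meet `D`
in `0` or `d = 1 + (q + 1)(k - 1)` points, `|D| = 1 + (q² + q + 1)(k - 1) = j d`, `j ≤ q`, so
`(q + 1 - j) d = q k`, hence `k = q` or `k = 1`. -/

set_option autoImplicit false

namespace Pool.Agent.SLN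

open Finset

private theorem aff_cnt {F U : Type*} [Field F] [Fintype F] [DecidableEq F] [AddCommGroup U]
    [Module F U] [Fintype U] [DecidableEq U] (D : Finset U) (k : ℕ) (x : U) (hx : x ∈ D)
    (hk : ∀ η : U, η ≠ 0 → (univ.filter (fun c : F => x + c • η ∈ D)).card = k) :
    (Fintype.card F - 1) * (D.card - 1) = (Fintype.card U - 1) * (k - 1) := by
  have h1 : ∑ c ∈ (univ : Finset F).erase 0, ∑ η ∈ (univ : Finset U).erase 0,
      (if x + c • η ∈ D then 1 else 0) = (Fintype.card F - 1) * (D.card - 1) := by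
    have : ∀ c ∈ (univ : Finset F).erase 0, ∑ η ∈ (univ : Finset U).erase 0,
        (if x + c • η ∈ D then 1 else 0) = D.card - 1 := by
      intro c hc
      have hc0 : c ≠ 0 := (Finset.mem_erase.1 hc).1
      rw [← Finset.card_filter, ← Finset.card_erase_of_mem hx]
      refine Finset.card_nbij' (fun η => x + c • η) (fun y => c⁻¹ • (y - x)) ?_ ?_ ?_ ?_
      · intro η hη
        rw [Finset.mem_coe, Finset.mem_filter, Finset.mem_erase] at hη
        rw [Finset.mem_coe, Finset.mem_erase]
        refine ⟨fun h => hη.1.1 ?_, hη.2⟩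
        have h2 : c • η = 0 := by
          have := congrArg (fun z => z - x) h
          simpa using this
        exact (smul_eq_zero.1 h2).resolve_left hc0
      · intro y hy
        rw [Finset.mem_coe, Finset.mem_erase] at hy
        rw [Finset.mem_coe, Finset.mem_filter, Finset.mem_erase]
        refine ⟨⟨?_, Finset.mem_univ _⟩, ?_⟩
        · intro h
          have h2 := (smul_eq_zero.1 h).resolve_left (inv_ne_zero hc0)
          exact hy.1 (sub_eq_zero.1 h2)
        · rw [smul_smul, mul_inv_cancel₀ hc0, one_smul, add_sub_cancel]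
          exact hy.2
      · intro η _
        show c⁻¹ • (x + c • η - x) = η
        rw [add_sub_cancel_left, smul_smul, inv_mul_cancel₀ hc0, one_smul]
      · intro y _
        show x + c • (c⁻¹ • (y - x)) = y
        rw [smul_smul, mul_inv_cancel₀ hc0, one_smul, add_sub_cancel]
    rw [Finset.sum_congr rfl this, Finset.sum_const, smul_eq_mul,
      Finset.card_erase_of_mem (Finset.mem_univ _), Finset.card_univ]
  have h2 : ∑ η ∈ (univ : Finset U).erase 0, ∑ c ∈ (univ : Finset F).erase 0,
      (if x + c • η ∈ D then 1 else 0) = (Fintype.card U - 1) * (k - 1) := by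
    have : ∀ η ∈ (univ : Finset U).erase 0, ∑ c ∈ (univ : Finset F).erase 0,
        (if x + c • η ∈ D then 1 else 0) = k - 1 := by
      intro η hη
      have hη0 : η ≠ 0 := (Finset.mem_erase.1 hη).1
      rw [← Finset.card_filter, Finset.filter_erase, Finset.card_erase_of_mem, hk η hη0]
      rw [Finset.mem_filter]
      refine ⟨Finset.mem_univ _, ?_⟩
      rw [zero_smul, add_zero]
      exact hx
    rw [Finset.sum_congr rfl this, Finset.sum_const, smul_eq_mul,
      Finset.card_erase_of_mem (Finset.mem_univ _), Finset.card_univ]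
  rw [← h1, ← h2, Finset.sum_comm]

private theorem aff_three {F : Type*} [Field F] [Fintype F] [DecidableEq F]
    (D : Finset (F × (F × F))) (k : ℕ) (hD : D.Nonempty)
    (hk : ∀ x ∈ D, ∀ η : F × (F × F), η ≠ 0 →
      (univ.filter (fun c : F => x + c • η ∈ D)).card = k) :
    k = 1 ∨ k = Fintype.card F := by
  set q := Fintype.card F with hq
  have hq2 : 2 ≤ q := Fintype.one_lt_card
  obtain ⟨x, hx⟩ := hD
  -- `k ≥ 1`
  have hk1 : 1 ≤ k := by
    rw [← hk x hx (1, (0, 0)) (by
      intro h
      exact one_ne_zero (congrArg Prod.fst h))]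
    apply Finset.card_pos.2
    refine ⟨0, ?_⟩
    rw [Finset.mem_filter]
    refine ⟨Finset.mem_univ _, ?_⟩
    rw [zero_smul, add_zero]
    exact hx
  obtain ⟨κ, rfl⟩ : ∃ κ, k = κ + 1 := ⟨k - 1, by omega⟩
  have h3 := aff_cnt D (κ + 1) x hx (hk x hx)
  -- the slices
  let S : F → Finset (F × F) := fun a => univ.filter (fun y => (a, y) ∈ D)
  have hS : ∀ a y, y ∈ S a ↔ (a, y) ∈ D := by
    intro a y
    show y ∈ univ.filter (fun y => (a, y) ∈ D) ↔ _
    rw [Finset.mem_filter]
    simp
  have hsum : D.card = ∑ a : F, (S a).card := by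
    rw [Finset.card_eq_sum_card_fiberwise (f := Prod.fst) (t := univ) (fun _ _ => Finset.mem_coe.2 (Finset.mem_univ _))]
    refine Finset.sum_congr rfl fun a _ => ?_
    refine Finset.card_nbij' (fun z => z.2) (fun y => (a, y)) ?_ ?_ ?_ ?_
    · rintro ⟨b, y⟩ hz
      rw [Finset.mem_coe, Finset.mem_filter] at hz
      rw [Finset.mem_coe, hS]
      have : b = a := hz.2
      rw [← this]
      exact hz.1
    · intro y hy
      rw [Finset.mem_coe, hS] at hy
      rw [Finset.mem_coe, Finset.mem_filter]
      exact ⟨hy, rfl⟩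
    · rintro ⟨b, y⟩ hz
      rw [Finset.mem_coe, Finset.mem_filter] at hz
      have : b = a := hz.2
      show (a, y) = (b, y)
      rw [this]
    · intro y _
      rfl
  have hslice : ∀ a, (S a).card = 0 ∨ (S a).card = 1 + (q + 1) * κ := by
    intro a
    rcases Finset.eq_empty_or_nonempty (S a) with h | ⟨y, hy⟩
    · left
      rw [h, Finset.card_empty]
    · right
      have hay : (a, y) ∈ D := (hS a y).1 hy
      have h4 := aff_cnt (S a) (κ + 1) y hy (by
        intro η hη
        rw [← hk (a, y) hay (0, η) (by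
          intro h
          exact hη (congrArg Prod.snd h))]
        apply congrArg Finset.card
        apply Finset.filter_congr
        intro c _
        rw [hS]
        have e : (a, y) + c • ((0 : F), η) = (a, y + c • η) := by
          rw [Prod.smul_mk, Prod.mk_add_mk, smul_zero, add_zero]
        rw [e])
      rw [Fintype.card_prod, ← hq, Nat.add_sub_cancel] at h4
      have h5 : (S a).card - 1 = (q + 1) * κ := by
        have h6 : (q - 1) * ((S a).card - 1) = (q - 1) * ((q + 1) * κ) := by
          have h66 : q * q - 1 = (q - 1) * (q + 1) := by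
            obtain ⟨p, hp⟩ : ∃ p, q = p + 1 := ⟨q - 1, by omega⟩
            rw [hp, Nat.add_sub_cancel]
            have : (p + 1) * (p + 1) = p * (p + 1 + 1) + 1 := by ring
            rw [this, Nat.add_sub_cancel]
          rw [h4, h66, mul_assoc]
        exact Nat.eq_of_mul_eq_mul_left (by omega) h6
      have h7 : 1 ≤ (S a).card := Finset.card_pos.2 ⟨y, hy⟩
      omega
  have hN : D.card = 1 + (q ^ 2 + q + 1) * κ := by
    rw [Fintype.card_prod, Fintype.card_prod, ← hq, Nat.add_sub_cancel] at h3
    have h5 : D.card - 1 = (q ^ 2 + q + 1) * κ := by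
      have h6 : (q - 1) * (D.card - 1) = (q - 1) * ((q ^ 2 + q + 1) * κ) := by
        have h66 : q * (q * q) - 1 = (q - 1) * (q ^ 2 + q + 1) := by
          obtain ⟨p, hp⟩ : ∃ p, q = p + 1 := ⟨q - 1, by omega⟩
          rw [hp, Nat.add_sub_cancel]
          have : (p + 1) * ((p + 1) * (p + 1)) = p * ((p + 1) ^ 2 + (p + 1) + 1) + 1 := by ring
          rw [this, Nat.add_sub_cancel]
        rw [h3, h66, mul_assoc]
      exact Nat.eq_of_mul_eq_mul_left (by omega) h6
    have h7 : 1 ≤ D.card := Finset.card_pos.2 ⟨x, hx⟩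
    omega
  -- the number of nonempty slices
  obtain ⟨j, hj, hjN⟩ : ∃ j ≤ q, D.card = j * (1 + (q + 1) * κ) := by
    refine ⟨(univ.filter (fun a : F => (S a).card ≠ 0)).card, ?_, ?_⟩
    · rw [hq, ← Finset.card_univ]
      exact Finset.card_filter_le _ _
    · rw [hsum, ← Finset.sum_filter_ne_zero,
        Finset.sum_congr rfl (g := fun _ => 1 + (q + 1) * κ), Finset.sum_const, smul_eq_mul]
      intro a ha
      exact (hslice a).resolve_left (Finset.mem_filter.1 ha).2
  rw [hN] at hjN
  obtain ⟨i, hi⟩ : ∃ i, q = j + i := ⟨q - j, by omega⟩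
  -- `(i + 1) d = q (κ + 1)`
  have key : (i + 1) * (1 + (q + 1) * κ) = q * (κ + 1) := by
    have h8 : (q + 1) * (1 + (q + 1) * κ) = q * (κ + 1) + (1 + (q ^ 2 + q + 1) * κ) := by ring
    rw [hjN] at h8
    have h9 : q + 1 = j + (i + 1) := by omega
    have h10 : (q + 1) * (1 + (q + 1) * κ) =
        j * (1 + (q + 1) * κ) + (i + 1) * (1 + (q + 1) * κ) := by
      rw [← add_mul, ← h9]
    rw [h10] at h8
    omega
  rcases Nat.eq_zero_or_pos i with hi0 | hi0
  · right
    rw [hi0] at key
    nlinarith
  · left
    by_contra hne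
    have hκ : 1 ≤ κ := by omega
    have h11 : 2 * (1 + (q + 1) * κ) ≤ (i + 1) * (1 + (q + 1) * κ) :=
      Nat.mul_le_mul_right _ (by omega)
    rw [key] at h11
    nlinarith

/-- module Aff: sets in affine 3-space over F met by every line through one of their points in
exactly k points -/
theorem aff {F A : Type*} [Field F] [Finite F] [AddCommGroup A] [Module F A]
    (hA : 3 ≤ Module.finrank F A) [Finite A] (D : Set A) (k : ℕ) (hD : D.Nonempty)
    (hk : ∀ x ∈ D, ∀ η : A, η ≠ 0 → Nat.card {c : F // x + c • η ∈ D} = k) :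
    k = 1 ∨ k = Nat.card F := by
  classical
  have : Fintype F := Fintype.ofFinite F
  obtain ⟨x0, hx0⟩ := hD
  obtain ⟨v, hv⟩ := exists_linearIndependent_of_le_finrank hA
  let L : (F × (F × F)) →ₗ[F] A :=
    { toFun := fun p => p.1 • v 0 + p.2.1 • v 1 + p.2.2 • v 2
      map_add' := by
        intro p p'
        simp only [Prod.fst_add, Prod.snd_add, add_smul]
        abel
      map_smul' := by
        intro c p
        simp only [Prod.smul_fst, Prod.smul_snd, smul_eq_mul, mul_smul, RingHom.id_apply,
          smul_add] }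
  have hL : ∀ p, L p = p.1 • v 0 + p.2.1 • v 1 + p.2.2 • v 2 := fun p => rfl
  have hLi : ∀ p, L p = 0 → p = 0 := by
    intro p hp
    rw [hL] at hp
    have h1 := Fintype.linearIndependent_iff.1 hv ![p.1, p.2.1, p.2.2] (by
      rw [Fin.sum_univ_three]
      exact hp)
    have e0 := h1 0
    have e1 := h1 1
    have e2 := h1 2
    simp at e0 e1 e2
    exact Prod.ext e0 (Prod.ext e1 e2)
  let D' : Finset (F × (F × F)) := univ.filter (fun p => x0 + L p ∈ D)
  have hD' : ∀ p, p ∈ D' ↔ x0 + L p ∈ D := by
    intro p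
    show p ∈ univ.filter (fun p => x0 + L p ∈ D) ↔ _
    rw [Finset.mem_filter]
    simp
  rw [Nat.card_eq_fintype_card]
  apply aff_three D' k
  · refine ⟨0, ?_⟩
    rw [hD', map_zero, add_zero]
    exact hx0
  · intro p hp η hη
    rw [← hk (x0 + L p) ((hD' p).1 hp) (L η) (fun h => hη (hLi η h)), Nat.card_eq_fintype_card,
      Fintype.card_subtype]
    apply congrArg Finset.card
    apply Finset.filter_congr
    intro c _
    rw [hD', map_add, map_smul, add_assoc]

end Pool.Agent.SLN
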