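import Pool.Agent.SLN.Defs
import Pool.Agent.SLN.Aff

/-! Module Geo2b: the orbit of `e` is a set met by every line through one of its points in the same
number of points, so by `aff` it is one point or everything (helper30 for helper67). -/

set_option autoImplicit false

namespace Pool.Agent.SLN

section G2b

variable {F L : Type*} [Field F] [Field L] [Algebra F L]

/-- the cone over the orbit of `e` -/
private def SS (K : Subgroup ((L × F) ≃ₗ[F] (L × F))) : Set (L × F) :=
  {v | ∃ k ∈ K, ∃ c : F, c ≠ 0 ∧ v = c • k (0, 1)}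

private lemma SS_smul (K : Subgroup ((L × F) ≃ₗ[F] (L × F))) (v : L × F) (c : F) (hc : c ≠ 0) :
    c • v ∈ SS K ↔ v ∈ SS K := by
  constructor
  · rintro ⟨k, hk, d, hd, h⟩
    refine ⟨k, hk, c⁻¹ * d, mul_ne_zero (inv_ne_zero hc) hd, ?_⟩
    rw [mul_smul, ← h, smul_smul, inv_mul_cancel₀ hc, one_smul]
  · rintro ⟨k, hk, d, hd, h⟩
    exact ⟨k, hk, c * d, mul_ne_zero hc hd, by rw [h, smul_smul]⟩

private lemma inv_app (k : (L × F) ≃ₗ[F] (L × F)) (v : L × F) : (k⁻¹) (k v) = v := by
  change (k⁻¹ * k) v = v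
  rw [inv_mul_cancel]
  rfl

private lemma app_inv (k : (L × F) ≃ₗ[F] (L × F)) (v : L × F) : k ((k⁻¹) v) = v := by
  change (k * k⁻¹) v = v
  rw [mul_inv_cancel]
  rfl

private lemma SS_map1 (K : Subgroup ((L × F) ≃ₗ[F] (L × F))) (k : (L × F) ≃ₗ[F] (L × F))
    (hk : k ∈ K) (v : L × F) (hv : v ∈ SS K) : k v ∈ SS K := by
  obtain ⟨k', hk', d, hd, rfl⟩ := hv
  refine ⟨k * k', K.mul_mem hk hk', d, hd, ?_⟩
  rw [map_smul]
  rfl

private lemma SS_map (K : Subgroup ((L × F) ≃ₗ[F] (L × F))) (k : (L × F) ≃ₗ[F] (L × F))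
    (hk : k ∈ K) (v : L × F) : k v ∈ SS K ↔ v ∈ SS K := by
  constructor
  · intro h
    have := SS_map1 K k⁻¹ (K.inv_mem hk) _ h
    rwa [inv_app] at this
  · exact SS_map1 K k hk v

/-- the number of points of the cone in a plane given by a basis -/
private noncomputable def MM (K : Subgroup ((L × F) ≃ₗ[F] (L × F))) (v₁ v₂ : L × F) : ℕ :=
  Nat.card {p : F × F // p.1 • v₁ + p.2 • v₂ ∈ SS K}

private lemma MM_map (K : Subgroup ((L × F) ≃ₗ[F] (L × F))) (k : (L × F) ≃ₗ[F] (L × F))
    (hk : k ∈ K) (v₁ v₂ : L × F) : MM K (k v₁) (k v₂) = MM K v₁ v₂ := by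
  unfold MM
  refine Nat.card_congr (Equiv.subtypeEquivRight fun p => ?_)
  rw [← map_smul, ← map_smul, ← map_add]
  exact SS_map K k hk _

private lemma MM_shift (K : Subgroup ((L × F) ≃ₗ[F] (L × F))) (c : F) (hc : c ≠ 0) (a : F) (w : L) :
    MM K (c • ((0 : L), (1 : F))) (w, a) = MM K ((0 : L), (1 : F)) (w, 0) := by
  unfold MM
  refine Nat.card_congr (Equiv.subtypeEquiv
    { toFun := fun p => (p.1 * c + p.2 * a, p.2)
      invFun := fun p => ((p.1 - p.2 * a) * c⁻¹, p.2)
      left_inv := fun p => by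
        ext
        · simp only
          field_simp
          ring
        · rfl
      right_inv := fun p => by
        ext
        · simp only
          field_simp
          ring
        · rfl } fun p => ?_)
  have : p.1 • c • ((0 : L), (1 : F)) + p.2 • (w, a) =
      (p.1 * c + p.2 * a) • ((0 : L), (1 : F)) + p.2 • (w, (0 : F)) := by
    ext <;> simp
  simp only [Equiv.coe_fn_mk]
  rw [this]

private lemma MM_line [Finite F] (K : Subgroup ((L × F) ≃ₗ[F] (L × F)))
    (h2 : ∀ k ∈ K, (k (0, 1)).2 ≠ 0) (x η : L) :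
    MM K (x, 1) (η, 0) = (Nat.card F - 1) * Nat.card {c : F // (x + c • η, (1 : F)) ∈ SS K} := by
  have hS : ∀ v ∈ SS K, v.2 ≠ 0 := by
    rintro _ ⟨k, hk, c, hc, rfl⟩
    exact mul_ne_zero hc (h2 k hk)
  have hu : Nat.card Fˣ = Nat.card F - 1 := Nat.card_units F
  rw [← hu, ← Nat.card_prod]
  unfold MM
  refine Nat.card_congr
    { toFun := fun p => (Units.mk0 p.1.1 (by
          have := hS _ p.2
          simpa using this), ⟨p.1.1⁻¹ * p.1.2, by
          have h0 : p.1.1 ≠ 0 := by
            have := hS _ p.2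
            simpa using this
          have h1 := (SS_smul K _ p.1.1⁻¹ (inv_ne_zero h0)).2 p.2
          have h3 : p.1.1⁻¹ • (p.1.1 • (x, (1 : F)) + p.1.2 • (η, (0 : F))) =
              (x + (p.1.1⁻¹ * p.1.2) • η, (1 : F)) := by
            rw [smul_add, smul_smul, smul_smul, inv_mul_cancel₀ h0, one_smul]
            ext <;> simp
          rwa [h3] at h1⟩)
      invFun := fun q => ⟨((q.1 : F), (q.1 : F) * q.2.1), by
          have h1 := (SS_smul K _ (q.1 : F) q.1.ne_zero).2 q.2.2
          have h3 : (q.1 : F) • (x + q.2.1 • η, (1 : F)) =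
              (q.1 : F) • (x, (1 : F)) + ((q.1 : F) * q.2.1) • (η, (0 : F)) := by
            ext <;> simp [smul_add, smul_smul]
          rwa [h3] at h1⟩
      left_inv := fun p => by
        have h0 : p.1.1 ≠ 0 := by
          have := hS _ p.2
          simpa using this
        apply Subtype.ext
        apply Prod.ext
        · rfl
        · simp only [Units.val_mk0]
          rw [mul_inv_cancel_left₀ h0]
      right_inv := fun q => by
        apply Prod.ext
        · apply Units.ext
          rfl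
        · apply Subtype.ext
          simp only
          rw [inv_mul_cancel_left₀ q.1.ne_zero] }

private lemma t_pow (μ : F) (s : L) (t : (L × F) ≃ₗ[F] (L × F))
    (ht : ∀ v, t v = (s * v.1, μ⁻¹ * v.2)) (j : ℕ) (v : L × F) :
    (t ^ j) v = (s ^ j * v.1, (μ⁻¹) ^ j * v.2) := by
  induction j with
  | zero => simp
  | succ j ih =>
    rw [pow_succ']
    change t ((t ^ j) v) = _
    rw [ih, ht]
    ext
    · simp only; ring
    · simp only; ring

end G2b

theorem geo2b {F L : Type*} [Field F] [Finite F] [Field L] [Finite L] [Algebra F L]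
    (hL : 3 ≤ Module.finrank F L) (μ : F) (hμ : μ ≠ 0) (s : L)
    (hgen : ∀ x y : L, x ≠ 0 → y ≠ 0 → ∃ j : ℕ, s ^ j * x = y)
    (K : Subgroup ((L × F) ≃ₗ[F] (L × F))) (t : (L × F) ≃ₗ[F] (L × F)) (htK : t ∈ K)
    (ht : ∀ v, t v = (s * v.1, μ⁻¹ * v.2))
    (hirr : ∀ U : Submodule F (L × F), (∀ k ∈ K, ∀ v ∈ U, k v ∈ U) → U = ⊥ ∨ U = ⊤)
    (h2 : ∀ k ∈ K, (k (0, 1)).2 ≠ 0) : False := by
  have hS : ∀ v ∈ SS K, v.2 ≠ 0 := by
    rintro _ ⟨k, hk, c, hc, rfl⟩
    exact mul_ne_zero hc (h2 k hk)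
  have he : ((0 : L), (1 : F)) ∈ SS K := ⟨1, K.one_mem, 1, one_ne_zero, by simp⟩
  have hF : 1 < Nat.card F := Finite.one_lt_card
  set D : Set L := {w | (w, (1 : F)) ∈ SS K} with hD
  have hD0 : (0 : L) ∈ D := he
  -- every plane through a point of `S` contains the same number of points
  have hM1 : ∀ w : L, w ≠ 0 → MM K ((0 : L), (1 : F)) (w, 0) = MM K ((0 : L), (1 : F)) (1, 0) := by
    intro w hw
    obtain ⟨j, hj⟩ := hgen 1 w one_ne_zero hw
    have h3 := MM_map K (t ^ j) (K.pow_mem htK j) ((0 : L), (1 : F)) (1, 0)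
    rw [t_pow μ s t ht, t_pow μ s t ht] at h3
    simp only [mul_zero, mul_one] at h3
    rw [← h3, mul_one] at *
    have h4 : ((0 : L), (μ⁻¹) ^ j) = ((μ⁻¹) ^ j) • ((0 : L), (1 : F)) := by
      ext <;> simp
    rw [← hj, h4, MM_shift K _ (pow_ne_zero _ (inv_ne_zero hμ)) 0 (s ^ j)]
  have hM2 : ∀ x ∈ D, ∀ η : L, η ≠ 0 → MM K (x, 1) (η, 0) = MM K ((0 : L), (1 : F)) (1, 0) := by
    intro x hx η hη
    obtain ⟨k, hk, c, hc, h3⟩ := hx
    have h4 := MM_map K k⁻¹ (K.inv_mem hk) (x, 1) (η, 0)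
    have h5 : (k⁻¹) (x, (1 : F)) = c • ((0 : L), (1 : F)) := by
      rw [h3, map_smul, inv_app]
    rw [h5] at h4
    have h6 : ((k⁻¹) (η, (0 : F))).1 ≠ 0 := by
      intro h7
      have h8 : (k⁻¹) (η, (0 : F)) = ((k⁻¹) (η, (0 : F))).2 • ((0 : L), (1 : F)) := by
        apply Prod.ext
        · rw [Prod.smul_fst, smul_zero]
          exact h7
        · rw [Prod.smul_snd, smul_eq_mul, mul_one]
      have h9 : (η, (0 : F)) = ((k⁻¹) (η, (0 : F))).2 • k ((0 : L), (1 : F)) := by
        rw [← map_smul, ← h8, app_inv]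
      have h10 := congrArg Prod.snd h9
      simp only [Prod.smul_snd, smul_eq_mul] at h10
      have h11 : ((k⁻¹) (η, (0 : F))).2 = 0 := by
        rcases mul_eq_zero.1 h10.symm with h | h
        · exact h
        · exact absurd h (h2 k hk)
      rw [h11, zero_smul] at h9
      exact hη (congrArg Prod.fst h9)
    rw [← h4, ← hM1 _ h6, ← MM_shift K c hc ((k⁻¹) (η, (0 : F))).2 ((k⁻¹) (η, (0 : F))).1]
  set k₁ : ℕ := MM K ((0 : L), (1 : F)) (1, 0) / (Nat.card F - 1) with hk₁
  have hk : ∀ x ∈ D, ∀ η : L, η ≠ 0 → Nat.card {c : F // x + c • η ∈ D} = k₁ := by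
    intro x hx η hη
    have h3 := hM2 x hx η hη
    rw [MM_line K h2] at h3
    rw [hk₁, ← h3, Nat.mul_div_cancel_left _ (by omega)]
    rfl
  rcases aff hL D k₁ ⟨0, hD0⟩ hk with h | h
  · -- `D = {0}`
    have hD1 : ∀ x ∈ D, x = 0 := by
      intro x hx
      by_contra hx0
      have h3 := hk 0 hD0 x hx0
      rw [h, Nat.card_eq_one_iff_unique] at h3
      have h4 := h3.1
      have h5 : (⟨0, by simpa using hD0⟩ : {c : F // 0 + c • x ∈ D}) = ⟨1, by simpa using hx⟩ :=
        Subsingleton.elim _ _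
      exact zero_ne_one (congrArg Subtype.val h5)
    have hinv : ∀ k ∈ K, (k (0, 1)).1 = 0 := by
      intro k hk
      have h3 : (k (0, 1)).2⁻¹ • k (0, 1) ∈ SS K :=
        (SS_smul K _ _ (inv_ne_zero (h2 k hk))).2 (SS_map1 K k hk _ he)
      have h4 : (k (0, 1)).2⁻¹ • k (0, 1) = ((k (0, 1)).2⁻¹ • (k (0, 1)).1, (1 : F)) := by
        ext
        · rfl
        · simp [inv_mul_cancel₀ (h2 k hk)]
      rw [h4] at h3
      have h5 := hD1 _ h3
      exact (smul_eq_zero.1 h5).resolve_left (inv_ne_zero (h2 k hk))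
    have hin : ∀ k ∈ K, ∀ v ∈ LinearMap.ker (LinearMap.fst F L F),
        k v ∈ LinearMap.ker (LinearMap.fst F L F) := by
      intro k hk v hv
      rw [LinearMap.mem_ker, LinearMap.fst_apply] at hv ⊢
      have h4 : v = v.2 • ((0 : L), (1 : F)) := by
        ext
        · simp [hv]
        · simp
      rw [h4, map_smul, Prod.smul_fst, hinv k hk, smul_zero]
    rcases hirr (LinearMap.ker (LinearMap.fst F L F)) hin with h3 | h3
    · have h4 : ((0 : L), (1 : F)) ∈ LinearMap.ker (LinearMap.fst F L F) := by simp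
      rw [h3, Submodule.mem_bot] at h4
      exact one_ne_zero (congrArg Prod.snd h4)
    · have h4 : ((1 : L), (0 : F)) ∈ LinearMap.ker (LinearMap.fst F L F) := by
        rw [h3]; exact Submodule.mem_top
      simp at h4
  · -- `D` is everything
    have hDt : ∀ x : L, x ∈ D := by
      intro x
      by_cases hx0 : x = 0
      · rw [hx0]; exact hD0
      · have h3 := hk 0 hD0 x hx0
        rw [h] at h3
        by_contra hx
        have h4 : Nat.card {c : F // 0 + c • x ∈ D} < Nat.card F := by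
          have : Fintype F := Fintype.ofFinite F
          classical
          rw [Nat.card_eq_fintype_card, Nat.card_eq_fintype_card]
          refine Fintype.card_subtype_lt (x := (1 : F)) ?_
          simpa using hx
        omega
    have hinv : ∀ k ∈ K, ∀ v : L × F, v.2 = 0 → (k v).2 = 0 := by
      intro k hk v hv
      by_contra hne
      have h3 : ((k v).2⁻¹ • k v) ∈ SS K := by
        have h4 : (k v).2⁻¹ • k v = ((k v).2⁻¹ • (k v).1, (1 : F)) := by
          ext
          · rfl
          · simp [inv_mul_cancel₀ hne]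
        rw [h4]
        exact hDt _
      rw [SS_smul K _ _ (inv_ne_zero hne), SS_map K k hk] at h3
      exact hS v h3 hv
    have hin : ∀ k ∈ K, ∀ v ∈ LinearMap.ker (LinearMap.snd F L F),
        k v ∈ LinearMap.ker (LinearMap.snd F L F) := by
      intro k hk v hv
      rw [LinearMap.mem_ker, LinearMap.snd_apply] at hv ⊢
      exact hinv k hk v hv
    rcases hirr (LinearMap.ker (LinearMap.snd F L F)) hin with h3 | h3
    · have h4 : ((1 : L), (0 : F)) ∈ LinearMap.ker (LinearMap.snd F L F) := by simp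
      rw [h3, Submodule.mem_bot] at h4
      exact one_ne_zero (congrArg Prod.fst h4)
    · have h4 : ((0 : L), (1 : F)) ∈ LinearMap.ker (LinearMap.snd F L F) := by
        rw [h3]; exact Submodule.mem_top
      simp at h4

end Pool.Agent.SLN
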