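import Pool.Agent.SLN.FacC

/-! Every nonscalar element of `SL_n(F)` is a product of two elements of type `(s, N(s)⁻¹)`, for
every field extension `L = F(s)` of degree `n - 1 ≥ 2` (helper60). -/

set_option autoImplicit false

namespace Pool.Agent.SLN

open Module

theorem fac {n m : ℕ} (hnm : n = m + 1) (hm : 2 ≤ m) {F : Type*} [Field F] {L : Type*} [Field L]
    [Algebra F L] (hL : Module.finrank F L = m) (s : L) (hs : Algebra.adjoin F {s} = ⊤)
    (A : SLn n F) (hA : ¬ Sc A) :
    ∃ x y : SLn n F, IsT s x ∧ IsT s y ∧ x * y = A := by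
  have : FiniteDimensional F L := FiniteDimensional.of_finrank_pos (by omega)
  obtain ⟨x, y, ψ₁, ψ₂, h1, h2, h3⟩ := fac_lin (V := Fin n → F) s hs (by omega)
    (by rw [finrank_fin_fun, hL, hnm]) (Matrix.toLin' A.1)
    (by rw [LinearMap.det_toLin']; exact A.2)
    (by
      intro a ha
      apply hA
      refine ⟨a, ?_⟩
      apply Matrix.toLin'.injective
      rw [ha, map_smul, Matrix.toLin'_one]
      rfl)
  have hs0 : s ≠ 0 := by
    have := fac_ns s hs (by omega) 0
    rwa [map_zero] at this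
  have hN : Algebra.norm F s ≠ 0 := Algebra.norm_ne_zero_iff.2 hs0
  have hdx : (LinearMap.toMatrix' x).det = 1 := by
    rw [LinearMap.det_toMatrix', fac_det s _ x ψ₁ h1, mul_inv_cancel₀ hN]
  have hdy : (LinearMap.toMatrix' y).det = 1 := by
    rw [LinearMap.det_toMatrix', fac_det s _ y ψ₂ h2, mul_inv_cancel₀ hN]
  refine ⟨⟨LinearMap.toMatrix' y, hdy⟩, ⟨LinearMap.toMatrix' x, hdx⟩, ⟨ψ₂, ?_⟩, ⟨ψ₁, ?_⟩, ?_⟩
  · intro v
    rw [LinearMap.toMatrix'_mulVec, h2, facT_apply]
  · intro v
    rw [LinearMap.toMatrix'_mulVec, h1, facT_apply]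
  · apply Subtype.ext
    change LinearMap.toMatrix' y * LinearMap.toMatrix' x = A.1
    rw [← LinearMap.toMatrix'_comp]
    apply Matrix.toLin'.injective
    rw [Matrix.toLin'_toMatrix']
    apply LinearMap.ext
    intro v
    exact h3 v

end Pool.Agent.SLN
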