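import Mathlib

/-! A group K of automorphisms of L × F (L a quadratic extension of the finite field F) which
contains t = (s, n⁻¹), is irreducible and contains an element which preserves W = L × 0 but not
the line 0 × F contains all transvections. -/

namespace Pool.Agent.SLN

section

variable {F L : Type*} [Field F] [Field L] [Algebra F L]

/-- K contains all transvections with axis ker φ -/
def Full (K : Subgroup ((L × F) ≃ₗ[F] (L × F))) (φ : (L × F) →ₗ[F] F) : Prop :=
  ∀ u : L × F, φ u = 0 → ∃ g ∈ K, ∀ v, g v = v + φ v • u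

theorem Full.smul {K : Subgroup ((L × F) ≃ₗ[F] (L × F))} {φ : (L × F) →ₗ[F] F}
    (h : Full K φ) (c : F) : Full K (c • φ) := by
  intro u hu
  have hu' : φ (c • u) = 0 := by simpa using hu
  obtain ⟨g, hg, h2⟩ := h (c • u) hu'
  refine ⟨g, hg, fun v => ?_⟩
  rw [h2]
  simp [smul_smul, mul_comm]

theorem Full.comp {K : Subgroup ((L × F) ≃ₗ[F] (L × F))} {φ : (L × F) →ₗ[F] F}
    (h : Full K φ) {k : (L × F) ≃ₗ[F] (L × F)} (hk : k ∈ K) :
    Full K (φ ∘ₗ (k : (L × F) →ₗ[F] (L × F))) := by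
  intro u hu
  obtain ⟨g, hg, h2⟩ := h (k u) (by simpa using hu)
  refine ⟨k⁻¹ * g * k, K.mul_mem (K.mul_mem (K.inv_mem hk) hg) hk, fun v => ?_⟩
  have h3 : (k⁻¹ * g * k) v = k⁻¹ (g (k v)) := rfl
  rw [h3, h2, map_add, map_smul]
  have h4 : ∀ w, k⁻¹ (k w) = w := fun w => k.symm_apply_apply w
  rw [h4, h4]
  rfl

theorem Full.add {K : Subgroup ((L × F) ≃ₗ[F] (L × F))} {φ ψ : (L × F) →ₗ[F] F}
    (h : Full K φ) (h' : Full K ψ) : Full K (φ + ψ) := by
  by_cases hc : ∀ u, φ u = 0 → ψ u = 0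
  · -- ψ is a multiple of φ
    have : ∃ c : F, ψ = c • φ := by
      by_cases h0 : φ = 0
      · refine ⟨0, ?_⟩
        ext u
        · simpa [h0] using hc _ (by simp [h0])
        · simpa [h0] using hc _ (by simp [h0])
      · obtain ⟨v, hv⟩ : ∃ v, φ v ≠ 0 := by
          by_contra hcon
          push Not at hcon
          exact h0 (LinearMap.ext hcon)
        refine ⟨ψ v / φ v, LinearMap.ext fun x => ?_⟩
        have h1 := hc (x - (φ x / φ v) • v) (by simp [hv])
        rw [map_sub, map_smul, sub_eq_zero] at h1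
        rw [h1]
        simp only [smul_eq_mul, LinearMap.smul_apply]
        field_simp
    obtain ⟨c, rfl⟩ := this
    have h3 : φ + c • φ = (1 + c) • φ := by rw [add_smul, one_smul]
    rw [h3]
    exact h.smul _
  · push Not at hc
    obtain ⟨u0, hu0, hu1⟩ := hc
    obtain ⟨g, hg, h2⟩ := h ((ψ u0)⁻¹ • u0) (by simp [hu0])
    have h3 := h'.comp hg
    have h4 : ψ ∘ₗ (g : (L × F) →ₗ[F] (L × F)) = φ + ψ := by
      refine LinearMap.ext fun v => ?_
      have : (ψ ∘ₗ (g : (L × F) →ₗ[F] (L × F))) v = ψ (g v) := rfl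
      rw [this, h2]
      simp [hu1, add_comm]
    rw [h4] at h3
    exact h3

theorem Full.zero {K : Subgroup ((L × F) ≃ₗ[F] (L × F))} : Full K 0 := by
  intro u _
  exact ⟨1, K.one_mem, fun v => by simp⟩

/-- the space of full functionals -/
def FullS (K : Subgroup ((L × F) ≃ₗ[F] (L × F))) : Submodule F (Module.Dual F (L × F)) where
  carrier := {φ | Full K φ}
  add_mem' h h' := Full.add h h'
  zero_mem' := Full.zero
  smul_mem' c _ h := Full.smul h c

theorem fullS_eq_top [FiniteDimensional F L] (K : Subgroup ((L × F) ≃ₗ[F] (L × F)))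
    (hirr : ∀ U : Submodule F (L × F), (∀ k ∈ K, ∀ v ∈ U, k v ∈ U) → U = ⊥ ∨ U = ⊤)
    (φ : (L × F) →ₗ[F] F) (hφ : Full K φ) (h0 : φ ≠ 0) : FullS K = ⊤ := by
  have h1 : (FullS K).dualCoannihilator = ⊥ := by
    rcases hirr (FullS K).dualCoannihilator (by
      intro k hk v hv
      rw [Submodule.mem_dualCoannihilator] at hv ⊢
      intro ψ hψ
      exact hv _ (Full.comp hψ hk)) with h | h
    · exact h
    · exfalso
      apply h0
      refine LinearMap.ext fun v => ?_
      have : v ∈ (FullS K).dualCoannihilator := by rw [h]; trivial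
      rw [Submodule.mem_dualCoannihilator] at this
      exact this φ hφ
  have h2 := Subspace.dualCoannihilator_dualAnnihilator_eq (W := FullS K)
  rw [h1] at h2
  rw [← h2]
  simp

end

theorem t_pow {F L : Type*} [Field F] [Field L] [Algebra F L] (b : F) (s : L)
    (t : (L × F) ≃ₗ[F] (L × F)) (ht : ∀ v, t v = (s * v.1, b * v.2)) (j : ℕ) (v : L × F) :
    (t ^ j) v = (s ^ j * v.1, b ^ j * v.2) := by
  induction j generalizing v with
  | zero => simp
  | succ j ih =>
    have : (t ^ (j + 1)) v = (t ^ j) (t v) := by rw [pow_succ]; rfl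
    rw [this, ih, ht]
    simp only [Prod.mk.injEq]
    constructor <;> ring

/-- GEO 1 -/
theorem geo1 {F L : Type*} [Field F] [Field L] [Algebra F L] [FiniteDimensional F L]
    (n : F) (hn : n ≠ 0) (N : ℕ) (s : L)
    (hs : s ^ N = algebraMap F L n) (hne : (n⁻¹) ^ N ≠ n)
    (hE : ∀ E : AddSubgroup L, (∀ w ∈ E, n • (s * w) ∈ E) → E ≠ ⊥ → E = ⊤)
    (K : Subgroup ((L × F) ≃ₗ[F] (L × F))) (t : (L × F) ≃ₗ[F] (L × F)) (htK : t ∈ K)
    (ht : ∀ v, t v = (s * v.1, n⁻¹ * v.2))
    (hirr : ∀ U : Submodule F (L × F), (∀ k ∈ K, ∀ v ∈ U, k v ∈ U) → U = ⊥ ∨ U = ⊤)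
    (k : (L × F) ≃ₗ[F] (L × F)) (hk : k ∈ K)
    (hkW : ∀ w : L, (k (w, 0)).2 = 0) (hke : (k (0, 1)).1 ≠ 0) :
    ∀ (φ : (L × F) →ₗ[F] F) (u : L × F), φ u = 0 → ∃ g ∈ K, ∀ v, g v = v + φ v • u := by
  -- the homology
  set ν : F := (n⁻¹) ^ N with hν
  have hν0 : ν ≠ 0 := pow_ne_zero _ (inv_ne_zero hn)
  have hσ : ∀ v : L × F, (t ^ N) v = (n • v.1, ν * v.2) := by
    intro v
    rw [t_pow n⁻¹ s t ht, hs, Algebra.smul_def]
  set σ := t ^ N with hσd
  have hσK : σ ∈ K := K.pow_mem htK _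
  set w0 := (k (0, 1)).1 with hw0
  set α := (k (0, 1)).2 with hα
  have hdec : ∀ v : L × F, v = (v.1, 0) + v.2 • ((0 : L), (1 : F)) := by
    intro v
    ext <;> simp
  have hk2 : ∀ v : L × F, (k v).2 = v.2 * α := by
    intro v
    conv_lhs => rw [hdec v]
    rw [map_add, map_smul, Prod.snd_add, hkW, Prod.smul_snd, ← hα]
    simp
  have hα0 : α ≠ 0 := by
    intro h0
    have h1 := hk2 (k.symm (0, 1))
    rw [k.apply_symm_apply, h0, mul_zero] at h1
    exact one_ne_zero h1
  -- the transvection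
  have hke' : k (0, 1) = (w0, α) := rfl
  have hρ : ∀ v : L × F, (k * σ * k⁻¹) v = n • v + (((ν - n) * v.2 / α)) • (w0, α) := by
    intro x
    have h1 : (k * σ * k⁻¹) x = k (σ (k.symm x)) := rfl
    have h2 : ∀ v : L × F, σ v = n • v + ((ν - n) * v.2) • ((0 : L), (1 : F)) := by
      intro v
      rw [hσ]
      ext
      · simp
      · simp
        ring
    rw [h1, h2, map_add, map_smul, map_smul, k.apply_symm_apply, hke']
    have h3 := hk2 (k.symm x)
    rw [k.apply_symm_apply] at h3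
    rw [h3]
    congr 2
    field_simp
  set c1 : F := (ν - n) / (ν * α) with hc1
  have hc10 : c1 ≠ 0 := by
    rw [hc1]
    exact div_ne_zero (sub_ne_zero.2 hne) (mul_ne_zero hν0 hα0)
  have hτ : ∀ z : L × F, (k * σ * k⁻¹ * σ⁻¹) z = z + z.2 • (c1 • w0, (0 : F)) := by
    intro z
    obtain ⟨y, rfl⟩ : ∃ y, σ y = z := ⟨σ.symm z, σ.apply_symm_apply z⟩
    have h1 : (k * σ * k⁻¹ * σ⁻¹) (σ y) = (k * σ * k⁻¹) y := by
      have : (k * σ * k⁻¹ * σ⁻¹) (σ y) = (k * σ * k⁻¹) (σ.symm (σ y)) := rfl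
      rw [this, σ.symm_apply_apply]
    rw [h1, hρ, hσ]
    ext
    · simp only [Prod.fst_add, Prod.smul_fst, smul_smul]
      congr 2
      rw [hc1]
      field_simp
    · simp only [Prod.snd_add, Prod.smul_snd, smul_eq_mul]
      field_simp
      ring
  -- the group of transvections with axis W
  let E : AddSubgroup L :=
    { carrier := {w | ∃ g ∈ K, ∀ v : L × F, g v = v + v.2 • (w, (0 : F))}
      add_mem' := by
        rintro w w' ⟨g, hg, h⟩ ⟨g', hg', h'⟩
        refine ⟨g * g', K.mul_mem hg hg', fun v => ?_⟩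
        have : (g * g') v = g (g' v) := rfl
        rw [this, h, h']
        ext
        · simp
          ring
        · simp
      zero_mem' := ⟨1, K.one_mem, fun v => by simp⟩
      neg_mem' := by
        rintro w ⟨g, hg, h⟩
        refine ⟨g⁻¹, K.inv_mem hg, fun v => ?_⟩
        have h1 : g (v + v.2 • (-w, (0 : F))) = v := by
          rw [h]
          ext
          · simp
          · simp
        have h2 : g⁻¹ v = g.symm v := rfl
        rw [h2]
        rw [LinearEquiv.symm_apply_eq]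
        exact h1.symm }
  have hEmem : ∀ w, w ∈ E ↔ ∃ g ∈ K, ∀ v : L × F, g v = v + v.2 • (w, (0 : F)) := fun w => Iff.rfl
  have hEtop : E = ⊤ := by
    apply hE
    · intro w hw
      obtain ⟨g, hg, h⟩ := (hEmem w).1 hw
      refine (hEmem _).2 ⟨t * g * t⁻¹, K.mul_mem (K.mul_mem htK hg) (K.inv_mem htK), fun z => ?_⟩
      obtain ⟨y, rfl⟩ : ∃ y, t y = z := ⟨t.symm z, t.apply_symm_apply z⟩
      have h1 : (t * g * t⁻¹) (t y) = t (g y) := by
        have : (t * g * t⁻¹) (t y) = t (g (t.symm (t y))) := rfl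
        rw [this, t.symm_apply_apply]
      rw [h1, h, map_add, map_smul, ht, ht]
      ext
      · simp only [Prod.fst_add, Prod.smul_fst, smul_smul]
        congr 2
        field_simp
      · simp
    · intro hbot
      have h1 : c1 • w0 ∈ E := (hEmem _).2
        ⟨k * σ * k⁻¹ * σ⁻¹, K.mul_mem (K.mul_mem (K.mul_mem hk hσK) (K.inv_mem hk))
          (K.inv_mem hσK), hτ⟩
      rw [hbot, AddSubgroup.mem_bot] at h1
      rcases smul_eq_zero.1 h1 with h | h
      · exact hc10 h
      · exact hke h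
  have hsnd : Full K (LinearMap.snd F L F) := by
    intro u hu
    have h1 : u.1 ∈ E := by rw [hEtop]; trivial
    obtain ⟨g, hg, h⟩ := (hEmem _).1 h1
    refine ⟨g, hg, fun v => ?_⟩
    rw [h]
    have : u = (u.1, 0) := by
      ext
      · rfl
      · exact hu
    conv_rhs => rw [this]
    rfl
  have htop := fullS_eq_top K hirr _ hsnd (by
    intro h0
    have : (LinearMap.snd F L F) (0, 1) = 0 := by rw [h0]; rfl
    simp at this)
  intro φ u hu
  have h1 : φ ∈ FullS K := by rw [htop]; trivial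
  exact h1 u hu

end Pool.Agent.SLN
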