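import Pool.Agent.SLN.Geo1

/-! Dual version of `geo1`: K contains an element which preserves the line 0 × F but not the
hyperplane L × 0. -/

namespace Pool.Agent.SLN

section

variable {F L : Type*} [Field F] [Field L] [Algebra F L]

/-- K contains all transvections with centre u -/
def FullC (K : Subgroup ((L × F) ≃ₗ[F] (L × F))) (u : L × F) : Prop :=
  ∀ φ : (L × F) →ₗ[F] F, φ u = 0 → ∃ g ∈ K, ∀ v, g v = v + φ v • u

theorem FullC.smul {K : Subgroup ((L × F) ≃ₗ[F] (L × F))} {u : L × F}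
    (h : FullC K u) (c : F) : FullC K (c • u) := by
  intro φ hφ
  obtain ⟨g, hg, h2⟩ := h (c • φ) (by simpa using hφ)
  refine ⟨g, hg, fun v => ?_⟩
  rw [h2]
  simp [smul_smul, mul_comm]

theorem FullC.map {K : Subgroup ((L × F) ≃ₗ[F] (L × F))} {u : L × F}
    (h : FullC K u) {k : (L × F) ≃ₗ[F] (L × F)} (hk : k ∈ K) : FullC K (k u) := by
  intro φ hφ
  obtain ⟨g, hg, h2⟩ := h (φ ∘ₗ (k : (L × F) →ₗ[F] (L × F))) hφ
  refine ⟨k * g * k⁻¹, K.mul_mem (K.mul_mem hk hg) (K.inv_mem hk), fun v => ?_⟩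
  have h3 : (k * g * k⁻¹) v = k (g (k.symm v)) := rfl
  rw [h3, h2, map_add, map_smul, k.apply_symm_apply]
  have h4 : (φ ∘ₗ (k : (L × F) →ₗ[F] (L × F))) (k.symm v) = φ (k (k.symm v)) := rfl
  rw [h4, k.apply_symm_apply]

theorem FullC.zero {K : Subgroup ((L × F) ≃ₗ[F] (L × F))} : FullC K 0 := by
  intro φ _
  exact ⟨1, K.one_mem, fun v => by simp⟩

theorem FullC.add {K : Subgroup ((L × F) ≃ₗ[F] (L × F))} {u u' : L × F}
    (h : FullC K u) (h' : FullC K u') : FullC K (u + u') := by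
  by_cases hc : u' ∈ Submodule.span F {u}
  · obtain ⟨c, rfl⟩ := Submodule.mem_span_singleton.1 hc
    have h3 : u + c • u = (1 + c) • u := by rw [add_smul, one_smul]
    rw [h3]
    exact h.smul _
  · obtain ⟨φ, h1, h2⟩ := Submodule.exists_dual_map_eq_bot_of_notMem hc inferInstance
    have h3 : φ u = 0 := by
      have : φ u ∈ Submodule.map φ (Submodule.span F {u}) :=
        Submodule.mem_map_of_mem (Submodule.mem_span_singleton_self u)
      rw [h2] at this
      exact this
    obtain ⟨g, hg, h4⟩ := h ((φ u')⁻¹ • φ) (by simp [h3])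
    have h5 := h'.map hg
    rw [h4] at h5
    simp only [LinearMap.smul_apply, smul_eq_mul] at h5
    rw [inv_mul_cancel₀ h1, one_smul, add_comm] at h5
    exact h5

/-- the space of full centres -/
def FullCS (K : Subgroup ((L × F) ≃ₗ[F] (L × F))) : Submodule F (L × F) where
  carrier := {u | FullC K u}
  add_mem' h h' := FullC.add h h'
  zero_mem' := FullC.zero
  smul_mem' c _ h := FullC.smul h c

end

/-- module Geo1D -/
theorem geo1d {F L : Type*} [Field F] [Finite F] [Field L] [Finite L] [Algebra F L]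
    (μ : F) (hμ : μ ≠ 0) (N : ℕ) (s : L)
    (hs : s ^ N = algebraMap F L μ) (hne : (μ⁻¹) ^ N ≠ μ)
    (hE : ∀ E : AddSubgroup L, (∀ w ∈ E, μ • (s * w) ∈ E) → E ≠ ⊥ → E = ⊤)
    (K : Subgroup ((L × F) ≃ₗ[F] (L × F))) (t : (L × F) ≃ₗ[F] (L × F)) (htK : t ∈ K)
    (ht : ∀ v, t v = (s * v.1, μ⁻¹ * v.2))
    (hirr : ∀ U : Submodule F (L × F), (∀ k ∈ K, ∀ v ∈ U, k v ∈ U) → U = ⊥ ∨ U = ⊤)
    (k : (L × F) ≃ₗ[F] (L × F)) (hk : k ∈ K)
    (hke : (k (0, 1)).1 = 0) (hkW : ∃ w : L, (k (w, 0)).2 ≠ 0) :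
    ∀ (φ : (L × F) →ₗ[F] F) (u : L × F), φ u = 0 → ∃ g ∈ K, ∀ v, g v = v + φ v • u := by
  have hfd : FiniteDimensional F L := Module.Finite.of_finite
  set ν : F := (μ⁻¹) ^ N with hν
  have hν0 : ν ≠ 0 := pow_ne_zero _ (inv_ne_zero hμ)
  have hσ : ∀ v : L × F, (t ^ N) v = (μ • v.1, ν * v.2) := by
    intro v
    rw [t_pow μ⁻¹ s t ht, hs, Algebra.smul_def]
  set σ := t ^ N with hσd
  have hσK : σ ∈ K := K.pow_mem htK _
  set α := (k (0, 1)).2 with hα
  have hdec : ∀ v : L × F, v = (v.1, 0) + v.2 • ((0 : L), (1 : F)) := by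
    intro v
    ext <;> simp
  have hke' : k (0, 1) = (0, α) := Prod.ext hke rfl
  have hα0 : α ≠ 0 := by
    intro h0
    rw [h0] at hke'
    have h1 : k (0, 1) = k 0 := by rw [hke', map_zero]; rfl
    have h2 := k.injective h1
    have h3 := congrArg Prod.snd h2
    exact one_ne_zero h3
  have hksymm : k.symm (0, 1) = (0, α⁻¹) := by
    rw [LinearEquiv.symm_apply_eq]
    have : ((0 : L), α⁻¹) = α⁻¹ • ((0 : L), (1 : F)) := by ext <;> simp
    rw [this, map_smul, hke']
    ext
    · simp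
    · simp [hα0]
  have hk2 : ∀ v : L × F, (k v).2 = (k (v.1, 0)).2 + v.2 * α := by
    intro v
    conv_lhs => rw [hdec v]
    rw [map_add, map_smul, Prod.snd_add, Prod.smul_snd, ← hα]
    simp
  -- the dual transvection
  set c1 : F := (ν - μ) / (α * μ) with hc1
  have hc10 : c1 ≠ 0 := div_ne_zero (sub_ne_zero.2 hne) (mul_ne_zero hα0 hμ)
  have hτ : ∀ z : L × F, (k⁻¹ * σ * k * σ⁻¹) z = (z.1, z.2 + c1 * (k (z.1, 0)).2) := by
    intro z
    obtain ⟨y, rfl⟩ : ∃ y, σ y = z := ⟨σ.symm z, σ.apply_symm_apply z⟩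
    have h1 : (k⁻¹ * σ * k * σ⁻¹) (σ y) = k.symm (σ (k y)) := by
      have : (k⁻¹ * σ * k * σ⁻¹) (σ y) = k.symm (σ (k (σ.symm (σ y)))) := rfl
      rw [this, σ.symm_apply_apply]
    have h2 : ∀ v : L × F, σ v = μ • v + ((ν - μ) * v.2) • ((0 : L), (1 : F)) := by
      intro v
      rw [hσ]
      ext
      · simp
      · simp
        ring
    rw [h1, h2 (k y), map_add, map_smul, map_smul, k.symm_apply_apply, hksymm, hk2 y, hσ]
    have h3 : (k ((μ • y.1), (0 : F))).2 = μ * (k (y.1, 0)).2 := by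
      have : ((μ • y.1, (0 : F)) : L × F) = μ • (y.1, (0 : F)) := by ext <;> simp
      rw [this, map_smul, Prod.smul_snd, smul_eq_mul]
    ext
    · simp
    · simp only [Prod.snd_add, Prod.smul_snd, smul_eq_mul, h3, hc1]
      field_simp
      ring
  -- every functional is a trace
  have htr : ∀ ψ : L →ₗ[F] F, ∃ a : L, ∀ w, ψ w = Algebra.trace F L (a * w) := by
    intro ψ
    have hnd := traceForm_nondegenerate F L
    let f : L →ₗ[F] Module.Dual F L := Algebra.traceForm F L
    have hinj : Function.Injective f := by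
      rw [injective_iff_map_eq_zero]
      intro a ha
      exact hnd.1 a (fun b => by
        have := congrArg (fun g : Module.Dual F L => g b) ha
        exact this)
    have hsurj : Function.Surjective f :=
      (LinearMap.injective_iff_surjective_of_finrank_eq_finrank
        (Subspace.dual_finrank_eq (K := F) (V := L)).symm).1 hinj
    obtain ⟨a, ha⟩ := hsurj ψ
    refine ⟨a, fun w => ?_⟩
    rw [← ha]
    rfl
  let E : AddSubgroup L :=
    { carrier := {a | ∃ g ∈ K, ∀ v : L × F, g v = (v.1, v.2 + Algebra.trace F L (a * v.1))}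
      add_mem' := by
        rintro a a' ⟨g, hg, h⟩ ⟨g', hg', h'⟩
        refine ⟨g * g', K.mul_mem hg hg', fun v => ?_⟩
        have : (g * g') v = g (g' v) := rfl
        rw [this, h, h']
        ext
        · simp
        · simp only [add_mul, map_add]
          ring
      zero_mem' := ⟨1, K.one_mem, fun v => by simp⟩
      neg_mem' := by
        rintro a ⟨g, hg, h⟩
        refine ⟨g⁻¹, K.inv_mem hg, fun v => ?_⟩
        have h1 : g (v.1, v.2 + Algebra.trace F L (-a * v.1)) = v := by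
          rw [h]
          ext
          · simp
          · simp
        have h2 : g⁻¹ v = g.symm v := rfl
        rw [h2, LinearEquiv.symm_apply_eq]
        exact h1.symm }
  have hEmem : ∀ a, a ∈ E ↔ ∃ g ∈ K, ∀ v : L × F, g v = (v.1, v.2 + Algebra.trace F L (a * v.1)) :=
    fun a => Iff.rfl
  have hEtop : E = ⊤ := by
    apply hE
    · intro a ha
      obtain ⟨g, hg, h⟩ := (hEmem a).1 ha
      refine (hEmem _).2 ⟨t⁻¹ * g * t, K.mul_mem (K.mul_mem (K.inv_mem htK) hg) htK, fun v => ?_⟩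
      have h1 : (t⁻¹ * g * t) v = t.symm (g (t v)) := rfl
      rw [h1, LinearEquiv.symm_apply_eq, h, ht, ht]
      ext
      · simp
      · simp only [Algebra.smul_mul_assoc, map_smul, smul_eq_mul]
        have : a * (s * v.1) = s * a * v.1 := by ring
        rw [this]
        field_simp
    · intro hbot
      obtain ⟨w, hw⟩ := hkW
      let ψ : L →ₗ[F] F := c1 • (LinearMap.snd F L F ∘ₗ (k : (L × F) →ₗ[F] (L × F)) ∘ₗ
        LinearMap.inl F L F)
      have hψ : ∀ w, ψ w = c1 * (k (w, 0)).2 := fun w => rfl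
      obtain ⟨a, ha⟩ := htr ψ
      have h1 : a ∈ E := (hEmem _).2
        ⟨k⁻¹ * σ * k * σ⁻¹, K.mul_mem (K.mul_mem (K.mul_mem (K.inv_mem hk) hσK) hk)
          (K.inv_mem hσK), fun v => by rw [hτ, ← ha, hψ]⟩
      rw [hbot, AddSubgroup.mem_bot] at h1
      have h2 := ha w
      rw [h1, zero_mul, map_zero, hψ] at h2
      exact (mul_ne_zero hc10 hw) h2
  have he : FullC K ((0 : L), (1 : F)) := by
    intro φ hφ
    obtain ⟨a, ha⟩ := htr (φ ∘ₗ LinearMap.inl F L F)
    have h1 : a ∈ E := by rw [hEtop]; trivial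
    obtain ⟨g, hg, h⟩ := (hEmem _).1 h1
    refine ⟨g, hg, fun v => ?_⟩
    rw [h, ← ha]
    have h2 : φ v = φ (v.1, 0) := by
      conv_lhs => rw [hdec v]
      rw [map_add, map_smul, hφ]
      simp
    rw [h2]
    ext
    · simp
    · simp
  have htop : FullCS K = ⊤ := by
    rcases hirr (FullCS K) (fun k hk v hv => FullC.map hv hk) with h | h
    · exfalso
      have h1 : ((0 : L), (1 : F)) ∈ FullCS K := he
      rw [h, Submodule.mem_bot] at h1
      exact one_ne_zero (congrArg Prod.snd h1)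
    · exact h
  intro φ u hu
  have h1 : u ∈ FullCS K := by rw [htop]; trivial
  exact h1 φ hu

end Pool.Agent.SLN
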