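import Mathlib

/-! SLN / Inv: subspaces of `L × F` invariant under `t = (s, μ⁻¹)`. -/

set_option autoImplicit false

namespace Pool.Agent.SLN

/-- module Inv: subspaces invariant under t -/
theorem inv_sub {F L : Type*} [Field F] [Finite F] [Field L] [Finite L] [Algebra F L]
    (hL : 2 ≤ Module.finrank F L) (μ : F) (s : L)
    (hgen : ∀ x y : L, x ≠ 0 → y ≠ 0 → ∃ j : ℕ, s ^ j * x = y)
    (U : Submodule F (L × F)) (hU : ∀ v ∈ U, ((s * v.1, μ⁻¹ * v.2) : L × F) ∈ U) :
    U = ⊥ ∨ U = ⊤ ∨ (∀ v, v ∈ U ↔ v.1 = 0) ∨ (∀ v, v ∈ U ↔ v.2 = 0) := by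
  have hs : ∀ c : F, s ≠ algebraMap F L c := by
    intro c hc
    have h1 : Module.finrank F L ≤ 1 := by
      refine finrank_le_one (1 : L) fun w => ?_
      rcases eq_or_ne w 0 with rfl | hw
      · exact ⟨0, by simp⟩
      · obtain ⟨j, hj⟩ := hgen 1 w one_ne_zero hw
        refine ⟨c ^ j, ?_⟩
        rw [← hj, hc, Algebra.smul_def, map_pow]
    omega
  by_cases h1 : ∃ v ∈ U, v.1 ≠ 0
  · obtain ⟨v, hv, hv1⟩ := h1
    have h2 : (((s - algebraMap F L μ⁻¹) * v.1, 0) : L × F) ∈ U := by
      have h3 := U.sub_mem (hU v hv) (U.smul_mem μ⁻¹ hv)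
      have h4 : ((s * v.1, μ⁻¹ * v.2) : L × F) - μ⁻¹ • v
          = ((s - algebraMap F L μ⁻¹) * v.1, 0) := by
        ext
        · simp [Algebra.smul_def, sub_mul]
        · simp
      rwa [h4] at h3
    have h3 : (s - algebraMap F L μ⁻¹) * v.1 ≠ 0 :=
      mul_ne_zero (sub_ne_zero.2 (hs _)) hv1
    set x := (s - algebraMap F L μ⁻¹) * v.1 with hx
    have h4 : ∀ j : ℕ, ((s ^ j * x, 0) : L × F) ∈ U := by
      intro j
      induction j with
      | zero => simpa using h2
      | succ j ih =>
        have h5 := hU _ ih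
        have h6 : ((s * (s ^ j * x), μ⁻¹ * (0 : F)) : L × F) = (s ^ (j + 1) * x, 0) := by
          ext
          · simp [pow_succ]
            ring
          · simp
        simpa only [h6] using h5
    have h5 : ∀ y : L, ((y, 0) : L × F) ∈ U := by
      intro y
      rcases eq_or_ne y 0 with rfl | hy
      · exact U.zero_mem
      · obtain ⟨j, hj⟩ := hgen x y h3 hy
        rw [← hj]
        exact h4 j
    by_cases h6 : ∃ w ∈ U, w.2 ≠ 0
    · right; left
      obtain ⟨w, hw, hw2⟩ := h6
      rw [eq_top_iff]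
      rintro ⟨a, b⟩ -
      have h7 : ((a, b) : L × F) = (b * w.2⁻¹) • w + (a - (b * w.2⁻¹) • w.1, 0) := by
        ext
        · simp
        · simp [hw2]
      rw [h7]
      exact U.add_mem (U.smul_mem _ hw) (h5 _)
    · right; right; right
      push Not at h6
      intro w
      refine ⟨h6 w, fun hw => ?_⟩
      have := h5 w.1
      rwa [← hw] at this
  · push Not at h1
    by_cases h6 : ∃ w ∈ U, w ≠ 0
    · right; right; left
      obtain ⟨w, hw, hw0⟩ := h6
      have hw1 := h1 w hw
      have hw2 : w.2 ≠ 0 := by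
        intro h
        apply hw0
        ext
        · exact hw1
        · exact h
      intro v
      refine ⟨h1 v, fun hv => ?_⟩
      have h7 : v = (v.2 * w.2⁻¹) • w := by
        ext
        · simp [hv, hw1]
        · simp [hw2]
      rw [h7]
      exact U.smul_mem _ hw
    · left
      push Not at h6
      rw [eq_bot_iff]
      intro w hw
      exact (Submodule.mem_bot F).2 (h6 w hw)

end Pool.Agent.SLN
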