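import Pool.Agent.SLN.Defs
import Pool.Agent.SLN.TwoT

/-!
# SLN / Red: subgroups of `SL_n(F)` fixing a point of the projective space (helper26)
-/

set_option autoImplicit false

namespace Pool.Agent.SLN

open Matrix

/-- the lower unitriangular matrix with first column `(1, y)` -/
private def lowM {m : ℕ} {F : Type} [Field F] (y : Fin m → F) : Matrix (Fin (m + 1)) (Fin (m + 1)) F :=
  fun i j => if j = 0 then (Fin.cons 1 y : Fin (m + 1) → F) i else if i = j then 1 else 0

private theorem lowM_det {m : ℕ} {F : Type} [Field F] (y : Fin m → F) : (lowM y).det = 1 := by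
  rw [Matrix.det_of_isLowerTriangular]
  · apply Finset.prod_eq_one
    intro i _
    unfold lowM
    by_cases hi : i = 0
    · rw [hi, if_pos rfl, Fin.cons_zero]
    · rw [if_neg hi, if_pos rfl]
  · intro i j hij
    have hij' : i < j := hij
    unfold lowM
    have hj : j ≠ 0 := Fin.ne_zero_of_lt hij'
    rw [if_neg hj, if_neg (ne_of_lt hij')]

private theorem red_main {m : ℕ} (hm : 2 ≤ m) {F : Type} [Field F] [Finite F]
    (g : SLn (m + 1) F) : ∃ x y : SLn (m + 1) F,
      (∀ a : Projectivization F (Fin (m + 1) → F), x • a ≠ a) ∧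
      (∀ a : Projectivization F (Fin (m + 1) → F), y • a ≠ a) ∧ x * y = g := by
  classical
  set Ω := Projectivization F (Fin (m + 1) → F) with hΩ
  have hfin : Finite Ω := inferInstance
  have hfinG : Finite (SLn (m + 1) F) := Subtype.finite
  have h2 : ∀ a b c d : Ω, a ≠ b → c ≠ d → ∃ g : SLn (m + 1) F, g • a = c ∧ g • b = d := by
    intro a b c d hab hcd
    exact (MulAction.is_two_pretransitive_iff (G := SLn (m + 1) F) (α := Ω)).1 inferInstance hab hcd
  have hq : 2 ≤ Nat.card F := Finite.one_lt_card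
  have hcard : Nat.card Ω = ∑ i ∈ Finset.range (m + 1), Nat.card F ^ i :=
    Projectivization.card_of_finrank F (Fin (m + 1) → F) (by simp)
  have hlt : Nat.card Ω - 1 < 2 * Nat.card F ^ m := by
    have h1 : ∑ i ∈ Finset.range m, Nat.card F ^ i < Nat.card F ^ m :=
      Nat.geomSum_lt hq (fun k hk => Finset.mem_range.1 hk)
    rw [hcard, Finset.sum_range_succ]
    omega
  have hn : 3 ≤ Nat.card Ω := by
    rw [hcard, Finset.sum_range_succ]
    obtain ⟨l, rfl⟩ : ∃ l, m = l + 1 := ⟨m - 1, by omega⟩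
    rw [Finset.sum_range_succ]
    have h1 : 1 ≤ Nat.card F ^ l := Nat.one_le_pow _ _ (by omega)
    have h3 : 2 ≤ Nat.card F ^ (l + 1) := by
      rw [pow_succ]
      nlinarith
    omega
  -- the three points
  have i1 : (1 : ℕ) < m + 1 := by omega
  have i2 : (2 : ℕ) < m + 1 := by omega
  let e : Fin (m + 1) → (Fin (m + 1) → F) := fun i => Pi.single i 1
  have he : ∀ i, e i ≠ 0 := by
    intro i h
    have := congrFun h i
    simp [e] at this
  let P : Fin (m + 1) → Ω := fun i => Projectivization.mk F (e i) (he i)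
  have hPne : ∀ i j, i ≠ j → P i ≠ P j := by
    intro i j hij h
    rw [Projectivization.mk_eq_mk_iff'] at h
    obtain ⟨a, ha⟩ := h
    have := congrFun ha i
    simp [e, hij] at this
  let a1 : Fin (m + 1) := ⟨1, i1⟩
  let a2 : Fin (m + 1) := ⟨2, i2⟩
  have ha12 : a1 ≠ a2 := by simp [a1, a2, Fin.ext_iff]
  have ha1 : a1 ≠ 0 := by simp [a1, Fin.ext_iff]
  have ha2 : a2 ≠ 0 := by simp [a2, Fin.ext_iff]
  -- the orbit
  have hw : ∀ y : Fin m → F, (Fin.cons 1 y : Fin (m + 1) → F) ≠ 0 := by
    intro y h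
    have := congrFun h 0
    simp at this
  let Q : (Fin m → F) → Ω := fun y => Projectivization.mk F (Fin.cons 1 y : Fin (m + 1) → F) (hw y)
  have hQinj : Function.Injective Q := by
    intro y y' h
    have h' := (Projectivization.mk_eq_mk_iff' F _ _ (hw y) (hw y')).1 h
    obtain ⟨a, ha⟩ := h'
    have h0 := congrFun ha 0
    have ha1 : a = 1 := by simpa using h0
    rw [ha1, one_smul] at ha
    funext i
    have := congrFun ha i.succ
    simpa using this.symm
  let K : (Fin m → F) → SLn (m + 1) F := fun y => ⟨lowM y, lowM_det y⟩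
  have hKcol : ∀ y j, ((K y : SLn (m + 1) F) • e j : Fin (m + 1) → F) = (lowM y).col j := by
    intro y j
    change (lowM y) *ᵥ Pi.single j 1 = _
    exact Matrix.mulVec_single_one _ _
  have hKj : ∀ y j, j ≠ 0 → (K y) • P j = P j := by
    intro y j hj
    change (K y) • Projectivization.mk F (e j) (he j) = Projectivization.mk F (e j) (he j)
    rw [Projectivization.smul_mk, Projectivization.mk_eq_mk_iff']
    refine ⟨1, ?_⟩
    rw [one_smul, hKcol]
    funext i
    change (Pi.single j 1 : Fin (m + 1) → F) i = lowM y i j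
    unfold lowM
    rw [if_neg hj, Pi.single_apply]
  have hK0 : ∀ y, (K y) • P 0 = Q y := by
    intro y
    change (K y) • Projectivization.mk F (e 0) (he 0) = Projectivization.mk F _ (hw y)
    rw [Projectivization.smul_mk, Projectivization.mk_eq_mk_iff']
    refine ⟨1, ?_⟩
    rw [one_smul, hKcol]
    funext i
    change (Fin.cons 1 y : Fin (m + 1) → F) i = lowM y i 0
    unfold lowM
    rw [if_pos rfl]
  have horb : Nat.card F ^ m ≤ Nat.card {d : Ω // ∃ k : SLn (m + 1) F, k • P a1 = P a1 ∧
      k • P a2 = P a2 ∧ k • P 0 = d} := by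
    have h1 : Nat.card (Fin m → F) = Nat.card F ^ m := by rw [Nat.card_fun, Nat.card_fin]
    rw [← h1]
    exact Nat.card_le_card_of_injective
      (fun y => ⟨Q y, K y, hKj y a1 ha1, hKj y a2 ha2, hK0 y⟩)
      (fun y y' h => hQinj (congrArg Subtype.val h))
  exact (two_trans (G := SLn (m + 1) F) (Ω := Ω) h2 hn).2.1
    ⟨P a1, P a2, P 0, hPne _ _ ha12, by omega⟩ g

theorem red {n : ℕ} (hn : 3 ≤ n) {F : Type} [Field F] [Finite F] (K : Subgroup (SLn n F))
    (v : Fin n → F) (hv : v ≠ 0) (hK : ∀ k ∈ K, ∃ c : F, k.1 *ᵥ v = c • v) (g : SLn n F) :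
    ∃ x y : SLn n F, Dr K x ∧ Dr K y ∧ x * y = g := by
  obtain ⟨m, rfl⟩ : ∃ m, n = m + 1 := ⟨n - 1, by omega⟩
  obtain ⟨x, y, hx, hy, hxy⟩ := red_main (by omega : 2 ≤ m) g
  have key : ∀ x : SLn (m + 1) F, (∀ a : Projectivization F (Fin (m + 1) → F), x • a ≠ a) →
      Dr K x := by
    intro x hx h hh
    obtain ⟨c, hc⟩ := hK _ hh
    apply hx (h • Projectivization.mk F v hv)
    have h1 : (h⁻¹ * x * h) • Projectivization.mk F v hv = Projectivization.mk F v hv := by
      rw [Projectivization.smul_mk, Projectivization.mk_eq_mk_iff']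
      exact ⟨c, hc.symm⟩
    have h2 : x • h • Projectivization.mk F v hv =
        h • ((h⁻¹ * x * h) • Projectivization.mk F v hv) := by
      rw [← mul_smul, ← mul_smul]
      congr 1
      group
    rw [h2, h1]
  exact ⟨x, y, key x hx, key y hy, hxy⟩

end Pool.Agent.SLN
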