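import Pool.Agent.SLN.Red

/-!
# SLN / RedD: subgroups of `SL_n(F)` fixing a hyperplane (helper26)
-/

set_option autoImplicit false

namespace Pool.Agent.SLN

open Matrix

/-- inverse transpose -/
private def tau {n : ℕ} {F : Type} [Field F] (k : SLn n F) : SLn n F := (k⁻¹).transpose

private theorem tau_coe {n : ℕ} {F : Type} [Field F] (k : SLn n F) :
    (tau k).1 = ((k⁻¹ : SLn n F) : Matrix (Fin n) (Fin n) F)ᵀ := rfl

private theorem tau_mul {n : ℕ} {F : Type} [Field F] (a b : SLn n F) :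
    tau (a * b) = tau a * tau b := by
  apply Subtype.ext
  rw [Matrix.SpecialLinearGroup.coe_mul, tau_coe, _root_.mul_inv_rev, Matrix.SpecialLinearGroup.coe_mul,
    transpose_mul]
  rfl

private theorem tau_one {n : ℕ} {F : Type} [Field F] : tau (1 : SLn n F) = 1 := by
  apply Subtype.ext
  rw [tau_coe, inv_one, Matrix.SpecialLinearGroup.coe_one, transpose_one]

private theorem tau_inv {n : ℕ} {F : Type} [Field F] (a : SLn n F) : tau a⁻¹ = (tau a)⁻¹ := by
  apply eq_inv_of_mul_eq_one_left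
  rw [← tau_mul, inv_mul_cancel, tau_one]

private theorem tau_tau {n : ℕ} {F : Type} [Field F] (a : SLn n F) : tau (tau a) = a := by
  apply Subtype.ext
  rw [tau_coe, ← tau_inv, tau_coe, inv_inv, transpose_transpose]

theorem redD {n : ℕ} (hn : 3 ≤ n) {F : Type} [Field F] [Finite F] (K : Subgroup (SLn n F))
    (φ : Fin n → F) (hφ : φ ≠ 0) (hK : ∀ k ∈ K, ∃ c : F, φ ᵥ* k.1 = c • φ) (g : SLn n F) :
    ∃ x y : SLn n F, Dr K x ∧ Dr K y ∧ x * y = g := by
  let T : SLn n F →* SLn n F := { toFun := tau, map_one' := tau_one, map_mul' := tau_mul }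
  obtain ⟨x, y, hx, hy, hxy⟩ := red hn (K.map T) φ hφ (by
    rintro _ ⟨k, hk, rfl⟩
    obtain ⟨c, hc⟩ := hK k⁻¹ (K.inv_mem hk)
    refine ⟨c, ?_⟩
    change (((k⁻¹ : SLn n F) : Matrix (Fin n) (Fin n) F)ᵀ) *ᵥ φ = c • φ
    rw [mulVec_transpose]
    exact hc) (tau g)
  have key : ∀ x : SLn n F, Dr (K.map T) x → Dr K (tau x) := by
    intro x hx h hh
    apply hx (tau h)
    refine ⟨h⁻¹ * tau x * h, hh, ?_⟩
    change tau (h⁻¹ * tau x * h) = _
    rw [tau_mul, tau_mul, tau_tau, tau_inv]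
  refine ⟨tau x, tau y, key x hx, key y hy, ?_⟩
  rw [← tau_mul, hxy, tau_tau]

end Pool.Agent.SLN
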