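import Pool.Agent.SLN.Fld
import Pool.Agent.SLN.Geo1
import Pool.Agent.SLN.Geo1D
import Pool.Agent.SLN.Geo2a
import Pool.Agent.SLN.Geo2b
import Pool.Agent.SLN.Red
import Pool.Agent.SLN.RedD
import Pool.Agent.SLN.Fac
import Pool.Agent.SLN.Inv
import Pool.Agent.PSL3.GenN

/-! Assembly: for n >= 4 and q - 1 not dividing n, every nonscalar element of SL_n(q) is a product
of two elements without conjugates in a given proper subgroup. -/

set_option autoImplicit false

namespace Pool.Agent.SLN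

open Matrix

theorem toLin'_apply' {n : ℕ} {F : Type*} [Field F] (x : SLn n F) (v : Fin n → F) :
    Matrix.SpecialLinearGroup.toLin' x v = x.1 *ᵥ v := by
  rw [Matrix.SpecialLinearGroup.toLin'_apply, Matrix.toLin'_apply]

theorem IsT.conj {n : ℕ} {F L : Type*} [Field F] [Field L] [Algebra F L] {s : L} {x : SLn n F}
    (h : SLn n F) (hx : IsT s (h⁻¹ * x * h)) : IsT s x := by
  obtain ⟨Ψ, hΨ⟩ := hx
  refine ⟨(Matrix.SpecialLinearGroup.toLin' h⁻¹).trans Ψ, fun v => ?_⟩
  have h1 := hΨ (h⁻¹.1 *ᵥ v)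
  have h2 : (h⁻¹ * x * h).1 *ᵥ (h⁻¹.1 *ᵥ v) = h⁻¹.1 *ᵥ (x.1 *ᵥ v) := by
    rw [Matrix.mulVec_mulVec, Matrix.mulVec_mulVec, ← Matrix.SpecialLinearGroup.coe_mul,
      ← Matrix.SpecialLinearGroup.coe_mul]
    congr 2
    group
  rw [h2] at h1
  simp only [LinearEquiv.trans_apply, toLin'_apply']
  exact h1

/-- transport of structure -/
def tr {n : ℕ} {F L : Type*} [Field F] [Field L] [Algebra F L]
    (Ψ : (Fin n → F) ≃ₗ[F] (L × F)) : SLn n F →* ((L × F) ≃ₗ[F] (L × F)) where
  toFun k := (Ψ.symm.trans (Matrix.SpecialLinearGroup.toLin' k)).trans Ψ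
  map_one' := by
    ext v
    all_goals simp
  map_mul' a b := by
    refine LinearEquiv.ext fun v => ?_
    have h1 : ∀ (f g : (L × F) ≃ₗ[F] (L × F)) (v : L × F), (f * g) v = f (g v) :=
      fun f g v => rfl
    rw [h1]
    simp only [LinearEquiv.trans_apply, toLin'_apply', LinearEquiv.symm_apply_apply]
    rw [Matrix.mulVec_mulVec]
    rfl

theorem tr_apply {n : ℕ} {F L : Type*} [Field F] [Field L] [Algebra F L]
    (Ψ : (Fin n → F) ≃ₗ[F] (L × F)) (k : SLn n F) (v : Fin n → F) :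
    tr Ψ k (Ψ v) = Ψ (k.1 *ᵥ v) := by
  simp [tr, toLin'_apply']

theorem main {n : ℕ} (hn : 4 ≤ n) {F : Type} [Field F] [Finite F]
    (hq : ¬ (Nat.card F - 1 ∣ n)) (K : Subgroup (SLn n F)) (hK : K ≠ ⊤) (g : SLn n F)
    (hg : ¬ Sc g) : ∃ x y, Dr K x ∧ Dr K y ∧ x * y = g := by
  obtain ⟨m, rfl⟩ : ∃ m, n = m + 1 := ⟨n - 1, by omega⟩
  obtain ⟨L, _, _, _, s, hfin, hs0, hadj, hgen, ⟨N, hN, hne⟩, hE⟩ := fld F m (by omega) hq
  have hμ : Algebra.norm F s ≠ 0 := by
    have : FiniteDimensional F L := Module.Finite.of_finite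
    exact Algebra.norm_ne_zero_iff.2 hs0
  set μ := Algebra.norm F s with hμd
  by_cases hT : ∃ t ∈ K, IsT s t
  · obtain ⟨t, htK, Ψ, hΨ⟩ := hT
    set K' : Subgroup ((L × F) ≃ₗ[F] (L × F)) := K.map (tr Ψ) with hK'
    have htK' : tr Ψ t ∈ K' := Subgroup.mem_map_of_mem _ htK
    have ht : ∀ v, tr Ψ t v = (s * v.1, μ⁻¹ * v.2) := by
      intro v
      obtain ⟨v, rfl⟩ := Ψ.surjective v
      rw [tr_apply, hΨ]
    by_cases hirr : ∀ U : Submodule F (L × F), (∀ k ∈ K', ∀ v ∈ U, k v ∈ U) → U = ⊥ ∨ U = ⊤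
    · exfalso
      have hall : ∀ (φ : (L × F) →ₗ[F] F) (u : L × F), φ u = 0 →
          ∃ g ∈ K', ∀ v, g v = v + φ v • u := by
        by_cases hc1 : ∃ k ∈ K', (∀ w : L, (k (w, 0)).2 = 0) ∧ (k (0, 1)).1 ≠ 0
        · obtain ⟨k, hk, h1, h2⟩ := hc1
          have : FiniteDimensional F L := Module.Finite.of_finite
          exact geo1 μ hμ N s hN hne hE K' (tr Ψ t) htK' ht hirr k hk h1 h2
        by_cases hc2 : ∃ k ∈ K', (k (0, 1)).1 = 0 ∧ ∃ w : L, (k (w, 0)).2 ≠ 0
        · obtain ⟨k, hk, h1, h2⟩ := hc2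
          exact geo1d μ hμ N s hN hne hE K' (tr Ψ t) htK' ht hirr k hk h1 h2
        exfalso
        push Not at hc1 hc2
        have h1 : ∀ k ∈ K', (∀ w : L, (k (w, 0)).2 = 0) ↔ (k (0, 1)).1 = 0 :=
          fun k hk => ⟨hc1 k hk, hc2 k hk⟩
        by_cases h2 : ∃ k ∈ K', (k (0, 1)).2 = 0
        · obtain ⟨k₀, hk₀, hk₀e⟩ := h2
          exact geo2a (by omega) μ hμ N s hN hne hgen K' (tr Ψ t) htK' ht h1 k₀ hk₀ hk₀e
        · push Not at h2
          exact geo2b (by omega) μ hμ s hgen K' (tr Ψ t) htK' ht hirr h2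
      apply hK
      apply PSL3.genN
      intro φ u hφu
      let f : (Fin (m + 1) → F) →ₗ[F] F :=
        { toFun := fun v => φ ⬝ᵥ v
          map_add' := fun a b => dotProduct_add φ a b
          map_smul' := fun c a => dotProduct_smul c φ a }
      have hf : ∀ v, f v = φ ⬝ᵥ v := fun v => rfl
      obtain ⟨g', hg', h3⟩ := hall (f ∘ₗ (Ψ.symm : (L × F) →ₗ[F] (Fin (m + 1) → F))) (Ψ u) (by
        simp only [LinearMap.comp_apply, LinearEquiv.coe_coe, LinearEquiv.symm_apply_apply]
        exact hφu)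
      obtain ⟨k, hk, rfl⟩ := Subgroup.mem_map.1 hg'
      refine ⟨k, hk, ?_⟩
      apply Matrix.ext_of_mulVec_single
      intro i
      have h4 := h3 (Ψ (Pi.single i 1))
      rw [tr_apply] at h4
      simp only [LinearMap.comp_apply, LinearEquiv.coe_coe, LinearEquiv.symm_apply_apply] at h4
      rw [← map_smul, ← map_add] at h4
      have h5 := Ψ.injective h4
      rw [h5, hf, Matrix.add_mulVec, Matrix.one_mulVec, Matrix.vecMulVec_mulVec]
      congr 1
      ext j
      simp [mul_comm]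
    · push Not at hirr
      obtain ⟨U, hU, hb, htp⟩ := hirr
      have hUt : ∀ v ∈ U, ((s * v.1, μ⁻¹ * v.2) : L × F) ∈ U := by
        intro v hv
        rw [← ht]
        exact hU _ htK' v hv
      rcases inv_sub (by omega) μ s hgen U hUt with h | h | h | h
      · exact absurd h hb
      · exact absurd h htp
      · -- K fixes a point
        refine red (by omega) K (Ψ.symm (0, 1)) ?_ ?_ g
        · intro h0
          have := congrArg Ψ h0
          rw [LinearEquiv.apply_symm_apply, map_zero] at this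
          exact one_ne_zero (congrArg Prod.snd this)
        · intro k hk
          have h1 : tr Ψ k (0, 1) ∈ U := hU _ (Subgroup.mem_map_of_mem _ hk) _ ((h _).2 rfl)
          have h2 := (h _).1 h1
          refine ⟨(tr Ψ k (0, 1)).2, ?_⟩
          apply Ψ.injective
          rw [← tr_apply, LinearEquiv.apply_symm_apply, map_smul, LinearEquiv.apply_symm_apply]
          ext
          · simp [h2]
          · simp
      · -- K fixes a hyperplane
        have hΨ2 : ∀ v : Fin (m + 1) → F, (fun i => (Ψ (Pi.single i 1)).2) ⬝ᵥ v = (Ψ v).2 := by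
          intro v
          have h1 : v = ∑ i, v i • (Pi.single i 1 : Fin (m + 1) → F) := by
            ext j
            simp [Finset.sum_apply, Pi.single_apply]
          conv_rhs => rw [h1]
          rw [map_sum, Prod.snd_sum]
          simp only [map_smul, Prod.smul_snd, smul_eq_mul, dotProduct]
          exact Finset.sum_congr rfl fun i _ => mul_comm _ _
        refine redD (by omega) K (fun i => (Ψ (Pi.single i 1)).2) ?_ ?_ g
        · intro h0
          have h1 := hΨ2 (Ψ.symm (0, 1))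
          rw [h0, LinearEquiv.apply_symm_apply] at h1
          simp at h1
        · intro k hk
          have hker : ∀ v : Fin (m + 1) → F, (Ψ v).2 = 0 → (Ψ (k.1 *ᵥ v)).2 = 0 := by
            intro v hv
            have h1 : tr Ψ k (Ψ v) ∈ U := hU _ (Subgroup.mem_map_of_mem _ hk) _ ((h _).2 hv)
            rw [tr_apply] at h1
            exact (h _).1 h1
          set v1 := Ψ.symm (0, 1) with hv1
          have hv1' : (Ψ v1).2 = 1 := by rw [hv1, LinearEquiv.apply_symm_apply]
          refine ⟨(Ψ (k.1 *ᵥ v1)).2, ?_⟩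
          have h2 : ∀ v, (Ψ (k.1 *ᵥ v)).2 = (Ψ (k.1 *ᵥ v1)).2 * (Ψ v).2 := by
            intro v
            have h3 := hker (v - (Ψ v).2 • v1) (by
              rw [map_sub, map_smul, Prod.snd_sub, Prod.smul_snd, hv1']
              simp)
            rw [Matrix.mulVec_sub, Matrix.mulVec_smul, map_sub, map_smul, Prod.snd_sub,
              Prod.smul_snd, sub_eq_zero] at h3
            rw [h3, smul_eq_mul, mul_comm]
          ext i
          have h4 := h2 (Pi.single i 1)
          rw [← hΨ2, Matrix.dotProduct_mulVec] at h4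
          simpa using h4
  · push Not at hT
    obtain ⟨x, y, hx, hy, hxy⟩ := fac rfl (by omega) hfin s hadj g hg
    refine ⟨x, y, ?_, ?_, hxy⟩
    · intro h hmem
      refine hT _ hmem (IsT.conj h⁻¹ ?_)
      have : h⁻¹⁻¹ * (h⁻¹ * x * h) * h⁻¹ = x := by group
      rw [this]
      exact hx
    · intro h hmem
      refine hT _ hmem (IsT.conj h⁻¹ ?_)
      have : h⁻¹⁻¹ * (h⁻¹ * y * h) * h⁻¹ = y := by group
      rw [this]
      exact hy

end Pool.Agent.SLN
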