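import Pool.Agent.SLN.Defs
import Pool.Agent.Helper60.Psl.G

/-!
# SLN / FinN: from subgroups of `SL_n(F)` to transitive actions of `PSL_n(F)`
(helper38, after helper35 and helper60)
-/

set_option autoImplicit false

namespace Pool.Agent.SLN

open Matrix

private theorem mem_center_of_sc {n : ℕ} {F : Type*} [Field F] {x : SLn n F} (h : Sc x) :
    x ∈ Subgroup.center (SLn n F) := by
  obtain ⟨t, ht⟩ := h
  rw [Matrix.SpecialLinearGroup.mem_center_iff]
  refine ⟨t, ?_, ?_⟩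
  · have h1 : (x : Matrix (Fin n) (Fin n) F).det = 1 := x.2
    rw [ht, Matrix.det_smul, Matrix.det_one, mul_one] at h1
    exact h1
  · rw [ht, Matrix.scalar_apply, Matrix.smul_one_eq_diagonal]

private theorem sc_of_mem_center {n : ℕ} {F : Type*} [Field F] {x : SLn n F}
    (h : x ∈ Subgroup.center (SLn n F)) : Sc x := by
  rw [Matrix.SpecialLinearGroup.mem_center_iff] at h
  obtain ⟨t, -, ht⟩ := h
  refine ⟨t, ?_⟩
  rw [← ht, Matrix.scalar_apply, Matrix.smul_one_eq_diagonal]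

/-- module FinN (as PSL3.fin3) -/
theorem finN {n : ℕ} {F G W : Type} [Field F] [Finite F] [Group G]
    (e : G ≃* Matrix.ProjectiveSpecialLinearGroup (Fin n) F) [MulAction G W]
    [MulAction.IsPretransitive G W] [Nontrivial W]
    (hns : ∃ g : SLn n F, ¬ Sc g)
    (main : ∀ K : Subgroup (SLn n F), K ≠ ⊤ → ∀ g, ¬ Sc g → ∃ x y, Dr K x ∧ Dr K y ∧ x * y = g)
    (g : G) : ∃ x y : G, (∀ w : W, x • w ≠ w) ∧ (∀ w : W, y • w ≠ w) ∧ x * y = g := by
  obtain ⟨g₀, hg₀⟩ := hns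
  refine Pool.Agent.Helper60.Psl.fin_gen (S := SLn n F) e
    ⟨g₀, fun h => hg₀ (sc_of_mem_center h)⟩ ?_ g
  intro K hK _ g hg
  obtain ⟨x, y, hx, hy, hxy⟩ := main K hK g fun h => hg (mem_center_of_sc h)
  refine ⟨x, y, fun h => ?_, fun h => ?_, hxy⟩
  · have h1 := hx h⁻¹
    rwa [inv_inv] at h1
  · have h1 := hy h⁻¹
    rwa [inv_inv] at h1

end Pool.Agent.SLN
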