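import Mathlib

/-! # SLN / Px: a power of a cyclic endomorphism with a double eigenvalue `1` is a transvection

Let `f = (X - 1)² f₁`, `f₁` monic, `f₁(1) ≠ 0`, `f₁ ∣ X^k - 1`, `k ≠ 0` in `F`, and let `v₀` be a cyclic
vector of `x` with `f(x) v₀ = 0`. Then `X^k - 1 = (X - 1) f₁ h`, `h(1) ≠ 0`, and for every polynomial `p`
`(x^k - 1) p(x) v₀ = h(1) p(1) u` with `u = ((X - 1) f₁)(x) v₀ ≠ 0`, since `h p - h(1) p(1)` is a multiple
of `X - 1`. -/

set_option autoImplicit false

namespace Pool.Agent.SLN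

open Polynomial

/-- a cyclic vector generates -/
theorem px_span {F V : Type*} [Field F] [AddCommGroup V] [Module F V] [FiniteDimensional F V]
    (x : V →ₗ[F] V) (v₀ : V) (n : ℕ) (hV : Module.finrank F V = n)
    (hc : ∀ p : F[X], p.degree < (n : WithBot ℕ) → aeval x p v₀ = 0 → p = 0) (v : V) :
    ∃ p : F[X], p.degree < (n : WithBot ℕ) ∧ aeval x p v₀ = v := by
  let φ : F[X] →ₗ[F] V :=
    { toFun := fun p => aeval x p v₀
      map_add' := fun p p' => by rw [map_add, LinearMap.add_apply]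
      map_smul' := fun c p => by rw [map_smul, LinearMap.smul_apply, RingHom.id_apply] }
  let ψ : Polynomial.degreeLT F n →ₗ[F] V := φ.comp (Polynomial.degreeLT F n).subtype
  have hψ : Function.Injective ψ := by
    rw [injective_iff_map_eq_zero]
    intro p hp
    apply Subtype.ext
    exact hc p (Polynomial.mem_degreeLT.1 p.2) hp
  have hfr : Module.finrank F (Polynomial.degreeLT F n) = n := by
    rw [(Polynomial.degreeLTEquiv F n).finrank_eq, Module.finrank_fin_fun]
  have hsurj : Function.Surjective ψ := by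
    have : FiniteDimensional F (Polynomial.degreeLT F n) :=
      Module.Finite.equiv (Polynomial.degreeLTEquiv F n).symm
    exact (LinearMap.injective_iff_surjective_of_finrank_eq_finrank (by rw [hfr, hV])).1 hψ
  obtain ⟨p, hp⟩ := hsurj v
  exact ⟨p, Polynomial.mem_degreeLT.1 p.2, hp⟩

/-- the powers of a cyclic endomorphism with `f = (X - 1)² f₁` -/
theorem px {F V : Type*} [Field F] [AddCommGroup V] [Module F V] [FiniteDimensional F V]
    (x : V →ₗ[F] V) (v₀ : V) (f₁ : F[X]) (hm : f₁.Monic) (k : ℕ) (hk : (k : F) ≠ 0)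
    (hf₁ : f₁ ∣ X ^ k - 1) (h₁ : f₁.eval 1 ≠ 0) (hV : Module.finrank F V = f₁.natDegree + 2)
    (hf : aeval x ((X - 1) ^ 2 * f₁) v₀ = 0)
    (hc : ∀ p : F[X], p.degree < ((f₁.natDegree + 2 : ℕ) : WithBot ℕ) →
      aeval x p v₀ = 0 → p = 0) :
    ∃ (u : V) (ψ : V →ₗ[F] F), u ≠ 0 ∧ ψ ≠ 0 ∧ ψ u = 0 ∧ ∀ v, (x ^ k) v = v + ψ v • u := by
  have hX1 : (X - 1 : F[X]).Monic := by
    have := monic_X_sub_C (1 : F)
    rwa [map_one] at this
  have hfm : ((X - 1) ^ 2 * f₁ : F[X]).Monic := (hX1.pow 2).mul hm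
  have hdX : (X - 1 : F[X]).natDegree = 1 := by
    have := natDegree_X_sub_C (1 : F)
    rwa [map_one] at this
  have hfd : ((X - 1) ^ 2 * f₁ : F[X]).natDegree = f₁.natDegree + 2 := by
    rw [(hX1.pow 2).natDegree_mul hm, hX1.natDegree_pow, hdX]
    ring
  -- factorisation of `X^k - 1`
  obtain ⟨g, hg⟩ := hf₁
  have hev : (X ^ k - 1 : F[X]).eval 1 = 0 := by simp
  have hg1 : g.eval 1 = 0 := by
    rw [hg, eval_mul] at hev
    exact (mul_eq_zero.1 hev).resolve_left h₁
  obtain ⟨h, hh⟩ : (X - 1 : F[X]) ∣ g := by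
    have := dvd_iff_isRoot.2 (show g.IsRoot 1 from hg1)
    rwa [map_one] at this
  have hfac : (X ^ k - 1 : F[X]) = (X - 1) * f₁ * h := by
    rw [hg, hh]
    ring
  have hh1 : h.eval 1 ≠ 0 := by
    intro h0
    have hd := congrArg (fun p : F[X] => (derivative p).eval 1) hfac
    simp only [derivative_sub, derivative_X_pow, derivative_one, derivative_mul, derivative_X,
      eval_sub, eval_mul, eval_add, eval_pow, eval_X, eval_one, one_pow, sub_self,
      sub_zero, mul_one, zero_mul, mul_zero, add_zero, h0, eval_C, one_mul] at hd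
    exact hk hd
  -- the kernel
  have hker : ∀ p : F[X], aeval x p v₀ = 0 → (X - 1) ^ 2 * f₁ ∣ p := by
    intro p hp
    rw [← modByMonic_eq_zero_iff_dvd hfm]
    apply hc
    · have := degree_modByMonic_lt p hfm
      rwa [degree_eq_natDegree hfm.ne_zero, hfd] at this
    · have h5 := modByMonic_add_div p ((X - 1) ^ 2 * f₁ : F[X])
      have h6 : aeval x p v₀ = aeval x (p %ₘ ((X - 1) ^ 2 * f₁)) v₀ := by
        conv_lhs => rw [← h5]
        rw [map_add, LinearMap.add_apply, mul_comm ((X - 1) ^ 2 * f₁ : F[X]) (p /ₘ _), map_mul,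
          Module.End.mul_apply, hf, map_zero, add_zero]
      rw [← h6]
      exact hp
  have hmul : ∀ q : F[X], (X - 1) ^ 2 * f₁ ∣ q → aeval x q v₀ = 0 := by
    rintro q ⟨r, rfl⟩
    rw [mul_comm, map_mul, Module.End.mul_apply, hf, map_zero]
  set u : V := aeval x ((X - 1) * f₁) v₀ with hu
  have hu0 : u ≠ 0 := by
    intro h0
    have h7 := hker _ h0
    have h8 := natDegree_le_of_dvd h7 (hX1.mul hm).ne_zero
    rw [hfd, hX1.natDegree_mul hm, hdX] at h8
    omega
  -- the key formula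
  have key : ∀ p : F[X], (x ^ k) (aeval x p v₀) = aeval x p v₀ + (h.eval 1 * p.eval 1) • u := by
    intro p
    have h9 : (X ^ k - 1 : F[X]) * p - C (h.eval 1 * p.eval 1) * ((X - 1) * f₁) =
        (X - 1) * f₁ * (h * p - C (h.eval 1 * p.eval 1)) := by
      rw [hfac]
      ring
    have h10 : (X - 1 : F[X]) ∣ h * p - C (h.eval 1 * p.eval 1) := by
      have : (h * p - C (h.eval 1 * p.eval 1)).IsRoot 1 := by
        rw [IsRoot.def, eval_sub, eval_mul, eval_C, sub_self]
      have := dvd_iff_isRoot.2 this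
      rwa [map_one] at this
    have h11 : (X - 1) ^ 2 * f₁ ∣ (X ^ k - 1 : F[X]) * p - C (h.eval 1 * p.eval 1) * ((X - 1) * f₁) := by
      rw [h9]
      obtain ⟨r, hr⟩ := h10
      rw [hr]
      exact ⟨r, by ring⟩
    have h12 := hmul _ h11
    rw [map_sub, LinearMap.sub_apply, sub_eq_zero, map_mul, Module.End.mul_apply, map_sub,
      map_pow, aeval_X, map_one, LinearMap.sub_apply, Module.End.one_apply, map_mul, aeval_C,
      Module.End.mul_apply, ← hu, sub_eq_iff_eq_add] at h12
    rw [h12, add_comm]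
    rfl
  -- the functional
  let φ : F[X] →ₗ[F] V :=
    { toFun := fun p => aeval x p v₀
      map_add' := fun p p' => by rw [map_add, LinearMap.add_apply]
      map_smul' := fun c p => by rw [map_smul, LinearMap.smul_apply, RingHom.id_apply] }
  have hφ : ∀ p, φ p = aeval x p v₀ := fun p => rfl
  have hφs : LinearMap.range φ = ⊤ := by
    rw [LinearMap.range_eq_top]
    intro v
    obtain ⟨p, _, hp⟩ := px_span x v₀ _ hV hc v
    exact ⟨p, hp⟩
  obtain ⟨s, hs⟩ := φ.exists_rightInverse_of_surjective hφs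
  have hs' : ∀ v, aeval x (s v) v₀ = v := fun v => LinearMap.congr_fun hs v
  let e : F[X] →ₗ[F] F := (h.eval 1) • (Polynomial.leval 1)
  have he : ∀ p, e p = h.eval 1 * p.eval 1 := fun p => rfl
  have hψp : ∀ p : F[X], (e.comp s) (aeval x p v₀) = h.eval 1 * p.eval 1 := by
    intro p
    have h13 : aeval x (s (aeval x p v₀) - p) v₀ = 0 := by
      rw [map_sub, LinearMap.sub_apply, hs', sub_self]
    obtain ⟨r, hr⟩ := hker _ h13
    have h14 := congrArg (fun p : F[X] => p.eval 1) hr
    simp only [eval_sub, eval_mul, eval_pow, eval_X, eval_one, sub_self] at h14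
    rw [LinearMap.comp_apply, he]
    have h15 : (s (aeval x p v₀)).eval 1 = p.eval 1 := by
      rw [← sub_eq_zero, h14]
      ring
    rw [h15]
  refine ⟨u, e.comp s, hu0, ?_, ?_, ?_⟩
  · intro h0
    have h16 := hψp 1
    rw [h0, LinearMap.zero_apply, eval_one, mul_one] at h16
    exact hh1 h16.symm
  · rw [hu, hψp, eval_mul, eval_sub, eval_X, eval_one, sub_self, zero_mul, mul_zero]
  · intro v
    have h17 := key (s v)
    rw [hs'] at h17
    rw [h17, ← hψp (s v), hs']

end Pool.Agent.SLN
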