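import Mathlib

/-! Products of two derangements in `PSL_n(q)`, `q ≥ n + 4`: common definitions (helper67). -/

set_option autoImplicit false

namespace Pool.Agent.SLN

/-- `SL_n(F)` -/
abbrev SLn (n : ℕ) (F : Type*) [CommRing F] := Matrix.SpecialLinearGroup (Fin n) F

/-- scalar elements -/
def Sc {n : ℕ} {F : Type*} [Field F] (x : SLn n F) : Prop :=
  ∃ t : F, (x : Matrix (Fin n) (Fin n) F) = t • (1 : Matrix (Fin n) (Fin n) F)

/-- no conjugate of `x` lies in `K` -/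
def Dr {n : ℕ} {F : Type*} [Field F] (K : Subgroup (SLn n F)) (x : SLn n F) : Prop :=
  ∀ h : SLn n F, h⁻¹ * x * h ∉ K

/-- `x` is conjugate to diag(s, N(s)⁻¹) acting on `L × F` -/
def IsT {n : ℕ} {F L : Type*} [Field F] [Field L] [Algebra F L] (s : L) (x : SLn n F) : Prop :=
  ∃ Ψ : (Fin n → F) ≃ₗ[F] (L × F), ∀ v, Ψ (x.1.mulVec v) =
    (s * (Ψ v).1, (Algebra.norm F s)⁻¹ * (Ψ v).2)

end Pool.Agent.SLN
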