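import Pool.Agent.SLN.Defs

/-! Products of two elements of type `(s, N(s)⁻¹)`: linear algebra, first part (helper60). -/

set_option autoImplicit false

namespace Pool.Agent.SLN

open Polynomial

/-- a nonscalar endomorphism moves some hyperplane -/
lemma fac_phi {F V : Type*} [Field F] [AddCommGroup V] [Module F V] (A : V →ₗ[F] V)
    (hA : ∀ a : F, A ≠ a • (1 : V →ₗ[F] V)) :
    ∃ (φ : V →ₗ[F] F) (v : V), φ v = 0 ∧ φ (A v) ≠ 0 := by
  by_contra hcon
  push Not at hcon
  have h1 : ∀ v : V, A v ∈ Submodule.span F ({v} : Set V) := by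
    intro v
    by_contra hv
    obtain ⟨f, hf, hle⟩ := Submodule.exists_le_ker_of_notMem hv
    have hfv : f v = 0 := hle (Submodule.mem_span_singleton_self v)
    exact hf (hcon f v hfv)
  have h2 : ∀ v, ¬ LinearIndependent F ![v, A v] := by
    intro v hli
    obtain ⟨a, ha⟩ := Submodule.mem_span_singleton.1 (h1 v)
    have := LinearIndependent.pair_iff.1 hli (-a) 1 (by rw [← ha]; simp)
    exact one_ne_zero this.2
  obtain ⟨a, ha⟩ := LinearMap.exists_eq_smul_id_of_forall_notLinearIndependent h2
  exact hA a ha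

/-- a generator of an extension of degree at least two is not in the base field -/
lemma fac_ns {F E : Type*} [Field F] [Field E] [Algebra F E] (θ : E)
    (hθ : Algebra.adjoin F {θ} = ⊤) (h2 : 2 ≤ Module.finrank F E) (a : F) :
    θ ≠ algebraMap F E a := by
  intro h
  have h3 : Algebra.adjoin F {θ} ≤ ⊥ := by
    apply Algebra.adjoin_singleton_le
    rw [h]
    exact Algebra.mem_bot.2 ⟨a, rfl⟩
  rw [hθ] at h3
  have h4 : (⊥ : Subalgebra F E) = ⊤ := le_antisymm bot_le h3
  have h5 := Subalgebra.bot_eq_top_iff_finrank_eq_one.1 h4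
  omega

/-- no proper nonzero subspace is invariant -/
lemma fac_inv {F E : Type*} [Field F] [Field E] [Algebra F E] [FiniteDimensional F E] (θ ζ : E)
    (hθ : Algebra.adjoin F {θ} = ⊤) (hζ : ζ = θ ∨ ζ = θ - 1) (W : Submodule F E)
    (hW : ∀ w ∈ W, ζ⁻¹ * w ∈ W) (w0 : E) (hw0 : w0 ∈ W) (h0 : w0 ≠ 0) : W = ⊤ := by
  let S : Subalgebra F E :=
    { carrier := {z | ∀ w ∈ W, z * w ∈ W}
      mul_mem' := by
        intro a b ha hb w hw
        rw [mul_assoc]
        exact ha _ (hb w hw)
      add_mem' := by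
        intro a b ha hb w hw
        rw [add_mul]
        exact W.add_mem (ha w hw) (hb w hw)
      algebraMap_mem' := by
        intro r w hw
        rw [← Algebra.smul_def]
        exact W.smul_mem r hw }
  have hS1 : ζ⁻¹ ∈ S := hW
  have hS2 : ζ ∈ S := by
    have := S.inv_mem_of_algebraic (x := ⟨ζ⁻¹, hS1⟩) (Algebra.IsAlgebraic.isAlgebraic _)
    simpa using this
  have hS3 : θ ∈ S := by
    rcases hζ with h | h
    · rw [← h]; exact hS2
    · have : θ = ζ + 1 := by rw [h]; ring
      rw [this]
      exact S.add_mem hS2 S.one_mem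
  have hS4 : S = ⊤ := by
    apply top_le_iff.1
    rw [← hθ]
    exact Algebra.adjoin_singleton_le hS3
  rw [eq_top_iff]
  intro z _
  have hz : z * w0⁻¹ ∈ S := by rw [hS4]; exact Algebra.mem_top
  have := hz w0 hw0
  rwa [mul_assoc, inv_mul_cancel₀ h0, mul_one] at this

/-- cyclic endomorphisms with the same polynomial are conjugate -/
lemma fac_conj {F V V' : Type*} [Field F] [AddCommGroup V] [Module F V] [FiniteDimensional F V]
    [AddCommGroup V'] [Module F V'] [FiniteDimensional F V']
    (x : Module.End F V) (x' : Module.End F V') (v : V) (v' : V') (f : F[X]) (hf : f.Monic)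
    (n : ℕ) (hn : f.natDegree = n) (hV : Module.finrank F V = n) (hV' : Module.finrank F V' = n)
    (h0 : aeval x f v = 0) (h0' : aeval x' f v' = 0)
    (hc : ∀ p : F[X], p.degree < n → aeval x p v = 0 → p = 0)
    (hc' : ∀ p : F[X], p.degree < n → aeval x' p v' = 0 → p = 0) :
    ∃ ψ : V ≃ₗ[F] V', ∀ u, ψ (x u) = x' (ψ u) := by
  have hfin : Module.finrank F (degreeLT F n) = n := by
    rw [LinearEquiv.finrank_eq (degreeLTEquiv F n), Module.finrank_fin_fun]
  have : FiniteDimensional F (degreeLT F n) :=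
    Module.Finite.equiv (degreeLTEquiv F n).symm
  let π : degreeLT F n →ₗ[F] V :=
    { toFun := fun p => aeval x p.1 v
      map_add' := by intro p q; simp
      map_smul' := by intro r p; simp }
  let π' : degreeLT F n →ₗ[F] V' :=
    { toFun := fun p => aeval x' p.1 v'
      map_add' := by intro p q; simp
      map_smul' := by intro r p; simp }
  have hπ : Function.Injective π := by
    rw [injective_iff_map_eq_zero]
    intro p hp
    exact Subtype.ext (hc p.1 (mem_degreeLT.1 p.2) hp)
  have hπ' : Function.Injective π' := by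
    rw [injective_iff_map_eq_zero]
    intro p hp
    exact Subtype.ext (hc' p.1 (mem_degreeLT.1 p.2) hp)
  let e := LinearEquiv.ofInjectiveOfFinrankEq π hπ (hfin.trans hV.symm)
  let e' := LinearEquiv.ofInjectiveOfFinrankEq π' hπ' (hfin.trans hV'.symm)
  have he : ∀ p, e p = aeval x p.1 v := fun p => rfl
  have he' : ∀ p, e' p = aeval x' p.1 v' := fun p => rfl
  refine ⟨e.symm.trans e', fun u => ?_⟩
  obtain ⟨p, rfl⟩ := e.surjective u
  have hdeg : (X * p.1 %ₘ f).degree < n := by
    have h1 := degree_modByMonic_lt (X * p.1) hf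
    rw [degree_eq_natDegree hf.ne_zero, hn] at h1
    exact h1
  have hmod : X * p.1 = (X * p.1 %ₘ f) + f * (X * p.1 /ₘ f) := (modByMonic_add_div _ f).symm
  let r : degreeLT F n := ⟨X * p.1 %ₘ f, mem_degreeLT.2 hdeg⟩
  have h1 : x (e p) = e r := by
    have h2 : x (e p) = aeval x (X * p.1) v := by
      rw [he, map_mul, aeval_X]; rfl
    rw [h2, hmod, map_add, mul_comm f, map_mul, LinearMap.add_apply, Module.End.mul_apply, h0,
      map_zero, add_zero]
    rfl
  have h1' : x' (e' p) = e' r := by
    have h2 : x' (e' p) = aeval x' (X * p.1) v' := by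
      rw [he', map_mul, aeval_X]; rfl
    rw [h2, hmod, map_add, mul_comm f, map_mul, LinearMap.add_apply, Module.End.mul_apply, h0',
      map_zero, add_zero]
    rfl
  rw [h1]
  simp [h1']

end Pool.Agent.SLN
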