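import Pool.Agent.SLN.FacA

/-! Products of two elements of type `(s, N(s)⁻¹)`: adapted bases (helper60). -/

set_option autoImplicit false

namespace Pool.Agent.SLN

open Module

/-- the state: `h 0, …, h (k-1)` is a basis of `U`, `I` is injective on `U`, and for `j + 1 < k`
`A (h j) ∈ U` with `I (A (h j)) = θ I (h (j+1))` -/
structure FacSt {F E V : Type*} [Field F] [Field E] [Algebra F E] [AddCommGroup V] [Module F V]
    (A : V →ₗ[F] V) (θ : E) (k : ℕ) (U : Submodule F V) (I : V →ₗ[F] E) (h : ℕ → V) : Prop where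
  inj : ∀ u ∈ U, I u = 0 → u = 0
  mem : ∀ j < k, h j ∈ U
  span : ∀ u ∈ U, ∃ a : ℕ → F, u = ∑ j ∈ Finset.range k, a j • h j
  ind : ∀ a : ℕ → F, ∑ j ∈ Finset.range k, a j • h j = 0 → ∀ j < k, a j = 0
  stepU : ∀ j, j + 1 < k → A (h j) ∈ U
  stepI : ∀ j, j + 1 < k → I (A (h j)) = θ * I (h (j + 1))

/-- extension of a state by one vector -/
lemma fac_ext {F E V : Type*} [Field F] [Field E] [Algebra F E] [AddCommGroup V] [Module F V]
    (A : V →ₗ[F] V) (θ : E) (k : ℕ) (U : Submodule F V) (ξ : V →ₗ[F] F) (I : V →ₗ[F] E)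
    (h : ℕ → V) (hst : FacSt A θ k (U ⊓ LinearMap.ker ξ) I h)
    (hAU : ∀ u ∈ U, ξ u = 0 → A u ∈ U) (hs : V) (hsU : hs ∈ U) (hξ : ξ hs ≠ 0) (ηs : E)
    (hη : ∀ u ∈ U, ξ u = 0 → I u ≠ ηs)
    (hcomp : ∀ j, j + 1 = k → ∃ (a : F) (v : V), v ∈ U ∧ ξ v = 0 ∧ A (h j) = a • hs + v ∧
      θ * ηs = a • ηs + I v) :
    ∃ (I' : V →ₗ[F] E) (h' : ℕ → V), FacSt A θ (k + 1) U I' h' := by
  have hm : ∀ u, u ∈ U ⊓ LinearMap.ker ξ ↔ u ∈ U ∧ ξ u = 0 := by
    intro u
    rw [Submodule.mem_inf, LinearMap.mem_ker]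
  let I' : V →ₗ[F] E := I + (LinearMap.toSpanSingleton F E ((ξ hs)⁻¹ • (ηs - I hs))).comp ξ
  have hI' : ∀ u, I' u = I u + ξ u • ((ξ hs)⁻¹ • (ηs - I hs)) := by
    intro u
    simp [I']
  have hI0 : ∀ u, ξ u = 0 → I' u = I u := by
    intro u hu
    rw [hI', hu, zero_smul, add_zero]
  have hIs : I' hs = ηs := by
    rw [hI', smul_smul, mul_inv_cancel₀ hξ, one_smul]
    abel
  let h' : ℕ → V := Function.update h k hs
  have hh1 : ∀ j, j < k → h' j = h j := by
    intro j hj
    exact Function.update_of_ne (ne_of_lt hj) _ _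
  have hh2 : h' k = hs := Function.update_self _ _ _
  have hU1 : ∀ j, j < k → h j ∈ U ∧ ξ (h j) = 0 := fun j hj => (hm _).1 (hst.mem j hj)
  have hsplit : ∀ u ∈ U, ∃ (a : F) (w : V), w ∈ U ∧ ξ w = 0 ∧ u = w + a • hs := by
    intro u hu
    refine ⟨ξ u * (ξ hs)⁻¹, u - (ξ u * (ξ hs)⁻¹) • hs, U.sub_mem hu (U.smul_mem _ hsU), ?_, ?_⟩
    · rw [map_sub, map_smul, smul_eq_mul, mul_assoc, inv_mul_cancel₀ hξ, mul_one, sub_self]
    · abel
  have hsum : ∀ a : ℕ → F, ∑ j ∈ Finset.range k, a j • h' j =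
      ∑ j ∈ Finset.range k, a j • h j := by
    intro a
    apply Finset.sum_congr rfl
    intro j hj
    rw [hh1 j (Finset.mem_range.1 hj)]
  refine ⟨I', h', ?_, ?_, ?_, ?_, ?_, ?_⟩
  · intro u hu hIu
    obtain ⟨a, w, hwU, hw0, rfl⟩ := hsplit u hu
    by_cases ha : a = 0
    · subst ha
      rw [zero_smul, add_zero] at hIu ⊢
      rw [hI0 w hw0] at hIu
      exact hst.inj w ((hm w).2 ⟨hwU, hw0⟩) hIu
    · exfalso
      rw [map_add, map_smul, hIs, hI0 w hw0] at hIu
      apply hη ((-a⁻¹) • w) (U.smul_mem _ hwU) (by rw [map_smul, hw0, smul_zero])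
      rw [map_smul]
      have h1 : I w = -(a • ηs) := eq_neg_of_add_eq_zero_left hIu
      rw [h1, smul_neg, neg_smul, neg_neg, smul_smul, inv_mul_cancel₀ ha, one_smul]
  · intro j hj
    rcases Nat.lt_succ_iff_lt_or_eq.1 hj with h1 | h1
    · rw [hh1 j h1]; exact (hU1 j h1).1
    · rw [h1, hh2]; exact hsU
  · intro u hu
    obtain ⟨a, w, hwU, hw0, rfl⟩ := hsplit u hu
    obtain ⟨c, hc⟩ := hst.span w ((hm w).2 ⟨hwU, hw0⟩)
    refine ⟨Function.update c k a, ?_⟩
    rw [Finset.sum_range_succ, hh2, Function.update_self, hc]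
    congr 1
    apply Finset.sum_congr rfl
    intro j hj
    have hjk := Finset.mem_range.1 hj
    rw [hh1 j hjk, Function.update_of_ne (ne_of_lt hjk)]
  · intro a ha
    rw [Finset.sum_range_succ, hh2, hsum] at ha
    have h1 : ξ (∑ j ∈ Finset.range k, a j • h j) = 0 := by
      rw [map_sum]
      apply Finset.sum_eq_zero
      intro j hj
      rw [map_smul, (hU1 j (Finset.mem_range.1 hj)).2, smul_zero]
    have h2 : a k = 0 := by
      have h3 := congrArg ξ ha
      rw [map_add, h1, zero_add, map_smul, map_zero, smul_eq_mul] at h3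
      exact (mul_eq_zero.1 h3).resolve_right hξ
    rw [h2, zero_smul, add_zero] at ha
    intro j hj
    rcases Nat.lt_succ_iff_lt_or_eq.1 hj with h3 | h3
    · exact hst.ind a ha j h3
    · rw [h3]; exact h2
  · intro j hj
    have hjk : j < k := by omega
    rw [hh1 j hjk]
    exact hAU _ (hU1 j hjk).1 (hU1 j hjk).2
  · intro j hj
    have hjk : j < k := by omega
    rw [hh1 j hjk]
    by_cases h1 : j + 1 < k
    · have h2 := (hm _).1 (hst.stepU j h1)
      rw [hI0 _ h2.2, hst.stepI j h1, hh1 _ h1, hI0 _ (hU1 _ h1).2]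
    · have h2 : j + 1 = k := by omega
      obtain ⟨a, v, hvU, hv0, h3, h4⟩ := hcomp j h2
      rw [h3, map_add, map_smul, hIs, hI0 v hv0, h2, hh2, hIs, h4]

/-- the adapted basis of a subspace -/
lemma fac_build {F E V : Type*} [Field F] [Field E] [Algebra F E] [FiniteDimensional F E]
    [AddCommGroup V] [Module F V] [FiniteDimensional F V] (A : V →ₗ[F] V)
    (hA : Function.Injective A) (θ : E) (hθ : Algebra.adjoin F {θ} = ⊤) :
    ∀ k : ℕ, k ≤ finrank F E → ∀ U : Submodule F V, finrank F U = k →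
      (∃ (U' : Submodule F V) (ξ : V →ₗ[F] F), (∀ u, u ∈ U' → ξ u = 0 → u ∈ U) ∧
        ∀ u ∈ U, A u ∈ U') →
      ∃ (I : V →ₗ[F] E) (h : ℕ → V), FacSt A θ k U I h := by
  intro k
  induction k with
  | zero =>
    intro _ U hU _
    have hU0 : U = ⊥ := Submodule.finrank_eq_zero.1 hU
    refine ⟨0, fun _ => 0, ?_, ?_, ?_, ?_, ?_, ?_⟩
    · intro u hu _
      rw [hU0] at hu
      exact (Submodule.mem_bot F).1 hu
    · intro j hj; omega
    · intro u hu
      rw [hU0] at hu
      exact ⟨fun _ => 0, by rw [(Submodule.mem_bot F).1 hu]; simp⟩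
    · intro a _ j hj; omega
    · intro j hj; omega
    · intro j hj; omega
  | succ k ih =>
    intro hk U hU hex
    obtain ⟨U', ξ', hU', hAU'⟩ := hex
    have hUne : U ≠ ⊥ := by
      intro h
      rw [h, finrank_bot] at hU
      omega
    -- the next functional
    obtain ⟨ξ, u₀, hu₀, hξu₀, hξA⟩ : ∃ (ξ : V →ₗ[F] F) (u₀ : V), u₀ ∈ U ∧ ξ u₀ ≠ 0 ∧
        ∀ u ∈ U, ξ u = 0 → A u ∈ U := by
      by_cases hAU : ∀ u ∈ U, A u ∈ U
      · obtain ⟨u₀, hu₀, hne⟩ := Submodule.exists_mem_ne_zero_of_ne_bot hUne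
        have h1 : u₀ ∉ (⊥ : Submodule F V) := fun h => hne ((Submodule.mem_bot F).1 h)
        obtain ⟨f, hf, -⟩ := Submodule.exists_le_ker_of_notMem h1
        exact ⟨f, u₀, hu₀, hf, fun u hu _ => hAU u hu⟩
      · push Not at hAU
        obtain ⟨u₀, hu₀, hne⟩ := hAU
        refine ⟨ξ'.comp A, u₀, hu₀, ?_, ?_⟩
        · intro h
          exact hne (hU' _ (hAU' u₀ hu₀) h)
        · intro u hu hu0
          exact hU' _ (hAU' u hu) hu0
    -- dimension of the kernel
    set U₁ : Submodule F V := U ⊓ LinearMap.ker ξ with hU₁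
    have hm : ∀ u, u ∈ U₁ ↔ u ∈ U ∧ ξ u = 0 := by
      intro u
      rw [hU₁, Submodule.mem_inf, LinearMap.mem_ker]
    have hdim : finrank F U₁ = k := by
      have h1 : U₁ ⊔ Submodule.span F {u₀} = U := by
        apply le_antisymm
        · apply sup_le inf_le_left
          rw [Submodule.span_singleton_le_iff_mem]
          exact hu₀
        · intro u hu
          rw [Submodule.mem_sup]
          refine ⟨u - (ξ u * (ξ u₀)⁻¹) • u₀, ?_, (ξ u * (ξ u₀)⁻¹) • u₀,
            Submodule.smul_mem _ _ (Submodule.mem_span_singleton_self u₀), by abel⟩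
          rw [hm]
          refine ⟨U.sub_mem hu (U.smul_mem _ hu₀), ?_⟩
          rw [map_sub, map_smul, smul_eq_mul, mul_assoc, inv_mul_cancel₀ hξu₀, mul_one, sub_self]
      have h2 : U₁ ⊓ Submodule.span F {u₀} = ⊥ := by
        rw [eq_bot_iff]
        intro u hu
        obtain ⟨hu1, hu2⟩ := Submodule.mem_inf.1 hu
        obtain ⟨c, rfl⟩ := Submodule.mem_span_singleton.1 hu2
        have h3 := ((hm _).1 hu1).2
        rw [map_smul, smul_eq_mul] at h3
        have h4 := (mul_eq_zero.1 h3).resolve_right hξu₀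
        rw [h4, zero_smul]
        exact Submodule.zero_mem _
      have h3 := Submodule.finrank_sup_add_finrank_inf_eq U₁ (Submodule.span F {u₀})
      rw [h1, h2, finrank_bot, hU, finrank_span_singleton] at h3
      · omega
      · intro h
        rw [h, map_zero] at hξu₀
        exact hξu₀ rfl
    obtain ⟨I, h, hst⟩ := ih (by omega) U₁ hdim ⟨U, ξ, fun u hu h0 => (hm u).2 ⟨hu, h0⟩,
      fun u hu => hξA u ((hm u).1 hu).1 ((hm u).1 hu).2⟩
    -- the image of the kernel
    set W : Submodule F E := U₁.map I with hW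
    have hWm : ∀ w ∈ W, ∃ u ∈ U₁, I u = w := fun w hw => hw
    have hWne : W ≠ ⊤ := by
      intro hWt
      have h1 : finrank F W ≤ finrank F U₁ := Submodule.finrank_map_le I U₁
      rw [hWt, finrank_top] at h1
      omega
    rcases Nat.eq_zero_or_pos k with hk0 | hkpos
    · -- k = 0
      subst hk0
      refine fac_ext A θ 0 U ξ I h hst hξA u₀ hu₀ hξu₀ 1 ?_ ?_
      · intro u hu h0 h1
        have hbot : U₁ = ⊥ := Submodule.finrank_eq_zero.1 hdim
        have h2 := (hm u).2 ⟨hu, h0⟩
        rw [hbot] at h2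
        rw [(Submodule.mem_bot F).1 h2, map_zero] at h1
        exact zero_ne_one h1
      · intro j hj; omega
    · obtain ⟨k', rfl⟩ : ∃ k', k = k' + 1 := ⟨k - 1, by omega⟩
      have hθns := fac_ns θ hθ (by omega : 2 ≤ finrank F E)
      have hθ0 : θ ≠ 0 := by
        have := hθns 0
        rwa [map_zero] at this
      have hθ1 : θ - 1 ≠ 0 := by
        intro h1
        apply hθns 1
        rw [map_one]
        exact sub_eq_zero.1 h1
      obtain ⟨w1, hw1U, hw1⟩ := Submodule.exists_mem_ne_zero_of_ne_bot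
        (show U₁ ≠ ⊥ by
          intro h1
          rw [h1, finrank_bot] at hdim
          omega)
      have hw0W : I w1 ∈ W := ⟨w1, hw1U, rfl⟩
      have hw0 : I w1 ≠ 0 := fun h1 => hw1 (hst.inj w1 hw1U h1)
      have hgU : h k' ∈ U₁ := hst.mem k' (by omega)
      have hAg : A (h k') ∈ U := hξA _ ((hm _).1 hgU).1 ((hm _).1 hgU).2
      by_cases hcase : ξ (A (h k')) = 0
      · -- the subspace is invariant
        have hAgU : A (h k') ∈ U₁ := (hm _).2 ⟨hAg, hcase⟩
        have hAh : ∀ j < k' + 1, A (h j) ∈ U₁ := by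
          intro j hj
          rcases Nat.lt_succ_iff_lt_or_eq.1 hj with h1 | h1
          · exact hst.stepU j (by omega)
          · rw [h1]; exact hAgU
        have hAmap : ∀ u ∈ U₁, A u ∈ U₁ := by
          intro u hu
          obtain ⟨a, ha⟩ := hst.span u hu
          rw [ha, map_sum]
          apply Submodule.sum_mem
          intro j hj
          rw [map_smul]
          exact Submodule.smul_mem _ _ (hAh j (Finset.mem_range.1 hj))
        have hsurj : ∀ u ∈ U₁, ∃ u2 ∈ U₁, A u2 = u := by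
          have h1 : Function.Injective (A.restrict hAmap) := by
            intro a b hab
            apply Subtype.ext
            apply hA
            have := congrArg Subtype.val hab
            simpa using this
          have h2 := LinearMap.injective_iff_surjective.1 h1
          intro u hu
          obtain ⟨u2, hu2⟩ := h2 ⟨u, hu⟩
          refine ⟨u2.1, u2.2, ?_⟩
          have := congrArg Subtype.val hu2
          simpa using this
        have hnot : θ⁻¹ * I (A (h k')) ∉ W := by
          intro hin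
          apply hWne
          apply fac_inv θ θ hθ (Or.inl rfl) W ?_ (I w1) hw0W hw0
          intro w hw
          obtain ⟨u, huU, rfl⟩ := hWm w hw
          obtain ⟨u2, hu2, rfl⟩ := hsurj u huU
          obtain ⟨a, ha⟩ := hst.span u2 hu2
          rw [ha, map_sum, map_sum, Finset.mul_sum]
          apply Submodule.sum_mem
          intro j hj
          rw [map_smul, map_smul, mul_smul_comm]
          apply Submodule.smul_mem
          rcases Nat.lt_succ_iff_lt_or_eq.1 (Finset.mem_range.1 hj) with h1 | h1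
          · rw [hst.stepI j (by omega), ← mul_assoc, inv_mul_cancel₀ hθ0, one_mul]
            exact ⟨h (j + 1), hst.mem (j + 1) (by omega), rfl⟩
          · rw [h1]; exact hin
        refine fac_ext A θ (k' + 1) U ξ I h hst hξA u₀ hu₀ hξu₀ (θ⁻¹ * I (A (h k'))) ?_ ?_
        · intro u hu h0 h1
          apply hnot
          rw [← h1]
          exact ⟨u, (hm u).2 ⟨hu, h0⟩, rfl⟩
        · intro j hj
          have hj' : j = k' := by omega
          subst hj'
          refine ⟨0, A (h j), hAg, hcase, by simp, ?_⟩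
          rw [zero_smul, zero_add, ← mul_assoc, mul_inv_cancel₀ hθ0, one_mul]
      · -- the subspace is not invariant
        obtain ⟨v, hvU, hv⟩ : ∃ v ∈ U₁, (θ - 1)⁻¹ * I v ∉ W := by
          by_contra hcon
          push Not at hcon
          apply hWne
          apply fac_inv θ (θ - 1) hθ (Or.inr rfl) W ?_ (I w1) hw0W hw0
          intro w hw
          obtain ⟨u, huU, rfl⟩ := hWm w hw
          exact hcon u huU
        obtain ⟨hvU', hv0⟩ := (hm v).1 hvU
        refine fac_ext A θ (k' + 1) U ξ I h hst hξA (A (h k') - v) (U.sub_mem hAg hvU') ?_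
          ((θ - 1)⁻¹ * I v) ?_ ?_
        · rw [map_sub, hv0, sub_zero]; exact hcase
        · intro u hu h0 h1
          apply hv
          rw [← h1]
          exact ⟨u, (hm u).2 ⟨hu, h0⟩, rfl⟩
        · intro j hj
          have hj' : j = k' := by omega
          subst hj'
          refine ⟨1, v, hvU', hv0, by rw [one_smul]; abel, ?_⟩
          have h1 : (θ - 1) * ((θ - 1)⁻¹ * I v) = I v := by
            rw [← mul_assoc, mul_inv_cancel₀ hθ1, one_mul]
          rw [one_smul]
          linear_combination h1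

end Pool.Agent.SLN
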