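import Pool.Agent.SLN.FacB

/-! Products of two elements of type `(s, N(s)⁻¹)`: the theorem for endomorphisms (helper60). -/

set_option autoImplicit false

namespace Pool.Agent.SLN

open Module Polynomial

/-- the model: multiplication by `θ` on `E` and by `c` on `F` -/
noncomputable def facT {F E : Type*} [Field F] [Field E] [Algebra F E] (θ : E) (c : F) :
    (E × F) →ₗ[F] (E × F) :=
  LinearMap.prodMap (LinearMap.mulLeft F θ) (c • (LinearMap.id : F →ₗ[F] F))

lemma facT_apply {F E : Type*} [Field F] [Field E] [Algebra F E] (θ : E) (c : F) (v : E × F) :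
    facT θ c v = (θ * v.1, c * v.2) := by
  obtain ⟨a, b⟩ := v
  simp [facT]

lemma facT_det {F E : Type*} [Field F] [Field E] [Algebra F E] [FiniteDimensional F E] (θ : E)
    (c : F) : LinearMap.det (facT θ c) = Algebra.norm F θ * c := by
  rw [facT, LinearMap.det_prodMap, LinearMap.det_smul, LinearMap.det_id, finrank_self, pow_one,
    mul_one]
  rfl

/-- an endomorphism conjugate to the model has the same determinant -/
lemma fac_det {F E V : Type*} [Field F] [Field E] [Algebra F E] [FiniteDimensional F E]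
    [AddCommGroup V] [Module F V] [FiniteDimensional F V] (θ : E) (c : F) (x : V →ₗ[F] V)
    (ψ : V ≃ₗ[F] E × F) (hψ : ∀ v, ψ (x v) = facT θ c (ψ v)) :
    LinearMap.det x = Algebra.norm F θ * c := by
  have h1 : (ψ : V →ₗ[F] E × F) ∘ₗ x ∘ₗ (ψ.symm : (E × F) →ₗ[F] V) = facT θ c := by
    apply LinearMap.ext
    intro v
    simp [hψ]
  rw [← facT_det, ← h1, LinearMap.det_conj]

/-- the vector `(1, 1)` under the model -/
lemma facT_aeval {F E : Type*} [Field F] [Field E] [Algebra F E] (θ : E) (c : F) (p : F[X]) :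
    aeval (R := F) (A := Module.End F (E × F)) (facT θ c) p (1, 1) = (aeval θ p, p.eval c) := by
  induction p using Polynomial.induction_on' with
  | add p q hp hq => rw [map_add, LinearMap.add_apply, hp, hq, map_add, eval_add]; rfl
  | monomial n a =>
    have h1 : ∀ j : ℕ, ((facT θ c) ^ j) ((1, 1) : E × F) = (θ ^ j, c ^ j) := by
      intro j
      induction j with
      | zero => simp
      | succ j ih => rw [pow_succ', Module.End.mul_apply, ih, facT_apply, pow_succ', pow_succ']
    rw [aeval_monomial, Module.End.mul_apply, h1, aeval_monomial, eval_monomial]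
    rw [Algebra.algebraMap_eq_smul_one, LinearMap.smul_apply, Module.End.one_apply,
      Algebra.algebraMap_eq_smul_one, smul_mul_assoc, one_mul]
    rfl

/-- main theorem for endomorphisms -/
theorem fac_lin {F E V : Type*} [Field F] [Field E] [Algebra F E] [FiniteDimensional F E]
    [AddCommGroup V] [Module F V] [FiniteDimensional F V] (θ : E)
    (hθ : Algebra.adjoin F {θ} = ⊤) (h2 : 2 ≤ finrank F E)
    (hV : finrank F V = finrank F E + 1) (A : V →ₗ[F] V) (hdet : LinearMap.det A = 1)
    (hA : ∀ a : F, A ≠ a • (1 : V →ₗ[F] V)) :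
    ∃ (x y : V →ₗ[F] V) (ψ₁ ψ₂ : V ≃ₗ[F] E × F),
      (∀ v, ψ₁ (x v) = facT θ (Algebra.norm F θ)⁻¹ (ψ₁ v)) ∧
      (∀ v, ψ₂ (y v) = facT θ (Algebra.norm F θ)⁻¹ (ψ₂ v)) ∧ (∀ v, y (x v) = A v) := by
  -- notation
  set c : F := (Algebra.norm F θ)⁻¹ with hc
  have hθns := fac_ns θ hθ h2
  have hθ0 : θ ≠ 0 := by
    have := hθns 0
    rwa [map_zero] at this
  have hN : Algebra.norm F θ ≠ 0 := Algebra.norm_ne_zero_iff.2 hθ0
  have hc0 : c ≠ 0 := inv_ne_zero hN
  have hint : IsIntegral F θ := IsIntegral.of_finite F θ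
  have hmin : (minpoly F θ).natDegree = finrank F E := by
    rw [← Field.primitive_element_iff_minpoly_natDegree_eq]
    apply IntermediateField.toSubalgebra_injective
    rw [IntermediateField.adjoin_simple_toSubalgebra_of_isAlgebraic hint.isAlgebraic, hθ]
    rfl
  have hAinj : Function.Injective A := by
    apply LinearMap.ker_eq_bot.1
    apply (LinearMap.isUnit_iff_ker_eq_bot A).1
    rw [LinearMap.isUnit_iff_isUnit_det, hdet]
    exact isUnit_one
  have hAsurj : Function.Surjective A := LinearMap.injective_iff_surjective.1 hAinj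
  -- the hyperplane
  obtain ⟨φ, v₁, hv₁, hAv₁⟩ := fac_phi A hA
  have hφ0 : φ ≠ 0 := by
    intro h
    rw [h] at hAv₁
    exact hAv₁ rfl
  have hH : finrank F (LinearMap.ker φ) = finrank F E := by
    have h1 := Module.Dual.finrank_ker_add_one_of_ne_zero (f := φ) hφ0
    omega
  obtain ⟨I, h, hst⟩ := fac_build A hAinj θ hθ (finrank F E) le_rfl (LinearMap.ker φ) hH
    ⟨⊤, φ, fun u _ hu => LinearMap.mem_ker.2 hu, fun _ _ => Submodule.mem_top⟩
  obtain ⟨m', hm'⟩ : ∃ m', finrank F E = m' + 1 := ⟨finrank F E - 1, by omega⟩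
  rw [hm'] at hst
  have hmem : ∀ j < m' + 1, φ (h j) = 0 := fun j hj => LinearMap.mem_ker.1 (hst.mem j hj)
  have hstepU : ∀ j, j < m' → φ (A (h j)) = 0 :=
    fun j hj => LinearMap.mem_ker.1 (hst.stepU j (by omega))
  have hlast : φ (A (h m')) ≠ 0 := by
    intro h0
    apply hAv₁
    obtain ⟨a, ha⟩ := hst.span v₁ (LinearMap.mem_ker.2 hv₁)
    rw [ha, map_sum, map_sum]
    apply Finset.sum_eq_zero
    intro j hj
    rw [map_smul, map_smul]
    rcases Nat.lt_succ_iff_lt_or_eq.1 (Finset.mem_range.1 hj) with h1 | h1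
    · rw [hstepU j h1, smul_zero]
    · rw [h1, h0, smul_zero]
  -- the identification of the hyperplane with E
  obtain ⟨J, hJH, hIJ, hJI⟩ : ∃ J : E →ₗ[F] V, (∀ z, φ (J z) = 0) ∧ (∀ z, I (J z) = z) ∧
      (∀ u, φ u = 0 → J (I u) = u) := by
    have hinj : Function.Injective (I.domRestrict (LinearMap.ker φ)) := by
      rw [injective_iff_map_eq_zero]
      intro u hu
      exact Subtype.ext (hst.inj u.1 u.2 hu)
    let e := LinearEquiv.ofInjectiveOfFinrankEq (I.domRestrict (LinearMap.ker φ)) hinj hH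
    have he : ∀ u, e u = I u.1 := fun u => rfl
    refine ⟨(LinearMap.ker φ).subtype ∘ₗ (e.symm : E →ₗ[F] _), ?_, ?_, ?_⟩
    · intro z
      exact LinearMap.mem_ker.1 (e.symm z).2
    · intro z
      have := he (e.symm z)
      rw [LinearEquiv.apply_symm_apply] at this
      exact this.symm
    · intro u hu
      have h1 := he ⟨u, LinearMap.mem_ker.2 hu⟩
      have h3 : e.symm (I u) = ⟨u, LinearMap.mem_ker.2 hu⟩ := by
        rw [LinearEquiv.symm_apply_eq, h1]
      simp [h3]
  -- the polynomial
  set f : F[X] := (X - C c) * minpoly F θ with hf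
  have hfm : f.Monic := (monic_X_sub_C c).mul (minpoly.monic hint)
  have hfd : f.natDegree = m' + 2 := by
    rw [hf, Monic.natDegree_mul (monic_X_sub_C c) (minpoly.monic hint), natDegree_X_sub_C, hmin,
      hm']
    omega
  have hf0 : f.coeff 0 ≠ 0 := by
    rw [hf, mul_coeff_zero]
    apply mul_ne_zero
    · simpa using hc0
    · exact minpoly.coeff_zero_ne_zero hint hθ0
  -- the vector t
  set w : V := J (θ * I (h 0)) with hw
  obtain ⟨r, hr⟩ := hAsurj w
  set t : V := -(f.coeff 0 • r) - ∑ j ∈ Finset.range (m' + 1), f.coeff (j + 1) • h j with ht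
  have hφr : φ r ≠ 0 := by
    intro h0
    obtain ⟨a, ha⟩ := hst.span r (LinearMap.mem_ker.2 h0)
    have h1 : a m' = 0 := by
      have h3 : φ (A r) = 0 := by rw [hr, hw]; exact hJH _
      rw [ha, map_sum, map_sum, Finset.sum_range_succ, Finset.sum_eq_zero, zero_add, map_smul,
        map_smul, smul_eq_mul] at h3
      · exact (mul_eq_zero.1 h3).resolve_right hlast
      · intro j hj
        rw [map_smul, map_smul, hstepU j (Finset.mem_range.1 hj), smul_zero]
    have h4 : I (h 0 - ∑ j ∈ Finset.range m', a j • h (j + 1)) = 0 := by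
      have h5 : I (A r) = θ * I (h 0) := by rw [hr, hw]; exact hIJ _
      rw [ha, map_sum, map_sum, Finset.sum_range_succ, h1, zero_smul, map_zero, map_zero,
        add_zero] at h5
      have h6 : ∑ j ∈ Finset.range m', I (A (a j • h j)) =
          θ * ∑ j ∈ Finset.range m', a j • I (h (j + 1)) := by
        rw [Finset.mul_sum]
        apply Finset.sum_congr rfl
        intro j hj
        rw [map_smul, map_smul, hst.stepI j (by have := Finset.mem_range.1 hj; omega),
          mul_smul_comm]
      rw [h6] at h5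
      have h7 := mul_left_cancel₀ hθ0 h5
      rw [map_sub, map_sum, ← h7, sub_eq_zero]
      apply Finset.sum_congr rfl
      intro j _
      rw [map_smul]
    have h8 : h 0 - ∑ j ∈ Finset.range m', a j • h (j + 1) = 0 := by
      apply hst.inj _ _ h4
      apply Submodule.sub_mem _ (hst.mem 0 (by omega))
      apply Submodule.sum_mem
      intro j hj
      exact Submodule.smul_mem _ _ (hst.mem (j + 1) (by have := Finset.mem_range.1 hj; omega))
    have h9 := hst.ind (fun j => if j = 0 then 1 else - a (j - 1)) (by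
      rw [Finset.sum_range_succ']
      simp only [Nat.add_eq_zero_iff, one_ne_zero, and_false, if_false, if_true,
        Nat.add_sub_cancel, neg_smul, Finset.sum_neg_distrib, one_smul]
      rw [← h8]
      abel) 0 (by omega)
    simp at h9
  have hφt : φ t ≠ 0 := by
    have h1 : φ t = -(f.coeff 0 * φ r) := by
      rw [ht, map_sub, map_neg, map_smul, map_sum, Finset.sum_eq_zero, sub_zero, smul_eq_mul]
      intro j hj
      rw [map_smul, hmem j (Finset.mem_range.1 hj), smul_zero]
    rw [h1]
    exact neg_ne_zero.2 (mul_ne_zero hf0 hφr)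
  -- the map y
  let κ : V →ₗ[F] F := (φ t)⁻¹ • φ
  have hκ : ∀ v, κ v = (φ t)⁻¹ * φ v := fun v => rfl
  let y : V →ₗ[F] V := J ∘ₗ (LinearMap.mulLeft F θ) ∘ₗ I ∘ₗ
      (LinearMap.id - (LinearMap.toSpanSingleton F V t) ∘ₗ κ) +
      (LinearMap.toSpanSingleton F V (A (h m'))) ∘ₗ κ
  have hy : ∀ v, y v = J (θ * I (v - κ v • t)) + κ v • A (h m') := by
    intro v
    simp [y]
  have hyH : ∀ u, φ u = 0 → y u = J (θ * I u) := by
    intro u hu
    rw [hy, hκ, hu, mul_zero, zero_smul, zero_smul, sub_zero, add_zero]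
  have hyt : y t = A (h m') := by
    rw [hy, hκ, inv_mul_cancel₀ hφt, one_smul, one_smul, sub_self, map_zero, mul_zero, map_zero,
      zero_add]
  have hyinj : Function.Injective y := by
    rw [injective_iff_map_eq_zero]
    intro v hv
    have h1 : φ v = 0 := by
      have h3 := congrArg φ hv
      rw [hy, map_add, hJH, zero_add, map_smul, map_zero, smul_eq_mul, hκ] at h3
      rcases mul_eq_zero.1 h3 with h4 | h4
      · exact (mul_eq_zero.1 h4).resolve_left (inv_ne_zero hφt)
      · exact absurd h4 hlast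
    rw [hyH v h1] at hv
    have h4 : θ * I v = 0 := by
      have := congrArg I hv
      rwa [hIJ, map_zero] at this
    have h5 := (mul_eq_zero.1 h4).resolve_left hθ0
    rw [← hJI v h1, h5, map_zero]
  let Y := LinearEquiv.ofInjectiveEndo y hyinj
  have hY : ∀ v, Y v = y v := fun v => rfl
  let x : V →ₗ[F] V := (Y.symm : V →ₗ[F] V) ∘ₗ A
  have hyx : ∀ v, y (x v) = A v := by
    intro v
    have : Y (Y.symm (A v)) = A v := LinearEquiv.apply_symm_apply _ _
    exact this
  have hyh : ∀ j, j < m' → y (h (j + 1)) = A (h j) := by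
    intro j hj
    rw [hyH _ (hmem (j + 1) (by omega)), ← hst.stepI j (by omega), hJI _ (hstepU j hj)]
  have hxh : ∀ j, j < m' → x (h j) = h (j + 1) := by
    intro j hj
    apply hyinj
    rw [hyx, hyh j hj]
  have hxl : x (h m') = t := by
    apply hyinj
    rw [hyx, hyt]
  have hxpow : ∀ j, j < m' + 1 → (x ^ j) (h 0) = h j := by
    intro j
    induction j with
    | zero => intro _; simp
    | succ j ih =>
      intro hj
      rw [pow_succ', Module.End.mul_apply, ih (by omega), hxh j (by omega)]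
  have hxpm : (x ^ (m' + 1)) (h 0) = t := by
    rw [pow_succ', Module.End.mul_apply, hxpow m' (by omega), hxl]
  -- aeval
  have hae : ∀ p : F[X], p.degree < ((m' + 2 : ℕ) : WithBot ℕ) →
      aeval (R := F) (A := Module.End F V) x p (h 0) =
        ∑ j ∈ Finset.range (m' + 1), p.coeff j • h j + p.coeff (m' + 1) • t := by
    intro p hp
    by_cases hp0 : p = 0
    · rw [hp0]; simp
    have hnd : p.natDegree < m' + 2 := (natDegree_lt_iff_degree_lt hp0).2 hp
    rw [aeval_eq_sum_range' hnd, LinearMap.sum_apply, Finset.sum_range_succ]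
    rw [LinearMap.smul_apply, hxpm]
    congr 1
    apply Finset.sum_congr rfl
    intro j hj
    rw [LinearMap.smul_apply, hxpow j (Finset.mem_range.1 hj)]
  have hcx : ∀ p : F[X], p.degree < ((m' + 2 : ℕ) : WithBot ℕ) →
      aeval (R := F) (A := Module.End F V) x p (h 0) = 0 → p = 0 := by
    intro p hp hp0
    rw [hae p hp] at hp0
    have h1 : p.coeff (m' + 1) = 0 := by
      have h3 := congrArg φ hp0
      rw [map_add, map_sum, Finset.sum_eq_zero, zero_add, map_smul, map_zero, smul_eq_mul] at h3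
      · exact (mul_eq_zero.1 h3).resolve_right hφt
      · intro j hj
        rw [map_smul, hmem j (Finset.mem_range.1 hj), smul_zero]
    rw [h1, zero_smul, add_zero] at hp0
    have h3 := hst.ind _ hp0
    by_contra hne
    have hnd : p.natDegree < m' + 2 := (natDegree_lt_iff_degree_lt hne).2 hp
    have h4 : p.leadingCoeff = 0 := by
      rw [leadingCoeff]
      rcases Nat.lt_succ_iff_lt_or_eq.1 hnd with h5 | h5
      · exact h3 _ h5
      · rw [h5]; exact h1
    exact hne (leadingCoeff_eq_zero.1 h4)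
  have hfx : aeval (R := F) (A := Module.End F V) x f (h 0) = 0 := by
    have h1 : aeval (R := F) (A := Module.End F V) x f (h 0) =
        ∑ j ∈ Finset.range (m' + 1), f.coeff j • h j + f.coeff (m' + 1) • t + x t := by
      rw [aeval_eq_sum_range' (by rw [hfd]; omega : f.natDegree < m' + 3), LinearMap.sum_apply,
        Finset.sum_range_succ, Finset.sum_range_succ]
      have h3 : f.coeff (m' + 2) = 1 := by
        rw [← hfd]; exact hfm
      rw [LinearMap.smul_apply, LinearMap.smul_apply, hxpm, h3, one_smul, pow_succ',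
        Module.End.mul_apply, hxpm]
      congr 2
      apply Finset.sum_congr rfl
      intro j hj
      rw [LinearMap.smul_apply, hxpow j (Finset.mem_range.1 hj)]
    apply hyinj
    rw [h1, map_add, map_add, map_smul, hyt, hyx, map_zero, Finset.sum_range_succ', map_add,
      map_sum, map_smul, hyH _ (hmem 0 (by omega)), ← hw]
    rw [ht, map_sub, map_neg, map_smul, hr, map_sum, Finset.sum_range_succ]
    have h3 : ∑ j ∈ Finset.range m', y (f.coeff (j + 1) • h (j + 1)) =
        ∑ j ∈ Finset.range m', A (f.coeff (j + 1) • h j) := by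
      apply Finset.sum_congr rfl
      intro j hj
      rw [map_smul, map_smul, hyh j (Finset.mem_range.1 hj)]
    rw [h3, map_smul]
    abel
  -- the model is cyclic
  have hirr : Irreducible (minpoly F θ) := minpoly.irreducible hint
  have hcop : IsCoprime (X - C c) (minpoly F θ) := by
    apply IsCoprime.symm
    rw [hirr.coprime_iff_not_dvd]
    intro hdvd
    have h1 := natDegree_le_of_dvd hdvd (X_sub_C_ne_zero c)
    rw [natDegree_X_sub_C, hmin] at h1
    omega
  have hfT : aeval (R := F) (A := Module.End F (E × F)) (facT θ c) f (1, 1) = 0 := by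
    rw [facT_aeval, hf, map_mul, minpoly.aeval, mul_zero, eval_mul]
    simp
  have hcT : ∀ p : F[X], p.degree < ((m' + 2 : ℕ) : WithBot ℕ) →
      aeval (R := F) (A := Module.End F (E × F)) (facT θ c) p (1, 1) = 0 → p = 0 := by
    intro p hp hp0
    rw [facT_aeval, Prod.mk_eq_zero] at hp0
    have h1 : minpoly F θ ∣ p := minpoly.dvd F θ hp0.1
    have h3 : (X - C c) ∣ p := dvd_iff_isRoot.2 hp0.2
    have h4 : f ∣ p := hcop.mul_dvd h3 h1
    apply eq_zero_of_dvd_of_degree_lt h4
    rw [degree_eq_natDegree hfm.ne_zero, hfd]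
    exact hp
  have hdimT : finrank F (E × F) = m' + 2 := by
    rw [finrank_prod, finrank_self, hm']
  obtain ⟨ψ₁, hψ₁⟩ := fac_conj (V := V) (V' := E × F) x (facT θ c) (h 0) (1, 1) f hfm (m' + 2) hfd
    (by rw [hV, hm']) hdimT hfx hfT hcx hcT
  -- determinants
  have hdx : LinearMap.det x = 1 := by
    rw [fac_det θ c x ψ₁ hψ₁, hc, mul_inv_cancel₀ hN]
  have hdy : LinearMap.det y = 1 := by
    have h1 : A = y ∘ₗ x := LinearMap.ext fun v => (hyx v).symm
    rw [h1, LinearMap.det_comp, hdx, mul_one] at hdet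
    exact hdet
  -- the eigenvector of y
  set μ : F := (φ t)⁻¹ * φ (A (h m')) with hμ
  have hres : φ (y t - μ • t) = 0 := by
    rw [map_sub, map_smul, hyt, smul_eq_mul, hμ]
    field_simp
    ring
  have hθμ : θ - algebraMap F E μ ≠ 0 := sub_ne_zero.2 (hθns μ)
  set z₀ : E := (θ - algebraMap F E μ)⁻¹ * I (y t - μ • t) with hz₀
  have hz₀' : θ * z₀ - μ • z₀ = I (y t - μ • t) := by
    rw [Algebra.smul_def, ← sub_mul, hz₀, ← mul_assoc, mul_inv_cancel₀ hθμ, one_mul]
  set t₁ : V := t - J z₀ with ht₁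
  have hφt₁ : φ t₁ = φ t := by rw [ht₁, map_sub, hJH, sub_zero]
  have hyJ : ∀ z, y (J z) = J (θ * z) := by
    intro z
    rw [hyH _ (hJH z), hIJ]
  have hyt₁ : y t₁ = μ • t₁ := by
    have h1 : J (θ * z₀) - μ • J z₀ = y t - μ • t := by
      rw [← map_smul, ← map_sub, hz₀', hJI _ hres]
    rw [ht₁, map_sub, hyJ, smul_sub]
    have h3 : J (θ * z₀) = y t - μ • t + μ • J z₀ := by rw [← h1]; abel
    rw [h3]
    abel
  let g : (E × F) →ₗ[F] V := LinearMap.coprod J (LinearMap.toSpanSingleton F V t₁)
  have hg : ∀ v : E × F, g v = J v.1 + v.2 • t₁ := by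
    intro v
    simp [g]
  have hginj : Function.Injective g := by
    rw [injective_iff_map_eq_zero]
    rintro ⟨z, a⟩ hv
    rw [hg] at hv
    have h1 : a = 0 := by
      have h3 := congrArg φ hv
      rw [map_add, hJH, zero_add, map_smul, map_zero, smul_eq_mul, hφt₁] at h3
      exact (mul_eq_zero.1 h3).resolve_right hφt
    simp only at hv
    rw [h1, zero_smul, add_zero] at hv
    have h3 : z = 0 := by
      rw [← hIJ z, hv, map_zero]
    rw [h1, h3]
    rfl
  let Ψ := LinearEquiv.ofInjectiveOfFinrankEq g hginj (by rw [hdimT, hV, hm'])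
  have hΨ : ∀ v, Ψ v = g v := fun v => rfl
  have hΨy : ∀ v, Ψ.symm (y v) = facT θ μ (Ψ.symm v) := by
    intro v
    obtain ⟨u, rfl⟩ := Ψ.surjective v
    rw [LinearEquiv.symm_apply_apply, LinearEquiv.symm_apply_eq, hΨ, hΨ, hg, hg, facT_apply,
      map_add, hyJ, map_smul, hyt₁, smul_smul, mul_comm u.2 μ]
  have hμc : μ = c := by
    have h1 := fac_det θ μ y Ψ.symm hΨy
    rw [hdy] at h1
    rw [hc]
    exact eq_inv_of_mul_eq_one_right h1.symm
  rw [hμc] at hΨy
  exact ⟨x, y, ψ₁, Ψ.symm, hψ₁, hΨy, hyx⟩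

end Pool.Agent.SLN
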