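import Pool.Agent.SLN.FacGB

/-! Factorisation of nonscalar endomorphisms with a cyclic algebra `B = F[θ]` on an invariant
hyperplane of one factor (helper60). -/

set_option autoImplicit false

namespace Pool.Agent.SLN

open Module Polynomial

theorem facg {F B V : Type*} [Field F] [CommRing B] [Algebra F B] [FiniteDimensional F B]
    [AddCommGroup V] [Module F V] [FiniteDimensional F V] (θ : B)
    (hθ : Algebra.adjoin F {θ} = ⊤) (hu : IsUnit θ) (hB : 1 ≤ finrank F B)
    (hV : finrank F V = finrank F B + 1) (A : V →ₗ[F] V) (hAinj : Function.Injective A)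
    (hA : ∀ a : F, A ≠ a • (1 : V →ₗ[F] V)) (f : F[X]) (hfm : f.Monic)
    (hfd₀ : f.natDegree = finrank F B + 1) (hf0 : f.coeff 0 ≠ 0) :
    ∃ (x y : V →ₗ[F] V) (v₀ t : V) (J : B →ₗ[F] V) (φ : V →ₗ[F] F),
      (∀ v, y (x v) = A v) ∧ aeval (R := F) (A := Module.End F V) x f v₀ = 0 ∧
      (∀ p : F[X], p.degree < ((finrank F B + 1 : ℕ) : WithBot ℕ) →
        aeval (R := F) (A := Module.End F V) x p v₀ = 0 → p = 0) ∧
      Function.Injective J ∧ (∀ z, φ (J z) = 0) ∧ (∀ u, φ u = 0 → ∃ z, J z = u) ∧ φ t ≠ 0 ∧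
      (∀ z, y (J z) = J (θ * z)) := by
  have hAsurj : Function.Surjective A := LinearMap.injective_iff_surjective.1 hAinj
  -- the hyperplane
  obtain ⟨φ, v₁, hv₁, hAv₁⟩ := fac_phi A hA
  have hφ0 : φ ≠ 0 := by
    intro h
    rw [h] at hAv₁
    exact hAv₁ rfl
  have hH : finrank F (LinearMap.ker φ) = finrank F B := by
    have h1 := Module.Dual.finrank_ker_add_one_of_ne_zero (f := φ) hφ0
    omega
  obtain ⟨I, h, hst⟩ := facg_build A hAinj θ hθ hu (finrank F B) le_rfl (LinearMap.ker φ) hH
    ⟨⊤, φ, fun u _ hu => LinearMap.mem_ker.2 hu, fun _ _ => Submodule.mem_top⟩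
  obtain ⟨m', hm'⟩ : ∃ m', finrank F B = m' + 1 := ⟨finrank F B - 1, by omega⟩
  rw [hm'] at hst
  have hmem : ∀ j < m' + 1, φ (h j) = 0 := fun j hj => LinearMap.mem_ker.1 (hst.mem j hj)
  have hstepU : ∀ j, j < m' → φ (A (h j)) = 0 :=
    fun j hj => LinearMap.mem_ker.1 (hst.stepU j (by omega))
  have hlast : φ (A (h m')) ≠ 0 := by
    intro h0
    apply hAv₁
    obtain ⟨a, ha⟩ := hst.span v₁ (LinearMap.mem_ker.2 hv₁)
    rw [ha, map_sum, map_sum]
    apply Finset.sum_eq_zero
    intro j hj
    rw [map_smul, map_smul]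
    rcases Nat.lt_succ_iff_lt_or_eq.1 (Finset.mem_range.1 hj) with h1 | h1
    · rw [hstepU j h1, smul_zero]
    · rw [h1, h0, smul_zero]
  -- the identification of the hyperplane with E
  obtain ⟨J, hJH, hIJ, hJI⟩ : ∃ J : B →ₗ[F] V, (∀ z, φ (J z) = 0) ∧ (∀ z, I (J z) = z) ∧
      (∀ u, φ u = 0 → J (I u) = u) := by
    have hinj : Function.Injective (I.domRestrict (LinearMap.ker φ)) := by
      rw [injective_iff_map_eq_zero]
      intro u hu
      exact Subtype.ext (hst.inj u.1 u.2 hu)
    let e := LinearEquiv.ofInjectiveOfFinrankEq (I.domRestrict (LinearMap.ker φ)) hinj hH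
    have he : ∀ u, e u = I u.1 := fun u => rfl
    refine ⟨(LinearMap.ker φ).subtype ∘ₗ (e.symm : B →ₗ[F] _), ?_, ?_, ?_⟩
    · intro z
      exact LinearMap.mem_ker.1 (e.symm z).2
    · intro z
      have := he (e.symm z)
      rw [LinearEquiv.apply_symm_apply] at this
      exact this.symm
    · intro u hu
      have h1 := he ⟨u, LinearMap.mem_ker.2 hu⟩
      have h3 : e.symm (I u) = ⟨u, LinearMap.mem_ker.2 hu⟩ := by
        rw [LinearEquiv.symm_apply_eq, h1]
      simp [h3]
  have hfd : f.natDegree = m' + 2 := by rw [hfd₀, hm']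
  -- the vector t
  set w : V := J (θ * I (h 0)) with hw
  obtain ⟨r, hr⟩ := hAsurj w
  set t : V := -(f.coeff 0 • r) - ∑ j ∈ Finset.range (m' + 1), f.coeff (j + 1) • h j with ht
  have hφr : φ r ≠ 0 := by
    intro h0
    obtain ⟨a, ha⟩ := hst.span r (LinearMap.mem_ker.2 h0)
    have h1 : a m' = 0 := by
      have h3 : φ (A r) = 0 := by rw [hr, hw]; exact hJH _
      rw [ha, map_sum, map_sum, Finset.sum_range_succ, Finset.sum_eq_zero, zero_add, map_smul,
        map_smul, smul_eq_mul] at h3
      · exact (mul_eq_zero.1 h3).resolve_right hlast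
      · intro j hj
        rw [map_smul, map_smul, hstepU j (Finset.mem_range.1 hj), smul_zero]
    have h4 : I (h 0 - ∑ j ∈ Finset.range m', a j • h (j + 1)) = 0 := by
      have h5 : I (A r) = θ * I (h 0) := by rw [hr, hw]; exact hIJ _
      rw [ha, map_sum, map_sum, Finset.sum_range_succ, h1, zero_smul, map_zero, map_zero,
        add_zero] at h5
      have h6 : ∑ j ∈ Finset.range m', I (A (a j • h j)) =
          θ * ∑ j ∈ Finset.range m', a j • I (h (j + 1)) := by
        rw [Finset.mul_sum]
        apply Finset.sum_congr rfl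
        intro j hj
        rw [map_smul, map_smul, hst.stepI j (by have := Finset.mem_range.1 hj; omega),
          mul_smul_comm]
      rw [h6] at h5
      have h7 := hu.mul_left_cancel h5
      rw [map_sub, map_sum, ← h7, sub_eq_zero]
      apply Finset.sum_congr rfl
      intro j _
      rw [map_smul]
    have h8 : h 0 - ∑ j ∈ Finset.range m', a j • h (j + 1) = 0 := by
      apply hst.inj _ _ h4
      apply Submodule.sub_mem _ (hst.mem 0 (by omega))
      apply Submodule.sum_mem
      intro j hj
      exact Submodule.smul_mem _ _ (hst.mem (j + 1) (by have := Finset.mem_range.1 hj; omega))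
    have h9 := hst.ind (fun j => if j = 0 then 1 else - a (j - 1)) (by
      rw [Finset.sum_range_succ']
      simp only [Nat.add_eq_zero_iff, one_ne_zero, and_false, if_false, if_true,
        Nat.add_sub_cancel, neg_smul, Finset.sum_neg_distrib, one_smul]
      rw [← h8]
      abel) 0 (by omega)
    simp at h9
  have hφt : φ t ≠ 0 := by
    have h1 : φ t = -(f.coeff 0 * φ r) := by
      rw [ht, map_sub, map_neg, map_smul, map_sum, Finset.sum_eq_zero, sub_zero, smul_eq_mul]
      intro j hj
      rw [map_smul, hmem j (Finset.mem_range.1 hj), smul_zero]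
    rw [h1]
    exact neg_ne_zero.2 (mul_ne_zero hf0 hφr)
  -- the map y
  let κ : V →ₗ[F] F := (φ t)⁻¹ • φ
  have hκ : ∀ v, κ v = (φ t)⁻¹ * φ v := fun v => rfl
  let y : V →ₗ[F] V := J ∘ₗ (LinearMap.mulLeft F θ) ∘ₗ I ∘ₗ
      (LinearMap.id - (LinearMap.toSpanSingleton F V t) ∘ₗ κ) +
      (LinearMap.toSpanSingleton F V (A (h m'))) ∘ₗ κ
  have hy : ∀ v, y v = J (θ * I (v - κ v • t)) + κ v • A (h m') := by
    intro v
    simp [y]
  have hyH : ∀ u, φ u = 0 → y u = J (θ * I u) := by
    intro u hu
    rw [hy, hκ, hu, mul_zero, zero_smul, zero_smul, sub_zero, add_zero]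
  have hyt : y t = A (h m') := by
    rw [hy, hκ, inv_mul_cancel₀ hφt, one_smul, one_smul, sub_self, map_zero, mul_zero, map_zero,
      zero_add]
  have hyinj : Function.Injective y := by
    rw [injective_iff_map_eq_zero]
    intro v hv
    have h1 : φ v = 0 := by
      have h3 := congrArg φ hv
      rw [hy, map_add, hJH, zero_add, map_smul, map_zero, smul_eq_mul, hκ] at h3
      rcases mul_eq_zero.1 h3 with h4 | h4
      · exact (mul_eq_zero.1 h4).resolve_left (inv_ne_zero hφt)
      · exact absurd h4 hlast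
    rw [hyH v h1] at hv
    have h4 : θ * I v = 0 := by
      have := congrArg I hv
      rwa [hIJ, map_zero] at this
    have h5 := (hu.mul_right_eq_zero).1 h4
    rw [← hJI v h1, h5, map_zero]
  let Y := LinearEquiv.ofInjectiveEndo y hyinj
  have hY : ∀ v, Y v = y v := fun v => rfl
  let x : V →ₗ[F] V := (Y.symm : V →ₗ[F] V) ∘ₗ A
  have hyx : ∀ v, y (x v) = A v := by
    intro v
    have : Y (Y.symm (A v)) = A v := LinearEquiv.apply_symm_apply _ _
    exact this
  have hyh : ∀ j, j < m' → y (h (j + 1)) = A (h j) := by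
    intro j hj
    rw [hyH _ (hmem (j + 1) (by omega)), ← hst.stepI j (by omega), hJI _ (hstepU j hj)]
  have hxh : ∀ j, j < m' → x (h j) = h (j + 1) := by
    intro j hj
    apply hyinj
    rw [hyx, hyh j hj]
  have hxl : x (h m') = t := by
    apply hyinj
    rw [hyx, hyt]
  have hxpow : ∀ j, j < m' + 1 → (x ^ j) (h 0) = h j := by
    intro j
    induction j with
    | zero => intro _; simp
    | succ j ih =>
      intro hj
      rw [pow_succ', Module.End.mul_apply, ih (by omega), hxh j (by omega)]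
  have hxpm : (x ^ (m' + 1)) (h 0) = t := by
    rw [pow_succ', Module.End.mul_apply, hxpow m' (by omega), hxl]
  -- aeval
  have hae : ∀ p : F[X], p.degree < ((m' + 2 : ℕ) : WithBot ℕ) →
      aeval (R := F) (A := Module.End F V) x p (h 0) =
        ∑ j ∈ Finset.range (m' + 1), p.coeff j • h j + p.coeff (m' + 1) • t := by
    intro p hp
    by_cases hp0 : p = 0
    · rw [hp0]; simp
    have hnd : p.natDegree < m' + 2 := (natDegree_lt_iff_degree_lt hp0).2 hp
    rw [aeval_eq_sum_range' hnd, LinearMap.sum_apply, Finset.sum_range_succ]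
    rw [LinearMap.smul_apply, hxpm]
    congr 1
    apply Finset.sum_congr rfl
    intro j hj
    rw [LinearMap.smul_apply, hxpow j (Finset.mem_range.1 hj)]
  have hcx : ∀ p : F[X], p.degree < ((m' + 2 : ℕ) : WithBot ℕ) →
      aeval (R := F) (A := Module.End F V) x p (h 0) = 0 → p = 0 := by
    intro p hp hp0
    rw [hae p hp] at hp0
    have h1 : p.coeff (m' + 1) = 0 := by
      have h3 := congrArg φ hp0
      rw [map_add, map_sum, Finset.sum_eq_zero, zero_add, map_smul, map_zero, smul_eq_mul] at h3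
      · exact (mul_eq_zero.1 h3).resolve_right hφt
      · intro j hj
        rw [map_smul, hmem j (Finset.mem_range.1 hj), smul_zero]
    rw [h1, zero_smul, add_zero] at hp0
    have h3 := hst.ind _ hp0
    by_contra hne
    have hnd : p.natDegree < m' + 2 := (natDegree_lt_iff_degree_lt hne).2 hp
    have h4 : p.leadingCoeff = 0 := by
      rw [leadingCoeff]
      rcases Nat.lt_succ_iff_lt_or_eq.1 hnd with h5 | h5
      · exact h3 _ h5
      · rw [h5]; exact h1
    exact hne (leadingCoeff_eq_zero.1 h4)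
  have hfx : aeval (R := F) (A := Module.End F V) x f (h 0) = 0 := by
    have h1 : aeval (R := F) (A := Module.End F V) x f (h 0) =
        ∑ j ∈ Finset.range (m' + 1), f.coeff j • h j + f.coeff (m' + 1) • t + x t := by
      rw [aeval_eq_sum_range' (by rw [hfd]; omega : f.natDegree < m' + 3), LinearMap.sum_apply,
        Finset.sum_range_succ, Finset.sum_range_succ]
      have h3 : f.coeff (m' + 2) = 1 := by
        rw [← hfd]; exact hfm
      rw [LinearMap.smul_apply, LinearMap.smul_apply, hxpm, h3, one_smul, pow_succ',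
        Module.End.mul_apply, hxpm]
      congr 2
      apply Finset.sum_congr rfl
      intro j hj
      rw [LinearMap.smul_apply, hxpow j (Finset.mem_range.1 hj)]
    apply hyinj
    rw [h1, map_add, map_add, map_smul, hyt, hyx, map_zero, Finset.sum_range_succ', map_add,
      map_sum, map_smul, hyH _ (hmem 0 (by omega)), ← hw]
    rw [ht, map_sub, map_neg, map_smul, hr, map_sum, Finset.sum_range_succ]
    have h3 : ∑ j ∈ Finset.range m', y (f.coeff (j + 1) • h (j + 1)) =
        ∑ j ∈ Finset.range m', A (f.coeff (j + 1) • h j) := by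
      apply Finset.sum_congr rfl
      intro j hj
      rw [map_smul, map_smul, hyh j (Finset.mem_range.1 hj)]
    rw [h3, map_smul]
    abel
  have hyJ : ∀ z, y (J z) = J (θ * z) := by
    intro z
    rw [hyH _ (hJH z), hIJ]
  refine ⟨x, y, h 0, t, J, φ, hyx, hfx, ?_, ?_, hJH, fun u hu0 => ⟨I u, hJI u hu0⟩, hφt, hyJ⟩
  · rw [hm']
    exact hcx
  · intro z z' hz
    rw [← hIJ z, ← hIJ z', hz]

end Pool.Agent.SLN
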