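import Pool.Agent.SLN.FacA

/-! Adapted bases for a cyclic commutative algebra `B = F[θ]` (helper60). -/

set_option autoImplicit false

namespace Pool.Agent.SLN

open Module

/-- no proper subspace containing `1` is invariant -/
lemma facg_inv {F B : Type*} [Field F] [CommRing B] [Algebra F B] (θ : B)
    (hθ : Algebra.adjoin F {θ} = ⊤) (W : Submodule F B) (h1 : (1 : B) ∈ W)
    (hW : ∀ w ∈ W, θ * w ∈ W) : W = ⊤ := by
  let S : Subalgebra F B :=
    { carrier := {z | ∀ w ∈ W, z * w ∈ W}
      mul_mem' := by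
        intro a b ha hb w hw
        rw [mul_assoc]
        exact ha _ (hb w hw)
      add_mem' := by
        intro a b ha hb w hw
        rw [add_mul]
        exact W.add_mem (ha w hw) (hb w hw)
      algebraMap_mem' := by
        intro r w hw
        rw [← Algebra.smul_def]
        exact W.smul_mem r hw }
  have hS3 : θ ∈ S := hW
  have hS4 : S = ⊤ := by
    apply top_le_iff.1
    rw [← hθ]
    exact Algebra.adjoin_singleton_le hS3
  rw [eq_top_iff]
  intro z _
  have hz : z ∈ S := by rw [hS4]; exact Algebra.mem_top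
  have := hz 1 h1
  rwa [mul_one] at this

lemma facg_unit {F B : Type*} [Field F] [CommRing B] [Algebra F B] [FiniteDimensional F B] (u : Bˣ)
    (W : Submodule F B) (hW : ∀ w ∈ W, (↑u⁻¹ : B) * w ∈ W) : ∀ w ∈ W, (u : B) * w ∈ W := by
  intro w hw
  have h1 : Function.Injective ((LinearMap.mulLeft F (↑u⁻¹ : B)).restrict hW) := by
    intro a b hab
    apply Subtype.ext
    have h2 : (↑u⁻¹ : B) * a.1 = (↑u⁻¹ : B) * b.1 := congrArg Subtype.val hab
    exact u⁻¹.isUnit.mul_left_cancel h2
  have h2 := LinearMap.injective_iff_surjective.1 h1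
  obtain ⟨a, ha⟩ := h2 ⟨w, hw⟩
  have h3 : (↑u⁻¹ : B) * a.1 = w := congrArg Subtype.val ha
  rw [← h3, ← mul_assoc, Units.mul_inv, one_mul]
  exact a.2

lemma facg_shift {F B : Type*} [Field F] [CommRing B] [Algebra F B] [FiniteDimensional F B] (θ : B)
    (hθ : Algebra.adjoin F {θ} = ⊤) (W : Submodule F B) (h1 : (1 : B) ∈ W) (hW : W ≠ ⊤) :
    ∃ η : B, η ∉ W ∧ θ * η - η ∈ W := by
  by_contra hcon
  push Not at hcon
  have hcon' : ∀ η : B, θ * η - η ∈ W → η ∈ W := by
    intro η h
    by_contra h2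
    exact hcon η h2 h
  let D : B →ₗ[F] B := LinearMap.mulLeft F θ - LinearMap.id
  have hD : ∀ η, D η = θ * η - η := fun η => rfl
  let g : B →ₗ[F] (B ⧸ W) := W.mkQ ∘ₗ D
  have hker : LinearMap.ker g ≤ W := by
    intro η hη
    apply hcon'
    rw [LinearMap.mem_ker] at hη
    have : W.mkQ (D η) = 0 := hη
    rw [Submodule.mkQ_apply, Submodule.Quotient.mk_eq_zero] at this
    exact this
  have h2 := LinearMap.finrank_range_add_finrank_ker g
  have h3 := Submodule.finrank_quotient_add_finrank W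
  have h4 : finrank F (LinearMap.range g) ≤ finrank F (B ⧸ W) := Submodule.finrank_le _
  have h5 : finrank F (LinearMap.ker g) ≤ finrank F W := Submodule.finrank_mono hker
  have h6 : LinearMap.ker g = W := Submodule.eq_of_le_of_finrank_le hker (by omega)
  apply hW
  apply facg_inv θ hθ W h1
  intro w hw
  rw [← h6, LinearMap.mem_ker] at hw
  have h7 : W.mkQ (D w) = 0 := hw
  rw [Submodule.mkQ_apply, Submodule.Quotient.mk_eq_zero, hD] at h7
  have h8 : w ∈ W := by rw [← h6]; exact LinearMap.mem_ker.2 hw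
  have h9 := W.add_mem h7 h8
  rwa [sub_add_cancel] at h9

/-- the state: `h 0, …, h (k-1)` is a basis of `U`, `I` is injective on `U`, and for `j + 1 < k`
`A (h j) ∈ U` with `I (A (h j)) = θ I (h (j+1))`, and `I (h 0) = 1` -/
structure FacGSt {F B V : Type*} [Field F] [CommRing B] [Algebra F B] [AddCommGroup V] [Module F V]
    (A : V →ₗ[F] V) (θ : B) (k : ℕ) (U : Submodule F V) (I : V →ₗ[F] B) (h : ℕ → V) : Prop where
  inj : ∀ u ∈ U, I u = 0 → u = 0
  mem : ∀ j < k, h j ∈ U
  span : ∀ u ∈ U, ∃ a : ℕ → F, u = ∑ j ∈ Finset.range k, a j • h j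
  ind : ∀ a : ℕ → F, ∑ j ∈ Finset.range k, a j • h j = 0 → ∀ j < k, a j = 0
  stepU : ∀ j, j + 1 < k → A (h j) ∈ U
  stepI : ∀ j, j + 1 < k → I (A (h j)) = θ * I (h (j + 1))
  one : 0 < k → I (h 0) = 1

/-- extension of a state by one vector -/
lemma facg_ext {F B V : Type*} [Field F] [CommRing B] [Algebra F B] [AddCommGroup V] [Module F V]
    (A : V →ₗ[F] V) (θ : B) (k : ℕ) (U : Submodule F V) (ξ : V →ₗ[F] F) (I : V →ₗ[F] B)
    (h : ℕ → V) (hst : FacGSt A θ k (U ⊓ LinearMap.ker ξ) I h)
    (hAU : ∀ u ∈ U, ξ u = 0 → A u ∈ U) (hs : V) (hsU : hs ∈ U) (hξ : ξ hs ≠ 0) (ηs : B)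
    (hone : k = 0 → ηs = 1)
    (hη : ∀ u ∈ U, ξ u = 0 → I u ≠ ηs)
    (hcomp : ∀ j, j + 1 = k → ∃ (a : F) (v : V), v ∈ U ∧ ξ v = 0 ∧ A (h j) = a • hs + v ∧
      θ * ηs = a • ηs + I v) :
    ∃ (I' : V →ₗ[F] B) (h' : ℕ → V), FacGSt A θ (k + 1) U I' h' := by
  have hm : ∀ u, u ∈ U ⊓ LinearMap.ker ξ ↔ u ∈ U ∧ ξ u = 0 := by
    intro u
    rw [Submodule.mem_inf, LinearMap.mem_ker]
  let I' : V →ₗ[F] B := I + (LinearMap.toSpanSingleton F B ((ξ hs)⁻¹ • (ηs - I hs))).comp ξ
  have hI' : ∀ u, I' u = I u + ξ u • ((ξ hs)⁻¹ • (ηs - I hs)) := by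
    intro u
    simp [I']
  have hI0 : ∀ u, ξ u = 0 → I' u = I u := by
    intro u hu
    rw [hI', hu, zero_smul, add_zero]
  have hIs : I' hs = ηs := by
    rw [hI', smul_smul, mul_inv_cancel₀ hξ, one_smul]
    abel
  let h' : ℕ → V := Function.update h k hs
  have hh1 : ∀ j, j < k → h' j = h j := by
    intro j hj
    exact Function.update_of_ne (ne_of_lt hj) _ _
  have hh2 : h' k = hs := Function.update_self _ _ _
  have hU1 : ∀ j, j < k → h j ∈ U ∧ ξ (h j) = 0 := fun j hj => (hm _).1 (hst.mem j hj)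
  have hsplit : ∀ u ∈ U, ∃ (a : F) (w : V), w ∈ U ∧ ξ w = 0 ∧ u = w + a • hs := by
    intro u hu
    refine ⟨ξ u * (ξ hs)⁻¹, u - (ξ u * (ξ hs)⁻¹) • hs, U.sub_mem hu (U.smul_mem _ hsU), ?_, ?_⟩
    · rw [map_sub, map_smul, smul_eq_mul, mul_assoc, inv_mul_cancel₀ hξ, mul_one, sub_self]
    · abel
  have hsum : ∀ a : ℕ → F, ∑ j ∈ Finset.range k, a j • h' j =
      ∑ j ∈ Finset.range k, a j • h j := by
    intro a
    apply Finset.sum_congr rfl
    intro j hj
    rw [hh1 j (Finset.mem_range.1 hj)]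
  refine ⟨I', h', ?_, ?_, ?_, ?_, ?_, ?_, ?_⟩
  · intro u hu hIu
    obtain ⟨a, w, hwU, hw0, rfl⟩ := hsplit u hu
    by_cases ha : a = 0
    · subst ha
      rw [zero_smul, add_zero] at hIu ⊢
      rw [hI0 w hw0] at hIu
      exact hst.inj w ((hm w).2 ⟨hwU, hw0⟩) hIu
    · exfalso
      rw [map_add, map_smul, hIs, hI0 w hw0] at hIu
      apply hη ((-a⁻¹) • w) (U.smul_mem _ hwU) (by rw [map_smul, hw0, smul_zero])
      rw [map_smul]
      have h1 : I w = -(a • ηs) := eq_neg_of_add_eq_zero_left hIu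
      rw [h1, smul_neg, neg_smul, neg_neg, smul_smul, inv_mul_cancel₀ ha, one_smul]
  · intro j hj
    rcases Nat.lt_succ_iff_lt_or_eq.1 hj with h1 | h1
    · rw [hh1 j h1]; exact (hU1 j h1).1
    · rw [h1, hh2]; exact hsU
  · intro u hu
    obtain ⟨a, w, hwU, hw0, rfl⟩ := hsplit u hu
    obtain ⟨c, hc⟩ := hst.span w ((hm w).2 ⟨hwU, hw0⟩)
    refine ⟨Function.update c k a, ?_⟩
    rw [Finset.sum_range_succ, hh2, Function.update_self, hc]
    congr 1
    apply Finset.sum_congr rfl
    intro j hj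
    have hjk := Finset.mem_range.1 hj
    rw [hh1 j hjk, Function.update_of_ne (ne_of_lt hjk)]
  · intro a ha
    rw [Finset.sum_range_succ, hh2, hsum] at ha
    have h1 : ξ (∑ j ∈ Finset.range k, a j • h j) = 0 := by
      rw [map_sum]
      apply Finset.sum_eq_zero
      intro j hj
      rw [map_smul, (hU1 j (Finset.mem_range.1 hj)).2, smul_zero]
    have h2 : a k = 0 := by
      have h3 := congrArg ξ ha
      rw [map_add, h1, zero_add, map_smul, map_zero, smul_eq_mul] at h3
      exact (mul_eq_zero.1 h3).resolve_right hξ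
    rw [h2, zero_smul, add_zero] at ha
    intro j hj
    rcases Nat.lt_succ_iff_lt_or_eq.1 hj with h3 | h3
    · exact hst.ind a ha j h3
    · rw [h3]; exact h2
  · intro j hj
    have hjk : j < k := by omega
    rw [hh1 j hjk]
    exact hAU _ (hU1 j hjk).1 (hU1 j hjk).2
  · intro j hj
    have hjk : j < k := by omega
    rw [hh1 j hjk]
    by_cases h1 : j + 1 < k
    · have h2 := (hm _).1 (hst.stepU j h1)
      rw [hI0 _ h2.2, hst.stepI j h1, hh1 _ h1, hI0 _ (hU1 _ h1).2]
    · have h2 : j + 1 = k := by omega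
      obtain ⟨a, v, hvU, hv0, h3, h4⟩ := hcomp j h2
      rw [h3, map_add, map_smul, hIs, hI0 v hv0, h2, hh2, hIs, h4]
  · intro _
    rcases Nat.eq_zero_or_pos k with h1 | h1
    · subst h1
      rw [hh2, hIs]
      exact hone rfl
    · rw [hh1 0 h1, hI0 _ (hU1 0 h1).2]
      exact hst.one h1

/-- the adapted basis of a subspace -/
lemma facg_build {F B V : Type*} [Field F] [CommRing B] [Algebra F B] [FiniteDimensional F B]
    [AddCommGroup V] [Module F V] [FiniteDimensional F V] (A : V →ₗ[F] V)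
    (hA : Function.Injective A) (θ : B) (hθ : Algebra.adjoin F {θ} = ⊤) (hu : IsUnit θ) :
    ∀ k : ℕ, k ≤ finrank F B → ∀ U : Submodule F V, finrank F U = k →
      (∃ (U' : Submodule F V) (ξ : V →ₗ[F] F), (∀ u, u ∈ U' → ξ u = 0 → u ∈ U) ∧
        ∀ u ∈ U, A u ∈ U') →
      ∃ (I : V →ₗ[F] B) (h : ℕ → V), FacGSt A θ k U I h := by
  intro k
  induction k with
  | zero =>
    intro _ U hU _
    have hU0 : U = ⊥ := Submodule.finrank_eq_zero.1 hU
    refine ⟨0, fun _ => 0, ?_, ?_, ?_, ?_, ?_, ?_, ?_⟩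
    · intro u hu _
      rw [hU0] at hu
      exact (Submodule.mem_bot F).1 hu
    · intro j hj; omega
    · intro u hu
      rw [hU0] at hu
      exact ⟨fun _ => 0, by rw [(Submodule.mem_bot F).1 hu]; simp⟩
    · intro a _ j hj; omega
    · intro j hj; omega
    · intro j hj; omega
    · intro h; omega
  | succ k ih =>
    intro hk U hU hex
    obtain ⟨U', ξ', hU', hAU'⟩ := hex
    have hUne : U ≠ ⊥ := by
      intro h
      rw [h, finrank_bot] at hU
      omega
    -- the next functional
    obtain ⟨ξ, u₀, hu₀, hξu₀, hξA⟩ : ∃ (ξ : V →ₗ[F] F) (u₀ : V), u₀ ∈ U ∧ ξ u₀ ≠ 0 ∧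
        ∀ u ∈ U, ξ u = 0 → A u ∈ U := by
      by_cases hAU : ∀ u ∈ U, A u ∈ U
      · obtain ⟨u₀, hu₀, hne⟩ := Submodule.exists_mem_ne_zero_of_ne_bot hUne
        have h1 : u₀ ∉ (⊥ : Submodule F V) := fun h => hne ((Submodule.mem_bot F).1 h)
        obtain ⟨f, hf, -⟩ := Submodule.exists_le_ker_of_notMem h1
        exact ⟨f, u₀, hu₀, hf, fun u hu _ => hAU u hu⟩
      · push Not at hAU
        obtain ⟨u₀, hu₀, hne⟩ := hAU
        refine ⟨ξ'.comp A, u₀, hu₀, ?_, ?_⟩
        · intro h
          exact hne (hU' _ (hAU' u₀ hu₀) h)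
        · intro u hu hu0
          exact hU' _ (hAU' u hu) hu0
    -- dimension of the kernel
    set U₁ : Submodule F V := U ⊓ LinearMap.ker ξ with hU₁
    have hm : ∀ u, u ∈ U₁ ↔ u ∈ U ∧ ξ u = 0 := by
      intro u
      rw [hU₁, Submodule.mem_inf, LinearMap.mem_ker]
    have hdim : finrank F U₁ = k := by
      have h1 : U₁ ⊔ Submodule.span F {u₀} = U := by
        apply le_antisymm
        · apply sup_le inf_le_left
          rw [Submodule.span_singleton_le_iff_mem]
          exact hu₀
        · intro u hu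
          rw [Submodule.mem_sup]
          refine ⟨u - (ξ u * (ξ u₀)⁻¹) • u₀, ?_, (ξ u * (ξ u₀)⁻¹) • u₀,
            Submodule.smul_mem _ _ (Submodule.mem_span_singleton_self u₀), by abel⟩
          rw [hm]
          refine ⟨U.sub_mem hu (U.smul_mem _ hu₀), ?_⟩
          rw [map_sub, map_smul, smul_eq_mul, mul_assoc, inv_mul_cancel₀ hξu₀, mul_one, sub_self]
      have h2 : U₁ ⊓ Submodule.span F {u₀} = ⊥ := by
        rw [eq_bot_iff]
        intro u hu
        obtain ⟨hu1, hu2⟩ := Submodule.mem_inf.1 hu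
        obtain ⟨c, rfl⟩ := Submodule.mem_span_singleton.1 hu2
        have h3 := ((hm _).1 hu1).2
        rw [map_smul, smul_eq_mul] at h3
        have h4 := (mul_eq_zero.1 h3).resolve_right hξu₀
        rw [h4, zero_smul]
        exact Submodule.zero_mem _
      have h3 := Submodule.finrank_sup_add_finrank_inf_eq U₁ (Submodule.span F {u₀})
      rw [h1, h2, finrank_bot, hU, finrank_span_singleton] at h3
      · omega
      · intro h
        rw [h, map_zero] at hξu₀
        exact hξu₀ rfl
    obtain ⟨I, h, hst⟩ := ih (by omega) U₁ hdim ⟨U, ξ, fun u hu h0 => (hm u).2 ⟨hu, h0⟩,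
      fun u hu => hξA u ((hm u).1 hu).1 ((hm u).1 hu).2⟩
    -- the image of the kernel
    set W : Submodule F B := U₁.map I with hW
    have hWm : ∀ w ∈ W, ∃ u ∈ U₁, I u = w := fun w hw => hw
    have hWne : W ≠ ⊤ := by
      intro hWt
      have h1 : finrank F W ≤ finrank F U₁ := Submodule.finrank_map_le I U₁
      rw [hWt, finrank_top] at h1
      omega
    rcases Nat.eq_zero_or_pos k with hk0 | hkpos
    · -- k = 0
      subst hk0
      have : Nontrivial B := by
        apply Module.nontrivial_of_finrank_pos (R := F)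
        omega
      refine facg_ext A θ 0 U ξ I h hst hξA u₀ hu₀ hξu₀ 1 (fun _ => rfl) ?_ ?_
      · intro u hu h0 h1
        have hbot : U₁ = ⊥ := Submodule.finrank_eq_zero.1 hdim
        have h2 := (hm u).2 ⟨hu, h0⟩
        rw [hbot] at h2
        rw [(Submodule.mem_bot F).1 h2, map_zero] at h1
        exact zero_ne_one h1
      · intro j hj; omega
    · obtain ⟨k', rfl⟩ : ∃ k', k = k' + 1 := ⟨k - 1, by omega⟩
      have h1W : (1 : B) ∈ W := ⟨h 0, hst.mem 0 hkpos, hst.one hkpos⟩
      have hgU : h k' ∈ U₁ := hst.mem k' (by omega)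
      have hAg : A (h k') ∈ U := hξA _ ((hm _).1 hgU).1 ((hm _).1 hgU).2
      by_cases hcase : ξ (A (h k')) = 0
      · -- the subspace is invariant
        have hAgU : A (h k') ∈ U₁ := (hm _).2 ⟨hAg, hcase⟩
        have hAh : ∀ j < k' + 1, A (h j) ∈ U₁ := by
          intro j hj
          rcases Nat.lt_succ_iff_lt_or_eq.1 hj with h1 | h1
          · exact hst.stepU j (by omega)
          · rw [h1]; exact hAgU
        have hAmap : ∀ u ∈ U₁, A u ∈ U₁ := by
          intro u hu
          obtain ⟨a, ha⟩ := hst.span u hu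
          rw [ha, map_sum]
          apply Submodule.sum_mem
          intro j hj
          rw [map_smul]
          exact Submodule.smul_mem _ _ (hAh j (Finset.mem_range.1 hj))
        have hsurj : ∀ u ∈ U₁, ∃ u2 ∈ U₁, A u2 = u := by
          have h1 : Function.Injective (A.restrict hAmap) := by
            intro a b hab
            apply Subtype.ext
            apply hA
            have := congrArg Subtype.val hab
            simpa using this
          have h2 := LinearMap.injective_iff_surjective.1 h1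
          intro u hu
          obtain ⟨u2, hu2⟩ := h2 ⟨u, hu⟩
          refine ⟨u2.1, u2.2, ?_⟩
          have := congrArg Subtype.val hu2
          simpa using this
        obtain ⟨τ, rfl⟩ := hu
        have hnot : (↑τ⁻¹ : B) * I (A (h k')) ∉ W := by
          intro hin
          apply hWne
          apply facg_inv (τ : B) hθ W h1W
          apply facg_unit τ W
          intro w hw
          obtain ⟨u, huU, rfl⟩ := hWm w hw
          obtain ⟨u2, hu2, rfl⟩ := hsurj u huU
          obtain ⟨a, ha⟩ := hst.span u2 hu2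
          rw [ha, map_sum, map_sum, Finset.mul_sum]
          apply Submodule.sum_mem
          intro j hj
          rw [map_smul, map_smul, mul_smul_comm]
          apply Submodule.smul_mem
          rcases Nat.lt_succ_iff_lt_or_eq.1 (Finset.mem_range.1 hj) with h1 | h1
          · rw [hst.stepI j (by omega), ← mul_assoc, Units.inv_mul, one_mul]
            exact ⟨h (j + 1), hst.mem (j + 1) (by omega), rfl⟩
          · rw [h1]; exact hin
        refine facg_ext A (τ : B) (k' + 1) U ξ I h hst hξA u₀ hu₀ hξu₀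
          ((↑τ⁻¹ : B) * I (A (h k'))) (by intro h0; omega) ?_ ?_
        · intro u hu h0 h1
          apply hnot
          rw [← h1]
          exact ⟨u, (hm u).2 ⟨hu, h0⟩, rfl⟩
        · intro j hj
          have hj' : j = k' := by omega
          subst hj'
          refine ⟨0, A (h j), hAg, hcase, by simp, ?_⟩
          rw [zero_smul, zero_add, ← mul_assoc, Units.mul_inv, one_mul]
      · -- the subspace is not invariant
        obtain ⟨η, hηW, hη1⟩ := facg_shift θ hθ W h1W hWne
        obtain ⟨v, hvU, hv⟩ := hWm _ hη1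
        obtain ⟨hvU', hv0⟩ := (hm v).1 hvU
        refine facg_ext A θ (k' + 1) U ξ I h hst hξA (A (h k') - v) (U.sub_mem hAg hvU') ?_
          η (by intro h0; omega) ?_ ?_
        · rw [map_sub, hv0, sub_zero]; exact hcase
        · intro u hu h0 h1
          apply hηW
          rw [← h1]
          exact ⟨u, (hm u).2 ⟨hu, h0⟩, rfl⟩
        · intro j hj
          have hj' : j = k' := by omega
          subst hj'
          refine ⟨1, v, hvU', hv0, by rw [one_smul]; abel, ?_⟩
          rw [one_smul, hv]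
          ring

end Pool.Agent.SLN
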