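import Mathlib

/-! The field `L` and the generator `s` (module Fld of SLN). -/

set_option autoImplicit false

namespace Pool.Agent.SLN

/-- multipliers of an additive subgroup of a finite field -/
private def Mul' {L : Type*} [Field L] [Finite L] (E : AddSubgroup L) : Subfield L where
  carrier := {a | ∀ w ∈ E, a * w ∈ E}
  mul_mem' := by
    intro a c ha hc w h
    rw [mul_assoc]
    exact ha _ (hc _ h)
  one_mem' := by
    intro w h
    rwa [one_mul]
  add_mem' := by
    intro a c ha hc w h
    rw [add_mul]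
    exact E.add_mem (ha _ h) (hc _ h)
  zero_mem' := by
    intro w _
    rw [zero_mul]
    exact E.zero_mem
  neg_mem' := by
    intro a ha w h
    rw [neg_mul]
    exact E.neg_mem (ha _ h)
  inv_mem' := by
    intro a ha w h
    have hpow : ∀ n : ℕ, ∀ w ∈ E, a ^ n * w ∈ E := by
      intro n
      induction n with
      | zero =>
        intro w h
        rwa [pow_zero, one_mul]
      | succ n ih =>
        intro w h
        rw [pow_succ, mul_assoc]
        exact ih _ (ha _ h)
    by_cases h0 : a = 0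
    · rw [h0, inv_zero, zero_mul]
      exact E.zero_mem
    · have : Fintype L := Fintype.ofFinite L
      have h1 := FiniteField.pow_card_sub_one_eq_one a h0
      have h2 : 2 ≤ Fintype.card L := Fintype.one_lt_card
      obtain ⟨n, hn⟩ : ∃ n, Fintype.card L - 1 = n + 1 := ⟨Fintype.card L - 2, by omega⟩
      rw [hn, pow_succ] at h1
      have h3 : a ^ n = a⁻¹ := eq_inv_of_mul_eq_one_left h1
      rw [← h3]
      exact hpow n w h

private theorem mem_Mul' {L : Type*} [Field L] [Finite L] {E : AddSubgroup L} {a : L} :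
    a ∈ Mul' E ↔ ∀ w ∈ E, a * w ∈ E := Iff.rfl

/-- a subfield of a finite field is everything, or its square has at most `|L|` elements -/
private theorem card_sq_le {F : Type*} [Field F] [Finite F] {K : Subfield F} (hK : K ≠ ⊤) :
    Nat.card K ^ 2 ≤ Nat.card F := by
  have h1 : Nat.card F = Nat.card K ^ Module.finrank K F := Module.natCard_eq_pow_finrank
  have hpos : 0 < Nat.card K := Nat.card_pos
  have h2 : 2 ≤ Module.finrank K F := by
    by_contra hcon
    push Not at hcon
    have h3 : 0 < Module.finrank K F := Module.finrank_pos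
    have h4 : Module.finrank K F = 1 := by omega
    rw [h4, pow_one] at h1
    apply hK
    rw [eq_top_iff]
    intro x _
    have h5 : Function.Surjective (fun y : K => (y : F)) := by
      have := (Nat.bijective_iff_injective_and_card (fun y : K => (y : F))).2
        ⟨Subtype.val_injective, h1.symm⟩
      exact this.2
    obtain ⟨y, hy⟩ := h5 x
    rw [← hy]
    exact y.2
  rw [h1]
  exact Nat.pow_le_pow_right hpos h2

private theorem geo_mod (k m : ℕ) : ∃ c, ∑ i ∈ Finset.range m, (k + 1) ^ i = k * c + m := by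
  induction m with
  | zero => exact ⟨0, by simp⟩
  | succ m ih =>
    obtain ⟨c, hc⟩ := ih
    obtain ⟨c', hc'⟩ : ∃ c', (k + 1) ^ m = k * c' + 1 := by
      clear hc
      induction m with
      | zero => exact ⟨0, by simp⟩
      | succ m ih =>
        obtain ⟨c', hc'⟩ := ih
        exact ⟨c' * (k + 1) + 1, by rw [pow_succ, hc']; ring⟩
    exact ⟨c + c', by rw [Finset.sum_range_succ, hc, hc']; ring⟩

/-- module Fld -/
theorem fld (F : Type) [Field F] [Finite F] (m : ℕ) (hm : 2 ≤ m)
    (hq : ¬ (Nat.card F - 1 ∣ m + 1)) :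
    ∃ (L : Type) (_ : Field L) (_ : Finite L) (_ : Algebra F L) (s : L),
      Module.finrank F L = m ∧ s ≠ 0 ∧ Algebra.adjoin F {s} = ⊤ ∧
      (∀ x y : L, x ≠ 0 → y ≠ 0 → ∃ j : ℕ, s ^ j * x = y) ∧
      (∃ N : ℕ, s ^ N = algebraMap F L (Algebra.norm F s) ∧
        ((Algebra.norm F s)⁻¹) ^ N ≠ Algebra.norm F s) ∧
      (∀ E : AddSubgroup L, (∀ w ∈ E, (Algebra.norm F s) • (s * w) ∈ E) → E ≠ ⊥ → E = ⊤) := by
  obtain ⟨p, hp⟩ := CharP.exists F
  have : Fact p.Prime := ⟨CharP.char_is_prime F p⟩
  have : NeZero m := ⟨by omega⟩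
  set L := FiniteField.Extension F p m with hL
  have hfin : Module.finrank F L = m := FiniteField.finrank_extension F p m
  obtain ⟨g, hg⟩ := IsCyclic.exists_generator (α := Lˣ)
  have hF1 : 1 < Nat.card F := Finite.one_lt_card
  obtain ⟨k, hk⟩ : ∃ k, Nat.card F = k + 1 := ⟨Nat.card F - 1, by omega⟩
  rw [hk, Nat.add_sub_cancel] at hq
  have hk2 : 2 ≤ k := by
    rcases Nat.lt_or_ge k 2 with h | h
    · have h1 : k = 1 := by omega
      rw [h1] at hq
      exact absurd (one_dvd _) hq
    · exact h
  set N := ∑ i ∈ Finset.range m, (k + 1) ^ i with hN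
  have hcardL : Nat.card L = N * k + 1 := by
    have h1 : Nat.card L = Nat.card F ^ m := FiniteField.natCard_extension F p m
    rw [h1, hk, hN, geom_sum_mul_add]
  obtain ⟨c, hc⟩ := geo_mod k m
  rw [← hN] at hc
  have hNk : k + 2 ≤ N := by
    have h1 : ∑ i ∈ Finset.range 2, (k + 1) ^ i ≤ N :=
      Finset.sum_le_sum_of_subset (Finset.range_subset_range.2 hm)
    simp [Finset.sum_range_succ] at h1
    omega
  have hndvd : ¬ k ∣ N + 1 := by
    intro h
    rw [hc, add_assoc] at h
    exact hq ((Nat.dvd_add_right (Dvd.intro c rfl)).1 h)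
  set s : L := (g : L) with hs
  have hs0 : s ≠ 0 := g.ne_zero
  have hord : ∀ a : ℕ, s ^ a = 1 → N * k ∣ a := by
    intro a ha
    have h1 : orderOf g = Nat.card Lˣ := orderOf_eq_card_of_forall_mem_zpowers hg
    rw [Nat.card_units, hcardL, Nat.add_sub_cancel] at h1
    rw [← h1]
    apply orderOf_dvd_of_pow_eq_one
    ext
    simpa using ha
  have hnorm : algebraMap F L (Algebra.norm F s) = s ^ N := by
    rw [FiniteField.algebraMap_norm_eq_pow_sum, hfin, hk]
  set μ := Algebra.norm F s with hμ
  have hinj : Function.Injective (algebraMap F L) := (algebraMap F L).injective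
  have hμ0 : μ ≠ 0 := by
    intro h
    rw [h, map_zero] at hnorm
    exact pow_ne_zero N hs0 hnorm.symm
  have hμpow : ∀ j : ℕ, μ ^ j = 1 → k ∣ j := by
    intro j hj
    have h1 : s ^ (N * j) = 1 := by
      rw [pow_mul, ← hnorm, ← map_pow, hj, map_one]
    have h2 := hord _ h1
    exact Nat.dvd_of_mul_dvd_mul_left (by omega) h2
  have htrans : ∀ x y : L, x ≠ 0 → y ≠ 0 → ∃ j : ℕ, s ^ j * x = y := by
    intro x y hx hy
    have h1 := hg (Units.mk0 (y / x) (div_ne_zero hy hx))
    rw [← mem_powers_iff_mem_zpowers] at h1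
    obtain ⟨j, hj⟩ := h1
    refine ⟨j, ?_⟩
    have h2 : s ^ j = y / x := by
      have := congrArg Units.val hj
      simpa using this
    rw [h2, div_mul_cancel₀ _ hx]
  refine ⟨L, inferInstance, inferInstance, inferInstance, s, hfin, hs0, ?_, htrans,
    ⟨N, hnorm.symm, ?_⟩, ?_⟩
  · rw [eq_top_iff]
    intro y _
    rcases eq_or_ne y 0 with rfl | hy
    · exact zero_mem _
    · obtain ⟨j, hj⟩ := htrans 1 y one_ne_zero hy
      rw [← hj, mul_one]
      exact pow_mem (Algebra.subset_adjoin (Set.mem_singleton s)) j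
  · intro h
    apply hndvd
    apply hμpow
    change μ⁻¹ ^ N = μ at h
    calc μ ^ (N + 1) = μ ^ N * μ := pow_succ _ _
      _ = μ ^ N * μ⁻¹ ^ N := by rw [h]
      _ = 1 := by rw [← mul_pow, mul_inv_cancel₀ hμ0, one_pow]
  · intro E hE hbot
    have hθ : s ^ (N + 1) ∈ Mul' E := by
      rw [mem_Mul']
      intro w hw
      have h1 := hE w hw
      rw [Algebra.smul_def, hnorm, ← mul_assoc, ← pow_succ] at h1
      exact h1
    have htop : Mul' E = ⊤ := by
      by_contra hK
      have h1 := card_sq_le hK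
      rw [hcardL] at h1
      have hK1 : 1 < Nat.card (Mul' E) := Finite.one_lt_card
      have h2 : (s ^ (N + 1)) ^ (Nat.card (Mul' E) - 1) = 1 := by
        have : Fintype (Mul' E) := Fintype.ofFinite _
        have h3 := FiniteField.pow_card_sub_one_eq_one (⟨s ^ (N + 1), hθ⟩ : Mul' E) (by
          intro h
          exact pow_ne_zero (N + 1) hs0 (congrArg Subtype.val h))
        rw [← Nat.card_eq_fintype_card] at h3
        exact congrArg Subtype.val h3
      rw [← pow_mul] at h2
      have h3 := hord _ h2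
      obtain ⟨κ, hκ⟩ : ∃ κ, Nat.card (Mul' E) = κ + 1 := ⟨Nat.card (Mul' E) - 1, by omega⟩
      rw [hκ] at h1 h3 hK1
      rw [Nat.add_sub_cancel] at h3
      have hcop : Nat.Coprime N (N + 1) := by simp
      have h4 : N ∣ κ := hcop.dvd_of_dvd_mul_left (Dvd.dvd.trans (Dvd.intro k rfl) h3)
      obtain ⟨j, hj⟩ := h4
      have h5 : k ∣ (N + 1) * j := by
        rw [hj, ← mul_assoc, mul_comm (N + 1) N, mul_assoc] at h3
        exact Nat.dvd_of_mul_dvd_mul_left (by omega) h3
      have h6 : j ≠ 0 := by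
        rintro rfl
        omega
      have h7 : j ≠ 1 := by
        rintro rfl
        rw [mul_one] at h5
        exact hndvd h5
      have h8 : 2 * N ≤ κ := by
        rw [hj, mul_comm]
        exact Nat.mul_le_mul_left N (by omega)
      nlinarith
    obtain ⟨⟨w, hw⟩, hw0'⟩ := (AddSubgroup.ne_bot_iff_exists_ne_zero).1 hbot
    have hw0 : w ≠ 0 := fun h => hw0' (Subtype.ext h)
    rw [eq_top_iff]
    intro x _
    have h1 : x * w⁻¹ ∈ Mul' E := by
      rw [htop]
      trivial
    have h2 := mem_Mul'.1 h1 w hw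
    rwa [mul_assoc, inv_mul_cancel₀ hw0, mul_one] at h2

end Pool.Agent.SLN
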